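import Mathlib

set_option autoImplicit false

open Polynomial

namespace NefMod

/-- A function `K → ℤ` with the formal properties of a discrete valuation. -/
structure Val (K : Type*) [Field K] where
  ord : K → ℤ
  ord_mul : ∀ {f g : K}, f ≠ 0 → g ≠ 0 → ord (f * g) = ord f + ord g
  ord_add : ∀ {f g : K}, f ≠ 0 → g ≠ 0 → f + g ≠ 0 → min (ord f) (ord g) ≤ ord (f + g)

/-- `f` is zero or has order at least `n`. -/
def Val.Ge {K : Type*} [Field K] (v : Val K) (n : ℤ) (f : K) : Prop := f = 0 ∨ n ≤ v.ord f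

/-- Permutations of the four indices (they index the projective coordinates). -/
abbrev S4 := Equiv.Perm (Fin 4)

section
variable {R : Type*} [CommRing R]

/-- The vector of the differences `a_i - a_j`. -/
def al (a : Fin 4 → R) : S4 → R := fun σ => a (σ 0) - a (σ 1)

/-- The vector of the `(a_i - a_j)^2 (a_k - a_l)`. -/
def pv (a : Fin 4 → R) : S4 → R := fun σ => (a (σ 0) - a (σ 1)) ^ 2 * (a (σ 2) - a (σ 3))

/-- The vector of the `(s - t a_i)^3 (a_j - a_k)^2 (a_k - a_l) (a_l - a_j)`. -/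
def ov (a : Fin 4 → R) (s t : R) : S4 → R := fun σ =>
  (s - t * a (σ 0)) ^ 3 * ((a (σ 1) - a (σ 2)) ^ 2 * (a (σ 2) - a (σ 3)) * (a (σ 3) - a (σ 1)))

/-- The quartic polynomial `f = ∏ (X - a_j)`. -/
noncomputable def fP (a : Fin 4 → R) : R[X] := ∏ j, (X - C (a j))

end

/-- Four distinct elements `a_i` of a field together with cube roots `z_ij` of `a_i - a_j`. -/
structure Cub (K : Type*) [Field K] where
  a : Fin 4 → K
  z : Fin 4 → Fin 4 → K
  inj : Function.Injective a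
  cube : ∀ i j, z i j ^ 3 = a i - a j
  anti : ∀ i j, z j i = - z i j

section
variable {K : Type*} [Field K]

/-- the vector `z_ij` -/
def zv (c : Cub K) : S4 → K := fun σ => c.z (σ 0) (σ 1)

/-- the vector `ζ = z_ij^2 z_kl` -/
def zt (c : Cub K) : S4 → K := fun σ => c.z (σ 0) (σ 1) ^ 2 * c.z (σ 2) (σ 3)

/-- the product `z_jk z_kl z_lj` (the indices different from `i = σ 0`) -/
def tri (c : Cub K) (σ : S4) : K := c.z (σ 1) (σ 2) * c.z (σ 2) (σ 3) * c.z (σ 3) (σ 1)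

/-- the vector `θ = (s - t a_i) z_jk^2 z_kl z_lj` -/
def th (c : Cub K) (s t : K) : S4 → K := fun σ =>
  (s - t * c.a (σ 0)) * (c.z (σ 1) (σ 2) ^ 2 * c.z (σ 2) (σ 3) * c.z (σ 3) (σ 1))

/-- the sum of the orders of the six `z_ij`, `i < j` -/
def sz (v : Val K) (c : Cub K) : ℤ :=
  v.ord (c.z 0 1) + v.ord (c.z 0 2) + v.ord (c.z 0 3) + v.ord (c.z 1 2) + v.ord (c.z 1 3) +
    v.ord (c.z 2 3)

/-- The formal antiderivative; in characteristic `p` the terms `X^(np)` are omitted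
(division by zero is zero). -/
noncomputable def antid (g : K[X]) : K[X] :=
  ∑ n ∈ Finset.range (g.natDegree + 1), monomial (n + 1) (g.coeff n / ((n + 1 : ℕ) : K))

/-- `den_j = ∏_{k ≠ j} (a_j - a_k) = f'(a_j)` -/
noncomputable def den (a : Fin 4 → K) (j : Fin 4) : K := ∏ k ∈ Finset.univ.erase j, (a j - a k)

/-- `q(h) = ∑_j G(a_j) h_j / f'(a_j)^p` -/
noncomputable def qf (p : ℕ) (a : Fin 4 → K) (G : K[X]) (h : Fin 4 → K) : K :=
  ∑ j, G.eval (a j) * h j / den a j ^ p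

/-- the polynomial `(u0 + u1 X) f^r` -/
noncomputable def lf (a : Fin 4 → K) (r : ℕ) (u0 u1 : K) : K[X] := (C u0 + C u1 * X) * fP a ^ r

end

/-- The minimum of the orders of the non-zero entries of the vector `x`. -/
noncomputable def moV {K ι : Type*} [Field K] (v : Val K) (x : ι → K) : ℤ :=
  ⨅ i : {i : ι // x i ≠ 0}, v.ord (x i)

/-- A field with a family of valuations satisfying the product formula. -/
structure PS (K : Type*) [Field K] where
  I : Type*
  v : I → Val K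
  fin : ∀ f : K, f ≠ 0 → {i | (v i).ord f ≠ 0}.Finite
  prod : ∀ f : K, f ≠ 0 → ∑ᶠ i, (v i).ord f = 0

/-- The height of the projective point `[x]`. -/
noncomputable def PS.ht {K ι : Type*} [Field K] (S : PS K) (x : ι → K) : ℤ :=
  ∑ᶠ i : S.I, - moV (S.v i) x

/-- Index set of the projective coordinates (four groups). -/
abbrev Idx := S4 ⊕ (Fin 4 ⊕ (S4 ⊕ S4))

/-- Parameters: `a_0, …, a_3`; `s, t`; and four scalings. -/
abbrev Prm := Fin 4 ⊕ (Fin 2 ⊕ Fin 4)

/-- the parameters `a_i` -/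
noncomputable def pa (i : Fin 4) : MvPolynomial Prm ℤ := MvPolynomial.X (Sum.inl i)
/-- the parameter `s` -/
noncomputable def ps : MvPolynomial Prm ℤ := MvPolynomial.X (Sum.inr (Sum.inl 0))
/-- the parameter `t` -/
noncomputable def pt : MvPolynomial Prm ℤ := MvPolynomial.X (Sum.inr (Sum.inl 1))
/-- the scalings `λ_i` -/
noncomputable def pl (i : Fin 4) : MvPolynomial Prm ℤ := MvPolynomial.X (Sum.inr (Sum.inr i))

/-- The generic point: the four vectors `a_i - a_j`, `s - t a_i`, `(a_i - a_j)^2 (a_k - a_l)` and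
`(s - t a_i)^3 (a_j - a_k)^2 (a_k - a_l) (a_l - a_j)`, each with its own scaling. -/
noncomputable def gen : Idx → MvPolynomial Prm ℤ :=
  Sum.elim (fun σ => pl 0 * al pa σ) (Sum.elim (fun i => pl 1 * (ps - pt * pa i))
    (Sum.elim (fun σ => pl 2 * pv pa σ) (fun σ => pl 3 * ov pa ps pt σ)))

/-- The multihomogeneous prime ideal of all relations of the generic point, over `ℤ`; it defines
a closed integral subscheme of `ℙ²³ × ℙ³ × ℙ²³ × ℙ²³` over `ℤ`. -/
noncomputable def modelIdeal : Ideal (MvPolynomial Idx ℤ) :=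
  RingHom.ker (MvPolynomial.aeval gen : MvPolynomial Idx ℤ →ₐ[ℤ] MvPolynomial Prm ℤ).toRingHom

/-- A point of the model with values in the field `K`, given by homogeneous coordinates. -/
structure MPoint (K : Type*) [Field K] where
  A : S4 → K
  Y : Fin 4 → K
  P : S4 → K
  W : S4 → K
  hA : A ≠ 0
  hY : Y ≠ 0
  hP : P ≠ 0
  hW : W ≠ 0
  mem : ∀ F ∈ modelIdeal,
    MvPolynomial.aeval (Sum.elim A (Sum.elim Y (Sum.elim P W)) : Idx → K) F = 0

/-- the permutation fixing `0` and rotating `1 → 2 → 3 → 1` -/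
def rho : S4 := ⟨![0, 2, 3, 1], ![0, 3, 1, 2], by decide, by decide⟩
/-- the permutation `0 → 3, 1 → 0, 2 → 1, 3 → 2` -/
def kap : S4 := ⟨![3, 0, 1, 2], ![1, 2, 3, 0], by decide, by decide⟩
/-- `0 → 1, 1 → 3, 2 → 0, 3 → 2` -/
def g1 : S4 := ⟨![1, 3, 0, 2], ![2, 0, 3, 1], by decide, by decide⟩
/-- `0 → 2, 1 → 0, 2 → 1, 3 → 3` -/
def g2 : S4 := ⟨![2, 0, 1, 3], ![1, 2, 0, 3], by decide, by decide⟩
/-- `0 → 2, 1 → 3, 2 → 0, 3 → 1` -/
def g3 : S4 := ⟨![2, 3, 0, 1], ![2, 3, 0, 1], by decide, by decide⟩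
/-- `0 → 1, 1 → 0, 2 → 2, 3 → 3` -/
def g4 : S4 := ⟨![1, 0, 2, 3], ![1, 0, 2, 3], by decide, by decide⟩
/-- `0 → 1, 1 → 2, 2 → 3, 3 → 0` -/
def g7 : S4 := ⟨![1, 2, 3, 0], ![3, 0, 1, 2], by decide, by decide⟩

end NefMod
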