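import Pool.Agent.Helper729.NF.Defs

set_option autoImplicit false

open Polynomial

namespace NefMod

--@ C0
theorem C0 {K : Type*} [Field K] (x : MPoint K) : ∃ a : Fin 4 → K, x.A = al a ∧ a ≠ 0 ∧ a 3 = 0 := by
  sorry

--@ C1
theorem C1 {K : Type*} [Field K] (x : MPoint K) (a : Fin 4 → K) (ha : x.A = al a) (σ τ : S4) :
    x.P σ * pv a τ = x.P τ * pv a σ := by
  sorry

--@ C2
theorem C2 {K : Type*} [Field K] (x : MPoint K) (a : Fin 4 → K) (ha : x.A = al a) :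
    ∃ s t : K, (s ≠ 0 ∨ t ≠ 0) ∧ x.Y = fun i => s - t * a i := by
  sorry

--@ C3
theorem C3 {K : Type*} [Field K] (x : MPoint K) (a : Fin 4 → K) (ha : x.A = al a) (s t : K)
    (hY : x.Y = fun i => s - t * a i) (σ τ : S4) : x.W σ * ov a s t τ = x.W τ * ov a s t σ := by
  sorry

--@ C4a
theorem C4a {K : Type*} [Field K] (x : MPoint K) (a : Fin 4 → K) (ha : x.A = al a) (l : Fin 4)
    (hl : ∀ i j, i ≠ l → j ≠ l → a i = a j) (τ : S4) (h : τ 0 ≠ l) (h1 : τ 1 ≠ l) :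
    x.P τ = 0 := by
  sorry

--@ C4b
theorem C4b {K : Type*} [Field K] (x : MPoint K) (a : Fin 4 → K) (ha : x.A = al a) (l : Fin 4)
    (hl : ∀ i j, i ≠ l → j ≠ l → a i = a j) (σ τ : S4) (hs : σ 0 = l) (ht : τ 0 = l) :
    x.W (σ * Equiv.swap 1 2 * Equiv.swap 2 3 * Equiv.swap 1 2 * Equiv.swap 1 3) = x.W (σ * Equiv.swap 1 2 * Equiv.swap 2 3 * Equiv.swap 1 2 * Equiv.swap 1 3) := by
  sorry

end NefMod
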