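import Pool.Agent.Helper729.NF.Defs

set_option autoImplicit false

open Polynomial

namespace NefMod

--@ H0
theorem H0 {K ι : Type*} [Field K] [Finite ι] (v : Val K) (x : ι → K) (hx : ∃ i, x i ≠ 0) :
    (∀ i, v.Ge (moV v x) (x i)) ∧ (∃ i, x i ≠ 0 ∧ v.ord (x i) = moV v x) ∧
    (∀ n : ℤ, (∀ i, v.Ge n (x i)) → n ≤ moV v x) := by
  sorry

--@ H1
theorem H1 {K ι : Type*} [Field K] [Finite ι] (S : PS K) (x : ι → K) (hx : ∃ i, x i ≠ 0) :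
    {i | moV (S.v i) x ≠ 0}.Finite := by
  sorry

--@ H2
theorem H2 {K ι : Type*} [Field K] [Finite ι] (S : PS K) (x y : ι → K) (hx : ∃ i, x i ≠ 0)
    (hy : ∃ i, y i ≠ 0) (h : ∀ i j, x i * y j = x j * y i) : S.ht x = S.ht y := by
  sorry

--@ H3
theorem H3 {K ι : Type*} [Field K] [Finite ι] (S : PS K) (x : ι → K) (hx : ∃ i, x i ≠ 0) :
    0 ≤ S.ht x := by
  sorry

--@ H4
theorem H4 {K ι : Type*} [Field K] [Finite ι] (S : PS K) (x : ι → K) (n : ℕ) (hn : n ≠ 0)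
    (hx : ∃ i, x i ≠ 0) : S.ht (fun i => x i ^ n) = n * S.ht x := by
  sorry

--@ H5
theorem H5 {K ι κ : Type*} [Field K] [Finite ι] [Finite κ] (S : PS K) (x : ι → K) (y : κ → K)
    (c : K) (hc : c ≠ 0) (hx : ∃ i, x i ≠ 0) (hy : ∃ i, y i ≠ 0)
    (h : ∀ i, x i = 0 ∨ ∃ j, x i = c * y j ∨ x i = - (c * y j)) : S.ht x ≤ S.ht y := by
  sorry

--@ H8
theorem H8 {K ι : Type*} [Field K] [Finite ι] (S : PS K) (x : ι → K) (i j : ι) (hi : x i ≠ 0)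
    (hj : x j ≠ 0) (w : S.I) (hw : (S.v w).ord (x i) < (S.v w).ord (x j)) : 0 < S.ht x := by
  sorry

--@ H9
theorem H9 {K ι₁ ι₂ ι₃ ι₄ : Type*} [Field K] [Finite ι₁] [Finite ι₂] [Finite ι₃] [Finite ι₄]
    (S : PS K) (x : ι₁ → K) (y : ι₂ → K) (z : ι₃ → K) (w : ι₄ → K) (hx : ∃ i, x i ≠ 0)
    (hy : ∃ i, y i ≠ 0) (hz : ∃ i, z i ≠ 0) (hw : ∃ i, w i ≠ 0) (α β γ ε : ℤ) (u : K) (hu : u ≠ 0)
    (h : ∀ i, α * moV (S.v i) x + β * moV (S.v i) y + γ * moV (S.v i) z + (S.v i).ord u ≤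
      ε * moV (S.v i) w) : ε * S.ht w ≤ α * S.ht x + β * S.ht y + γ * S.ht z := by
  sorry

--@ A1
theorem A1 {K : Type*} [Field K] (p r : ℕ) [Fact p.Prime] [CharP K p] (hp : p = 3 * r + 1)
    (hr : 2 ≤ r) (S : PS K) (c : Cub K) (hc : (fP c.a ^ r).coeff (p - 1) = 0)
    (hpos : 0 < S.ht (zv c)) : ∃ (c' : Cub K) (s t : K), (s ≠ 0 ∨ t ≠ 0) ∧
      S.ht (zv c') - S.ht (zt c') + S.ht (th c' s t) < 0 := by
  sorry

--@ A2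
theorem A2 {K : Type*} [Field K] (p r : ℕ) [Fact p.Prime] [CharP K p] (hp : p = 3 * r + 2)
    (hr : 1 ≤ r) (S : PS K) (c : Cub K)
    (hc : (fP c.a ^ (2 * r + 1)).coeff (p - 1) * (fP c.a ^ r).coeff (p - 1) ^ p +
      (fP c.a ^ (2 * r + 1)).coeff (2 * p - 1) * (fP c.a ^ r).coeff (p - 2) ^ p = 0)
    (hk : (fP c.a ^ r).coeff (p - 1) ≠ 0)
    (hpos : 0 < S.ht (zv c)) : ∃ (s t : K), (s ≠ 0 ∨ t ≠ 0) ∧
      S.ht (zv c) - S.ht (zt c) + S.ht (th c s t) < 0 := by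
  sorry

--@ E3
theorem E3 {K : Type*} [Field K] (S : PS K) (c : Cub K) (s t : K) (hst : s ≠ 0 ∨ t ≠ 0) :
    S.ht (al c.a) - S.ht (pv c.a) + S.ht (ov c.a s t) =
      3 * (S.ht (zv c) - S.ht (zt c) + S.ht (th c s t)) := by
  sorry

end NefMod
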