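import Pool.Agent.Helper729.NF.Defs

set_option autoImplicit false

open Polynomial

namespace NefMod



theorem H0 {K ι : Type*} [Field K] [Finite ι] (v : Val K) (x : ι → K) (hx : ∃ i, x i ≠ 0) :
    (∀ i, v.Ge (moV v x) (x i)) ∧ (∃ i, x i ≠ 0 ∧ v.ord (x i) = moV v x) ∧
    (∀ n : ℤ, (∀ i, v.Ge n (x i)) → n ≤ moV v x) := by
  obtain ⟨i0, hi0⟩ := hx
  haveI : Nonempty {i : ι // x i ≠ 0} := ⟨⟨i0, hi0⟩⟩
  obtain ⟨m, hm⟩ := Finite.exists_min (fun i : {i : ι // x i ≠ 0} => v.ord (x i))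
  have hbdd : BddBelow (Set.range (fun i : {i : ι // x i ≠ 0} => v.ord (x i))) :=
    (Set.finite_range _).bddBelow
  have hmo : moV v x = v.ord (x m) := by
    unfold moV
    apply le_antisymm
    · exact ciInf_le hbdd m
    · exact le_ciInf hm
  refine ⟨?_, ⟨m, m.2, hmo.symm⟩, ?_⟩
  · intro i
    by_cases h : x i = 0
    · exact Or.inl h
    · right
      rw [hmo]
      exact hm ⟨i, h⟩
  · intro n hn
    rw [hmo]
    rcases hn m with h | h
    · exact absurd h m.2
    · exact h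

end NefMod
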