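import Pool.Agent.Helper729.NF.Defs
import Pool.Agent.Helper729.NF.P_H0

set_option autoImplicit false

open Polynomial

namespace NefMod



theorem H1 {K ι : Type*} [Field K] [Finite ι] (S : PS K) (x : ι → K) (hx : ∃ i, x i ≠ 0) :
    {i | moV (S.v i) x ≠ 0}.Finite := by
  have hU : (⋃ i : {i : ι // x i ≠ 0}, {s | (S.v s).ord (x i) ≠ 0}).Finite :=
    Set.finite_iUnion fun i => S.fin (x i) i.2
  refine hU.subset ?_
  intro s hs
  obtain ⟨-, ⟨i, hi, hio⟩, -⟩ := H0 (S.v s) x hx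
  refine Set.mem_iUnion.2 ⟨⟨i, hi⟩, ?_⟩
  simp only [Set.mem_setOf_eq] at hs ⊢
  rw [hio]
  exact hs

end NefMod
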