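import Pool.Agent.Helper729.NF.Defs
import Pool.Agent.Helper729.NF.P_H0
import Pool.Agent.Helper729.NF.P_H1

set_option autoImplicit false

open Polynomial

namespace NefMod



theorem H4_pow {K : Type*} [Field K] (v : Val K) {f : K} (hf : f ≠ 0) (n : ℕ) :
    v.ord (f ^ n) = n * v.ord f := by
  induction n with
  | zero =>
    have h := v.ord_mul (one_ne_zero (α := K)) one_ne_zero
    rw [mul_one] at h
    rw [pow_zero]
    push_cast
    omega
  | succ n ih =>
    rw [pow_succ, v.ord_mul (pow_ne_zero n hf) hf, ih]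
    push_cast
    ring

theorem H4_mo {K ι : Type*} [Field K] [Finite ι] (v : Val K) (x : ι → K) (n : ℕ) (hn : n ≠ 0)
    (hx : ∃ i, x i ≠ 0) : moV v (fun i => x i ^ n) = n * moV v x := by
  have hy : ∃ i, (fun i => x i ^ n) i ≠ 0 := by
    obtain ⟨i, hi⟩ := hx
    exact ⟨i, pow_ne_zero n hi⟩
  obtain ⟨hA, ⟨j0, hj0, hB⟩, -⟩ := H0 v x hx
  obtain ⟨hA', -, hC'⟩ := H0 v (fun i => x i ^ n) hy
  apply le_antisymm
  · rcases hA' j0 with h | h
    · exact absurd h (pow_ne_zero n hj0)
    · change moV v (fun i => x i ^ n) ≤ v.ord (x j0 ^ n) at h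
      rw [H4_pow v hj0, hB] at h
      exact h
  · apply hC'
    intro i
    by_cases hi : x i = 0
    · left
      change x i ^ n = 0
      rw [hi, zero_pow hn]
    · right
      change n * moV v x ≤ v.ord (x i ^ n)
      rw [H4_pow v hi]
      rcases hA i with h | h
      · exact absurd h hi
      · exact mul_le_mul_of_nonneg_left h (by positivity)

theorem H4 {K ι : Type*} [Field K] [Finite ι] (S : PS K) (x : ι → K) (n : ℕ) (hn : n ≠ 0)
    (hx : ∃ i, x i ≠ 0) : S.ht (fun i => x i ^ n) = n * S.ht x := by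
  unfold PS.ht
  have hfin : (Function.support (fun i : S.I => - moV (S.v i) x)).Finite := by
    refine (H1 S x hx).subset ?_
    intro i hi
    rw [Function.mem_support] at hi
    intro h
    apply hi
    rw [h, neg_zero]
  rw [mul_finsum]
  apply finsum_congr
  intro i
  rw [H4_mo (S.v i) x n hn hx]
  ring

end NefMod
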