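import Pool.Agent.Helper729.NF.Defs
import Pool.Agent.Helper729.NF.P_H0
import Pool.Agent.Helper729.NF.P_H1

set_option autoImplicit false

open Polynomial

namespace NefMod



theorem H9 {K ι₁ ι₂ ι₃ ι₄ : Type*} [Field K] [Finite ι₁] [Finite ι₂] [Finite ι₃] [Finite ι₄]
    (S : PS K) (x : ι₁ → K) (y : ι₂ → K) (z : ι₃ → K) (w : ι₄ → K) (hx : ∃ i, x i ≠ 0)
    (hy : ∃ i, y i ≠ 0) (hz : ∃ i, z i ≠ 0) (hw : ∃ i, w i ≠ 0) (α β γ ε : ℤ) (u : K) (hu : u ≠ 0)
    (h : ∀ i, α * moV (S.v i) x + β * moV (S.v i) y + γ * moV (S.v i) z + (S.v i).ord u ≤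
      ε * moV (S.v i) w) : ε * S.ht w ≤ α * S.ht x + β * S.ht y + γ * S.ht z := by
  classical
  have fx := H1 S x hx
  have fy := H1 S y hy
  have fz := H1 S z hz
  have fw := H1 S w hw
  have fu := S.fin u hu
  set T : Finset S.I := fx.toFinset ∪ fy.toFinset ∪ fz.toFinset ∪ fw.toFinset ∪ fu.toFinset with hT
  have key : ∀ f : S.I → ℤ, (∀ i, f i ≠ 0 → i ∈ T) → ∑ᶠ i, f i = ∑ i ∈ T, f i := by
    intro f hf
    apply finsum_eq_sum_of_support_subset
    intro i hi
    exact hf i hi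
  have ex : S.ht x = ∑ i ∈ T, - moV (S.v i) x := by
    apply key
    intro i hi
    have : moV (S.v i) x ≠ 0 := by intro h0; apply hi; simp [h0]
    simp only [hT, Finset.mem_union, Set.Finite.mem_toFinset, Set.mem_setOf_eq]
    tauto
  have ey : S.ht y = ∑ i ∈ T, - moV (S.v i) y := by
    apply key
    intro i hi
    have : moV (S.v i) y ≠ 0 := by intro h0; apply hi; simp [h0]
    simp only [hT, Finset.mem_union, Set.Finite.mem_toFinset, Set.mem_setOf_eq]
    tauto
  have ez : S.ht z = ∑ i ∈ T, - moV (S.v i) z := by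
    apply key
    intro i hi
    have : moV (S.v i) z ≠ 0 := by intro h0; apply hi; simp [h0]
    simp only [hT, Finset.mem_union, Set.Finite.mem_toFinset, Set.mem_setOf_eq]
    tauto
  have ew : S.ht w = ∑ i ∈ T, - moV (S.v i) w := by
    apply key
    intro i hi
    have : moV (S.v i) w ≠ 0 := by intro h0; apply hi; simp [h0]
    simp only [hT, Finset.mem_union, Set.Finite.mem_toFinset, Set.mem_setOf_eq]
    tauto
  have eu : ∑ i ∈ T, (S.v i).ord u = 0 := by
    rw [← S.prod u hu]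
    symm
    apply key
    intro i hi
    simp only [hT, Finset.mem_union, Set.Finite.mem_toFinset, Set.mem_setOf_eq]
    tauto
  have hs := Finset.sum_le_sum (fun i (_ : i ∈ T) => h i)
  rw [Finset.sum_add_distrib, Finset.sum_add_distrib, Finset.sum_add_distrib, eu,
    ← Finset.mul_sum, ← Finset.mul_sum, ← Finset.mul_sum, ← Finset.mul_sum] at hs
  rw [ex, ey, ez, ew, Finset.sum_neg_distrib, Finset.sum_neg_distrib, Finset.sum_neg_distrib,
    Finset.sum_neg_distrib]
  linarith

end NefMod
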