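import Pool.Agent.Helper729.NF.Defs

set_option autoImplicit false

open Polynomial

namespace NefMod



theorem N0_choose {K : Type*} [Field K] (p : ℕ) [hp : Fact p.Prime] [CharP K p] (n : ℕ) :
    ((n.choose (p - 1) : ℕ) : K) = if n % p = p - 1 then 1 else 0 := by
  have hp1 : 1 < p := hp.out.one_lt
  have h1 := Choose.choose_modEq_choose_mod_mul_choose_div_nat (p := p) (n := n) (k := p - 1)
  have h2 : (p - 1) % p = p - 1 := Nat.mod_eq_of_lt (by omega)
  have h3 : (p - 1) / p = 0 := Nat.div_eq_of_lt (by omega)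
  rw [h2, h3, Nat.choose_zero_right, mul_one] at h1
  have h4 : ((n.choose (p - 1) : ℕ) : K) = (((n % p).choose (p - 1) : ℕ) : K) :=
    (CharP.cast_eq_iff_mod_eq K p).2 h1
  rw [h4]
  have h5 : n % p < p := Nat.mod_lt _ (by omega)
  split_ifs with h
  · rw [h, Nat.choose_self]; simp
  · rw [Nat.choose_eq_zero_of_lt (by omega)]; simp

theorem N0 {K : Type*} [Field K] (p : ℕ) [Fact p.Prime] [CharP K p] (F : K[X])
    (hF : F.natDegree < 4 * p) (c : K) :
    (F.comp (X + C c)).coeff (p - 1) =
      F.coeff (p - 1) + F.coeff (2 * p - 1) * c ^ p + F.coeff (3 * p - 1) * c ^ (2 * p)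
        + F.coeff (4 * p - 1) * c ^ (3 * p) := by
  have hp1 : 1 < p := (Fact.out : p.Prime).one_lt
  have h1 : F.comp (X + C c) = taylor c F := rfl
  rw [h1, taylor_coeff, hasseDeriv_apply, Polynomial.sum_def, Polynomial.eval_finsetSum]
  have h2 : ∀ n ∈ F.support, (monomial (n - (p - 1)) ((n.choose (p - 1) : ℕ) * F.coeff n)).eval c =
      (if n % p = p - 1 then 1 else 0) * F.coeff n * c ^ (n - (p - 1)) := by
    intro n _
    rw [eval_monomial, N0_choose]
  rw [Finset.sum_congr rfl h2]
  have h3 : F.support ⊆ Finset.range (4 * p) := by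
    intro n hn
    rw [Finset.mem_range]
    exact lt_of_le_of_lt (le_natDegree_of_mem_supp n hn) hF
  rw [Finset.sum_subset h3 (fun n _ hn => by rw [notMem_support_iff.1 hn]; ring)]
  have h4 : ({p - 1, 2 * p - 1, 3 * p - 1, 4 * p - 1} : Finset ℕ) ⊆ Finset.range (4 * p) := by
    intro n hn
    simp only [Finset.mem_insert, Finset.mem_singleton] at hn
    rw [Finset.mem_range]
    omega
  rw [← Finset.sum_subset h4]
  · rw [Finset.sum_insert, Finset.sum_insert, Finset.sum_insert, Finset.sum_singleton]
    · have m1 : (p - 1) % p = p - 1 := Nat.mod_eq_of_lt (by omega)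
      have m2 : (2 * p - 1) % p = p - 1 := by
        have : 2 * p - 1 = (p - 1) + p * 1 := by omega
        rw [this, Nat.add_mul_mod_self_left, m1]
      have m3 : (3 * p - 1) % p = p - 1 := by
        have : 3 * p - 1 = (p - 1) + p * 2 := by omega
        rw [this, Nat.add_mul_mod_self_left, m1]
      have m4 : (4 * p - 1) % p = p - 1 := by
        have : 4 * p - 1 = (p - 1) + p * 3 := by omega
        rw [this, Nat.add_mul_mod_self_left, m1]
      rw [if_pos m1, if_pos m2, if_pos m3, if_pos m4]
      have e1 : p - 1 - (p - 1) = 0 := by omega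
      have e2 : 2 * p - 1 - (p - 1) = p := by omega
      have e3 : 3 * p - 1 - (p - 1) = 2 * p := by omega
      have e4 : 4 * p - 1 - (p - 1) = 3 * p := by omega
      rw [e1, e2, e3, e4]
      ring
    · simp only [Finset.mem_singleton]; omega
    · simp only [Finset.mem_insert, Finset.mem_singleton]; omega
    · simp only [Finset.mem_insert, Finset.mem_singleton]; omega
  · intro n hn hn2
    rw [if_neg]
    · ring
    · intro hmod
      apply hn2
      rw [Finset.mem_range] at hn
      have hd := Nat.div_add_mod n p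
      have hq : n / p < 4 := by
        rw [Nat.div_lt_iff_lt_mul (by omega)]
        linarith
      simp only [Finset.mem_insert, Finset.mem_singleton]
      obtain ⟨k, hk⟩ : ∃ k, k = n / p := ⟨_, rfl⟩
      rw [← hk] at hd hq
      have : k = 0 ∨ k = 1 ∨ k = 2 ∨ k = 3 := by omega
      rcases this with rfl | rfl | rfl | rfl <;> omega

end NefMod
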