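import Pool.Agent.Helper729.NF.Defs
import Pool.Agent.Helper729.NF.P_N0

set_option autoImplicit false

open Polynomial

namespace NefMod



section N10aux
variable {K : Type*} [Field K] (v : Val K)

theorem N10_ord_one : v.ord 1 = 0 := by
  have := v.ord_mul (f := (1 : K)) (g := 1) one_ne_zero one_ne_zero
  rw [mul_one] at this
  omega

theorem N10_ord_neg_one : v.ord (-1) = 0 := by
  have := v.ord_mul (f := (-1 : K)) (g := -1) (neg_ne_zero.mpr one_ne_zero)
    (neg_ne_zero.mpr one_ne_zero)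
  rw [neg_mul_neg, mul_one, N10_ord_one] at this
  omega

theorem N10_ord_neg (x : K) : v.ord (-x) = v.ord x := by
  by_cases hx : x = 0
  · rw [hx, neg_zero]
  · have := v.ord_mul (f := (-1 : K)) (g := x) (neg_ne_zero.mpr one_ne_zero) hx
    rw [N10_ord_neg_one, zero_add, neg_one_mul] at this
    exact this

theorem N10_ge_add {n : ℤ} {f g : K} (hf : v.Ge n f) (hg : v.Ge n g) : v.Ge n (f + g) := by
  by_cases h0 : f + g = 0
  · exact Or.inl h0
  rcases hf with rfl | hf
  · rw [zero_add]; exact hg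
  rcases hg with rfl | hg
  · rw [add_zero]; exact Or.inr hf
  by_cases hf0 : f = 0
  · subst hf0; rw [zero_add]; exact Or.inr hg
  by_cases hg0 : g = 0
  · subst hg0; rw [add_zero]; exact Or.inr hf
  exact Or.inr (le_trans (le_min hf hg) (v.ord_add hf0 hg0 h0))

theorem N10_ge_neg {n : ℤ} {f : K} (hf : v.Ge n f) : v.Ge n (-f) := by
  rcases hf with rfl | hf
  · left; simp
  · right; rw [N10_ord_neg]; exact hf

theorem N10_ge_mul {n m : ℤ} {f g : K} (hf : v.Ge n f) (hg : v.Ge m g) :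
    v.Ge (n + m) (f * g) := by
  by_cases hf0 : f = 0
  · left; simp [hf0]
  by_cases hg0 : g = 0
  · left; simp [hg0]
  right
  rw [v.ord_mul hf0 hg0]
  rcases hf with h | hf
  · exact absurd h hf0
  rcases hg with h | hg
  · exact absurd h hg0
  omega

theorem N10_ge_mono {n m : ℤ} {f : K} (h : m ≤ n) (hf : v.Ge n f) : v.Ge m f := by
  rcases hf with hf | hf
  · exact Or.inl hf
  · exact Or.inr (le_trans h hf)

theorem N10_ge_sum {ι : Type*} (s : Finset ι) {n : ℤ} (f : ι → K) (h : ∀ i ∈ s, v.Ge n (f i)) :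
    v.Ge n (∑ i ∈ s, f i) := by
  classical
  induction s using Finset.induction_on with
  | empty => left; simp
  | insert a s ha ih =>
    rw [Finset.sum_insert ha]
    exact N10_ge_add v (h a (Finset.mem_insert_self _ _))
      (ih fun i hi => h i (Finset.mem_insert_of_mem hi))

/-- homogeneity of the coefficients -/
def N10_H (n : ℕ) (m : ℤ) (P : K[X]) : Prop := ∀ d : ℕ, v.Ge (((n : ℤ) - d) * m) (P.coeff d)

theorem N10_H_mul {n n' : ℕ} {m : ℤ} {P Q : K[X]} (hP : N10_H v n m P) (hQ : N10_H v n' m Q) :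
    N10_H v (n + n') m (P * Q) := by
  intro d
  rw [Polynomial.coeff_mul]
  refine N10_ge_sum v _ _ fun x hx => ?_
  rw [Finset.HasAntidiagonal.mem_antidiagonal] at hx
  refine N10_ge_mono v (le_of_eq ?_) (N10_ge_mul v (hP x.1) (hQ x.2))
  rw [← hx]
  push_cast
  ring

theorem N10_H_one (m : ℤ) : N10_H v 0 m (1 : K[X]) := by
  intro d
  rcases Nat.eq_zero_or_pos d with rfl | hd
  · right; rw [Polynomial.coeff_one_zero, N10_ord_one]; simp
  · left; rw [Polynomial.coeff_one, if_neg hd.ne']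

theorem N10_H_pow {n : ℕ} {m : ℤ} {P : K[X]} (hP : N10_H v n m P) (r : ℕ) :
    N10_H v (r * n) m (P ^ r) := by
  induction r with
  | zero => rw [pow_zero, zero_mul]; exact N10_H_one v m
  | succ r ih => rw [pow_succ, Nat.succ_mul]; exact N10_H_mul v ih hP

theorem N10_H_lin {m : ℤ} {b : K} (hb : v.Ge m b) : N10_H v 1 m (X + C b) := by
  intro d
  rcases d with _ | _ | d
  · simpa using hb
  · right; simp [N10_ord_one]
  · left
    rw [Polynomial.coeff_add, Polynomial.coeff_X, Polynomial.coeff_C]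
    simp

theorem N10_ord_pow {x : K} (hx : x ≠ 0) (n : ℕ) : v.ord (x ^ n) = n * v.ord x := by
  induction n with
  | zero => simp [N10_ord_one]
  | succ n ih =>
    rw [pow_succ, v.ord_mul (pow_ne_zero _ hx) hx, ih]
    push_cast
    ring

end N10aux

theorem N10 {K : Type*} [Field K] (p r : ℕ) [Fact p.Prime] [CharP K p] (hp : p = 3 * r + 1)
    (hr : 1 ≤ r) (v : Val K) (c : Cub K) (hc : (fP c.a ^ r).coeff (p - 1) = 0) (μ : ℤ)
    (hμ : ∀ i l, i ≠ l → μ ≤ v.ord (c.z i l)) (hμ' : ∃ i l, i ≠ l ∧ v.ord (c.z i l) = μ)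
    (σ : S4) : v.ord (c.z (σ 1) (σ 2)) = μ ∨ v.ord (c.z (σ 2) (σ 3)) = μ ∨
      v.ord (c.z (σ 3) (σ 1)) = μ := by
  classical
  by_contra hcon
  push Not at hcon
  obtain ⟨h12, h23, h31⟩ := hcon
  -- basic facts
  have hne : ∀ s t : Fin 4, s ≠ t → c.a s - c.a t ≠ 0 := fun s t h =>
    sub_ne_zero.mpr fun h' => h (c.inj h')
  have hz : ∀ s t : Fin 4, s ≠ t → c.z s t ≠ 0 := by
    intro s t h h0
    have := c.cube s t
    rw [h0] at this
    exact hne s t h (by rw [← this]; ring)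
  have hord3 : ∀ s t : Fin 4, s ≠ t → v.ord (c.a s - c.a t) = 3 * v.ord (c.z s t) := by
    intro s t h
    rw [← c.cube s t, N10_ord_pow v (hz s t h)]
    norm_num
  have hsymm : ∀ s t : Fin 4, v.ord (c.z t s) = v.ord (c.z s t) := by
    intro s t
    rw [c.anti s t, N10_ord_neg]
  have hσ : ∀ s t : Fin 4, s ≠ t → σ s ≠ σ t := fun s t h h' => h (σ.injective h')
  have g12 : μ + 1 ≤ v.ord (c.z (σ 1) (σ 2)) := by
    have := hμ _ _ (hσ 1 2 (by decide)); omega
  have g23 : μ + 1 ≤ v.ord (c.z (σ 2) (σ 3)) := by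
    have := hμ _ _ (hσ 2 3 (by decide)); omega
  have g31 : μ + 1 ≤ v.ord (c.z (σ 3) (σ 1)) := by
    have := hμ _ _ (hσ 3 1 (by decide)); omega
  -- transfer
  have htrans : ∀ s t w : Fin 4, s ≠ t → t ≠ w → s ≠ w → μ + 1 ≤ v.ord (c.z s t) →
      μ + 1 ≤ v.ord (c.z t w) → μ + 1 ≤ v.ord (c.z s w) := by
    intro s t w h1 h2 h3 h4 h5
    have h6 : v.Ge (3 * (μ + 1)) (c.a s - c.a t) := Or.inr (by rw [hord3 s t h1]; omega)
    have h7 : v.Ge (3 * (μ + 1)) (c.a t - c.a w) := Or.inr (by rw [hord3 t w h2]; omega)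
    have h8 := N10_ge_add v h6 h7
    have h9 : c.a s - c.a t + (c.a t - c.a w) = c.a s - c.a w := by ring
    rw [h9] at h8
    rcases h8 with h8 | h8
    · exact absurd h8 (hne s w h3)
    · rw [hord3 s w h3] at h8; omega
  have h10 : v.ord (c.z (σ 1) (σ 0)) = μ := by
    by_contra hcon
    have g10 : μ + 1 ≤ v.ord (c.z (σ 1) (σ 0)) := by
      have := hμ _ _ (hσ 1 0 (by decide)); omega
    have g21 : μ + 1 ≤ v.ord (c.z (σ 2) (σ 1)) := by rw [hsymm]; exact g12
    have g20 : μ + 1 ≤ v.ord (c.z (σ 2) (σ 0)) :=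
      htrans _ _ _ (hσ 2 1 (by decide)) (hσ 1 0 (by decide)) (hσ 2 0 (by decide)) g21 g10
    have g30 : μ + 1 ≤ v.ord (c.z (σ 3) (σ 0)) :=
      htrans _ _ _ (hσ 3 1 (by decide)) (hσ 1 0 (by decide)) (hσ 3 0 (by decide)) g31 g10
    obtain ⟨i, l, hil, he⟩ := hμ'
    obtain ⟨s, rfl⟩ := σ.surjective i
    obtain ⟨t, rfl⟩ := σ.surjective l
    have hst : s ≠ t := fun h => hil (by rw [h])
    have e01 := hsymm (σ 1) (σ 0)
    have e02 := hsymm (σ 2) (σ 0)
    have e03 := hsymm (σ 3) (σ 0)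
    have e32 := hsymm (σ 2) (σ 3)
    have e13 := hsymm (σ 3) (σ 1)
    fin_cases s <;> fin_cases t <;> simp only [Fin.zero_eta, Fin.mk_one, Fin.reduceFinMk] at he hst <;>
      first | exact hst rfl | omega
  -- the polynomial
  set bi := c.a (σ 1) - c.a (σ 0) with hbi
  set bk := c.a (σ 1) - c.a (σ 2) with hbk
  set bl := c.a (σ 1) - c.a (σ 3) with hbl
  have hordi : v.ord bi = 3 * μ := by rw [hbi, hord3 _ _ (hσ 1 0 (by decide)), h10]
  have hbi0 : bi ≠ 0 := hne _ _ (hσ 1 0 (by decide))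
  have gi : v.Ge (3 * μ) bi := Or.inr hordi.ge
  have gk : v.Ge (3 * μ + 1) bk := Or.inr (by
    rw [hbk, hord3 _ _ (hσ 1 2 (by decide))]; omega)
  have gl : v.Ge (3 * μ + 1) bl := Or.inr (by
    rw [hbl, hord3 _ _ (hσ 1 3 (by decide)), hsymm (σ 3) (σ 1)]; omega)
  have hfP : fP c.a = (X - C (c.a (σ 0))) * (X - C (c.a (σ 1))) * (X - C (c.a (σ 2))) *
      (X - C (c.a (σ 3))) := by
    unfold fP
    rw [← Equiv.prod_comp σ, Fin.prod_univ_four]
  have hdeg : (fP c.a).natDegree ≤ 4 := by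
    rw [hfP]
    compute_degree
  have hdegr : (fP c.a ^ r).natDegree ≤ 4 * r := by
    refine le_trans Polynomial.natDegree_pow_le ?_
    rw [mul_comm]
    exact Nat.mul_le_mul_right r hdeg
  have hcomp : ((fP c.a ^ r).comp (X + C (c.a (σ 1)))).coeff (p - 1) = 0 := by
    rw [N0 p (fP c.a ^ r) (by omega) (c.a (σ 1)), hc,
      Polynomial.coeff_eq_zero_of_natDegree_lt (by omega),
      Polynomial.coeff_eq_zero_of_natDegree_lt (by omega),
      Polynomial.coeff_eq_zero_of_natDegree_lt (by omega)]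
    ring
  have hcomp2 : (fP c.a ^ r).comp (X + C (c.a (σ 1))) =
      X ^ r * ((X + C bi) ^ r * ((X + C bk) * (X + C bl)) ^ r) := by
    rw [Polynomial.pow_comp, hfP]
    simp only [Polynomial.mul_comp, Polynomial.sub_comp, Polynomial.X_comp, Polynomial.C_comp]
    rw [← mul_pow, ← mul_pow]
    congr 1
    rw [hbi, hbk, hbl]
    simp only [Polynomial.C_sub]
    ring
  have hp1 : p - 1 = 2 * r + r := by omega
  rw [hcomp2, hp1, Polynomial.coeff_X_pow_mul] at hcomp
  have H1 : N10_H v r (3 * μ) ((X + C bi) ^ r) := by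
    have := N10_H_pow v (N10_H_lin v gi) r
    rwa [mul_one] at this
  have H2 : N10_H v (r * 2) (3 * μ + 1) (((X + C bk) * (X + C bl)) ^ r) :=
    N10_H_pow v (N10_H_mul v (N10_H_lin v gk) (N10_H_lin v gl)) r
  rw [Polynomial.coeff_mul] at hcomp
  have hmem : ((0, 2 * r) : ℕ × ℕ) ∈ Finset.HasAntidiagonal.antidiagonal (2 * r) := by
    rw [Finset.HasAntidiagonal.mem_antidiagonal]; simp
  rw [← Finset.add_sum_erase _ _ hmem] at hcomp
  have hlead : (((X + C bk) * (X + C bl)) ^ r).coeff (2 * r) = 1 := by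
    have hm : (((X + C bk) * (X + C bl)) ^ r).Monic :=
      ((Polynomial.monic_X_add_C bk).mul (Polynomial.monic_X_add_C bl)).pow r
    have hd : (((X + C bk) * (X + C bl)) ^ r).natDegree = 2 * r := by
      rw [((Polynomial.monic_X_add_C bk).mul (Polynomial.monic_X_add_C bl)).natDegree_pow,
        (Polynomial.monic_X_add_C bk).natDegree_mul (Polynomial.monic_X_add_C bl),
        Polynomial.natDegree_X_add_C, Polynomial.natDegree_X_add_C]
      ring
    have := hm.coeff_natDegree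
    rwa [hd] at this
  have h0c : ((X + C bi) ^ r).coeff 0 = bi ^ r := by
    rw [Polynomial.coeff_zero_eq_eval_zero]
    simp
  have hrest : v.Ge (3 * r * μ + 1) (∑ x ∈ (Finset.HasAntidiagonal.antidiagonal (2 * r)).erase (0, 2 * r),
      ((X + C bi) ^ r).coeff x.1 * (((X + C bk) * (X + C bl)) ^ r).coeff x.2) := by
    refine N10_ge_sum v _ _ fun x hx => ?_
    rw [Finset.mem_erase, Finset.HasAntidiagonal.mem_antidiagonal] at hx
    obtain ⟨hx1, hx2⟩ := hx
    have hx3 : 1 ≤ x.1 := by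
      rcases Nat.eq_zero_or_pos x.1 with h | h
      · exfalso
        apply hx1
        ext
        · exact h
        · simp only; omega
      · exact h
    refine N10_ge_mono v ?_ (N10_ge_mul v (H1 x.1) (H2 x.2))
    have h5 : (x.2 : ℤ) = 2 * r - x.1 := by
      have : ((x.1 + x.2 : ℕ) : ℤ) = ((2 * r : ℕ) : ℤ) := by rw [hx2]
      push_cast at this
      linarith
    push_cast
    rw [h5]
    have h6 : (1 : ℤ) ≤ x.1 := by exact_mod_cast hx3
    nlinarith
  simp only at hcomp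
  rw [h0c, hlead, mul_one] at hcomp
  have hb : bi ^ r = -(∑ x ∈ (Finset.HasAntidiagonal.antidiagonal (2 * r)).erase (0, 2 * r),
      ((X + C bi) ^ r).coeff x.1 * (((X + C bk) * (X + C bl)) ^ r).coeff x.2) :=
    eq_neg_of_add_eq_zero_left hcomp
  have hfin := N10_ge_neg v hrest
  rw [← hb] at hfin
  rcases hfin with h | h
  · exact pow_ne_zero r hbi0 h
  · rw [N10_ord_pow v hbi0, hordi] at h
    nlinarith

end NefMod
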