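import Pool.Agent.Helper729.NF.Defs

set_option autoImplicit false

open Polynomial

namespace NefMod



theorem N12_ord_one {K : Type*} [Field K] (v : Val K) : v.ord (1 : K) = 0 := by
  have h := v.ord_mul (one_ne_zero : (1:K) ≠ 0) (one_ne_zero : (1:K) ≠ 0)
  rw [mul_one] at h
  omega

theorem N12_ord_neg {K : Type*} [Field K] (v : Val K) (x : K) (hx : x ≠ 0) :
    v.ord (-x) = v.ord x := by
  have h1 : (-1 : K) ≠ 0 := neg_ne_zero.2 one_ne_zero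
  have h2 := v.ord_mul h1 h1
  have h3 : (-1 : K) * (-1) = 1 := by ring
  rw [h3, N12_ord_one] at h2
  have h4 := v.ord_mul h1 hx
  rw [neg_one_mul] at h4
  omega

theorem N12_zne {K : Type*} [Field K] (c : Cub K) (i j : Fin 4) (h : i ≠ j) : c.z i j ≠ 0 := by
  intro h0
  have h1 := c.cube i j
  rw [h0] at h1
  have h2 : c.a i = c.a j := by
    have : c.a i - c.a j = 0 := by rw [← h1]; ring
    exact sub_eq_zero.1 this
  exact h (c.inj h2)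

theorem N12_sym {K : Type*} [Field K] (v : Val K) (c : Cub K) (i j : Fin 4) (h : i ≠ j) :
    v.ord (c.z j i) = v.ord (c.z i j) := by
  rw [c.anti i j, N12_ord_neg v _ (N12_zne c i j h)]

theorem N12_cub {K : Type*} [Field K] (v : Val K) (x : K) (hx : x ≠ 0) :
    v.ord (x ^ 3) = 3 * v.ord x := by
  have h1 : x ^ 3 = x * (x * x) := by ring
  rw [h1, v.ord_mul hx (mul_ne_zero hx hx), v.ord_mul hx hx]
  ring

theorem N12_tri {K : Type*} [Field K] (v : Val K) (c : Cub K) (μ : ℤ) (i j k : Fin 4)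
    (hij : i ≠ j) (hjk : j ≠ k) (hki : k ≠ i) :
    ¬ (v.ord (c.z i j) = μ ∧ μ < v.ord (c.z j k) ∧ μ < v.ord (c.z k i)) := by
  rintro ⟨h1, h2, h3⟩
  have e1 := N12_zne c i j hij
  have e2 := N12_zne c j k hjk
  have e3 := N12_zne c k i hki
  have hs : c.z j k ^ 3 + c.z k i ^ 3 = - (c.z i j ^ 3) := by
    rw [c.cube, c.cube, c.cube]; ring
  have h4 := v.ord_add (pow_ne_zero 3 e2) (pow_ne_zero 3 e3)
    (by rw [hs]; exact neg_ne_zero.2 (pow_ne_zero 3 e1))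
  rw [hs, N12_ord_neg v _ (pow_ne_zero 3 e1), N12_cub v _ e1, N12_cub v _ e2, N12_cub v _ e3] at h4
  rcases min_le_iff.1 h4 with h | h <;> omega

theorem N12_two (x y z μ : ℤ) (hx : μ ≤ x) (hy : μ ≤ y) (hz : μ ≤ z)
    (t : x = μ ∨ y = μ ∨ z = μ) (r1 : ¬ (x = μ ∧ μ < y ∧ μ < z))
    (r2 : ¬ (y = μ ∧ μ < z ∧ μ < x)) (r3 : ¬ (z = μ ∧ μ < x ∧ μ < y)) :
    (x = μ ∨ y = μ) ∧ (y = μ ∨ z = μ) ∧ (x = μ ∨ z = μ) := by
  omega

theorem N12_logic (p01 p02 p03 p12 p13 p23 : Prop)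
    (u1 : (p12 ∨ p23) ∧ (p23 ∨ p13) ∧ (p12 ∨ p13))
    (u2 : (p02 ∨ p23) ∧ (p23 ∨ p03) ∧ (p02 ∨ p03))
    (u3 : (p01 ∨ p03) ∧ (p03 ∨ p13) ∧ (p01 ∨ p13))
    (u4 : (p12 ∨ p02) ∧ (p02 ∨ p01) ∧ (p12 ∨ p01)) :
    (p01 ∧ p23) ∨ (p02 ∧ p13) ∨ (p03 ∧ p12) := by
  by_cases h1 : p01 <;> by_cases h2 : p02 <;> by_cases h3 : p03 <;> by_cases h4 : p12 <;>
    by_cases h5 : p13 <;> by_cases h6 : p23 <;> simp_all

theorem N12 {K : Type*} [Field K] (v : Val K) (c : Cub K) (μ : ℤ)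
    (hμ : ∀ i l, i ≠ l → μ ≤ v.ord (c.z i l))
    (hnc : ∀ σ : S4, v.ord (c.z (σ 1) (σ 2)) = μ ∨ v.ord (c.z (σ 2) (σ 3)) = μ ∨
      v.ord (c.z (σ 3) (σ 1)) = μ) : ∃ σ : S4, v.ord (zt c σ) = 3 * μ := by
  have key : ∀ σ : S4, v.ord (c.z (σ 0) (σ 1)) = μ → v.ord (c.z (σ 2) (σ 3)) = μ →
      v.ord (zt c σ) = 3 * μ := by
    intro σ h1 h2
    have e1 : c.z (σ 0) (σ 1) ≠ 0 := N12_zne c _ _ (fun h => by simpa using σ.injective h)
    have e2 : c.z (σ 2) (σ 3) ≠ 0 := N12_zne c _ _ (fun h => by simpa using σ.injective h)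
    unfold zt
    rw [v.ord_mul (pow_ne_zero 2 e1) e2, pow_two, v.ord_mul e1 e1, h1, h2]
    ring
  have s01 := N12_sym v c 0 1 (by decide)
  have s02 := N12_sym v c 0 2 (by decide)
  have s03 := N12_sym v c 0 3 (by decide)
  have s12 := N12_sym v c 1 2 (by decide)
  have s13 := N12_sym v c 1 3 (by decide)
  have s23 := N12_sym v c 2 3 (by decide)
  -- triples
  have t123 := hnc 1
  have t023 := hnc (Equiv.swap 0 1)
  have t013 := hnc (Equiv.swap 0 2)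
  have t012 := hnc (Equiv.swap 0 3)
  have q1 : (Equiv.swap (0:Fin 4) 1) 1 = 0 ∧ (Equiv.swap (0:Fin 4) 1) 2 = 2 ∧
    (Equiv.swap (0:Fin 4) 1) 3 = 3 := by decide
  have q2 : (Equiv.swap (0:Fin 4) 2) 1 = 1 ∧ (Equiv.swap (0:Fin 4) 2) 2 = 0 ∧
    (Equiv.swap (0:Fin 4) 2) 3 = 3 := by decide
  have q3 : (Equiv.swap (0:Fin 4) 3) 1 = 1 ∧ (Equiv.swap (0:Fin 4) 3) 2 = 2 ∧
    (Equiv.swap (0:Fin 4) 3) 3 = 0 := by decide
  rw [q1.1, q1.2.1, q1.2.2] at t023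
  rw [q2.1, q2.2.1, q2.2.2] at t013
  rw [q3.1, q3.2.1, q3.2.2] at t012
  simp only [Equiv.Perm.coe_one, id_eq] at t123
  -- relation
  have u1 := N12_two _ _ _ μ (hμ 1 2 (by decide)) (hμ 2 3 (by decide)) (hμ 3 1 (by decide)) t123
    (N12_tri v c μ 1 2 3 (by decide) (by decide) (by decide))
    (N12_tri v c μ 2 3 1 (by decide) (by decide) (by decide))
    (N12_tri v c μ 3 1 2 (by decide) (by decide) (by decide))
  have u2 := N12_two _ _ _ μ (hμ 0 2 (by decide)) (hμ 2 3 (by decide)) (hμ 3 0 (by decide)) t023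
    (N12_tri v c μ 0 2 3 (by decide) (by decide) (by decide))
    (N12_tri v c μ 2 3 0 (by decide) (by decide) (by decide))
    (N12_tri v c μ 3 0 2 (by decide) (by decide) (by decide))
  have u3 := N12_two _ _ _ μ (hμ 1 0 (by decide)) (hμ 0 3 (by decide)) (hμ 3 1 (by decide)) t013
    (N12_tri v c μ 1 0 3 (by decide) (by decide) (by decide))
    (N12_tri v c μ 0 3 1 (by decide) (by decide) (by decide))
    (N12_tri v c μ 3 1 0 (by decide) (by decide) (by decide))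
  have u4 := N12_two _ _ _ μ (hμ 1 2 (by decide)) (hμ 2 0 (by decide)) (hμ 0 1 (by decide)) t012
    (N12_tri v c μ 1 2 0 (by decide) (by decide) (by decide))
    (N12_tri v c μ 2 0 1 (by decide) (by decide) (by decide))
    (N12_tri v c μ 0 1 2 (by decide) (by decide) (by decide))
  rw [s13] at u1
  rw [s03] at u2
  rw [s01, s13] at u3
  rw [s02] at u4
  have hm : (v.ord (c.z 0 1) = μ ∧ v.ord (c.z 2 3) = μ) ∨
      (v.ord (c.z 0 2) = μ ∧ v.ord (c.z 1 3) = μ) ∨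
      (v.ord (c.z 0 3) = μ ∧ v.ord (c.z 2 1) = μ) := by
    rw [s12]
    exact N12_logic _ _ _ _ _ _ u1 u2 u3 u4
  rcases hm with h | h | h
  · exact ⟨1, key 1 h.1 h.2⟩
  · exact ⟨Equiv.swap 1 2, key (Equiv.swap 1 2) h.1 h.2⟩
  · exact ⟨Equiv.swap 1 3, key (Equiv.swap 1 3) h.1 h.2⟩

end NefMod
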