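import Pool.Agent.Helper729.NF.Defs

set_option autoImplicit false

open Polynomial

namespace NefMod



theorem N1 {K : Type*} [Field K] (p : ℕ) [Fact p.Prime] [CharP K p] (g : K[X])
    (hd : g.natDegree + 1 < 2 * p) (h0 : g.coeff (p - 1) = 0) :
    derivative (antid g) = g ∧ (antid g).natDegree ≤ g.natDegree + 1 := by
  have hp : p.Prime := Fact.out
  constructor
  · unfold antid
    rw [derivative_sum]
    conv_rhs => rw [g.as_sum_range]
    apply Finset.sum_congr rfl
    intro n hn
    rw [Finset.mem_range] at hn
    rw [derivative_monomial, Nat.add_sub_cancel]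
    congr 1
    by_cases hz : ((n + 1 : ℕ) : K) = 0
    · rw [CharP.cast_eq_zero_iff K p] at hz
      obtain ⟨k, hk⟩ := hz
      have hk1 : k = 1 := by
        have h1 : k < 2 := by
          by_contra h2
          have : 2 ≤ k := not_lt.mp h2
          nlinarith
        have h2 : k ≠ 0 := by
          rintro rfl
          omega
        omega
      have hn1 : n = p - 1 := by
        rw [hk1, mul_one] at hk
        omega
      rw [hn1, h0, zero_div, zero_mul]
    · exact div_mul_cancel₀ _ hz
  · unfold antid
    apply natDegree_sum_le_of_forall_le
    intro n hn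
    rw [Finset.mem_range] at hn
    refine (natDegree_monomial_le _).trans ?_
    omega

end NefMod
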