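import Pool.Agent.Helper729.NF.Defs
import Pool.Agent.Helper729.NF.P_N0
import Pool.Agent.Helper729.NF.P_N1

set_option autoImplicit false

open Polynomial

namespace NefMod



theorem N2_aux {K : Type*} [Field K] (p : ℕ) [hp : Fact p.Prime] [CharP K p] (D : K[X])
    (hD : derivative D = 0) (hd : D.natDegree < 2 * p) :
    D = C (D.coeff 0) + C (D.coeff p) * X ^ p := by
  have hp0 := hp.out.pos
  ext m
  rw [coeff_add, coeff_C, coeff_C_mul, coeff_X_pow]
  by_cases h0 : m = 0
  · subst h0
    rw [if_pos rfl, if_neg hp0.ne, mul_zero, add_zero]
  · rw [if_neg h0, zero_add]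
    by_cases h1 : m = p
    · subst h1
      simp
    · rw [if_neg h1, mul_zero]
      by_cases h2 : D.natDegree < m
      · exact coeff_eq_zero_of_natDegree_lt h2
      · obtain ⟨n, rfl⟩ := Nat.exists_eq_succ_of_ne_zero h0
        have h3 : (derivative D).coeff n = 0 := by rw [hD, coeff_zero]
        rw [coeff_derivative] at h3
        rcases mul_eq_zero.mp h3 with h4 | h4
        · exact h4
        · exfalso
          have h5 : ((n + 1 : ℕ) : K) = 0 := by push_cast; exact h4
          rw [CharP.cast_eq_zero_iff K p] at h5
          obtain ⟨k, hk⟩ := h5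
          have h6 : p * k < 2 * p := by
            rw [← hk]
            simp only [Nat.succ_eq_add_one] at h2
            omega
          have h7 : k < 2 := by
            by_contra hc
            push Not at hc
            nlinarith
          have h8 : k ≠ 0 := by
            rintro rfl
            simp at hk
          have h9 : k = 1 := by omega
          subst h9
          apply h1
          simp only [Nat.succ_eq_add_one]
          omega

theorem N2 {K : Type*} [Field K] (p : ℕ) [Fact p.Prime] [CharP K p] (F : K[X])
    (hd : F.natDegree + 1 < 2 * p) (h0 : F.coeff (p - 1) = 0) (c : K) :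
    ∃ α β : K, ∀ x : K, (antid F).eval x =
      (antid (F.comp (X + C c))).eval (x - c) + α + β * x ^ p := by
  have hp0 := (Fact.out : p.Prime).pos
  set F' := F.comp (X + C c) with hF'
  have hdeg : F'.natDegree = F.natDegree := by
    rw [hF', natDegree_comp, natDegree_X_add_C, mul_one]
  have h0' : F'.coeff (p - 1) = 0 := by
    rw [hF', N0 p F (by omega) c, h0, coeff_eq_zero_of_natDegree_lt (by omega),
      coeff_eq_zero_of_natDegree_lt (by omega), coeff_eq_zero_of_natDegree_lt (by omega)]
    ring
  obtain ⟨h1, h2⟩ := N1 p F hd h0
  obtain ⟨h3, h4⟩ := N1 p F' (by omega) h0'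
  have hcomp : F'.comp (X - C c) = F := by
    rw [hF', comp_assoc]
    have : (X + C c).comp (X - C c) = X := by simp
    rw [this, comp_X]
  have hD : derivative (antid F - (antid F').comp (X - C c)) = 0 := by
    rw [derivative_sub, derivative_comp, h1, h3, hcomp]
    simp
  have hdD : (antid F - (antid F').comp (X - C c)).natDegree < 2 * p := by
    have h5 : ((antid F').comp (X - C c)).natDegree = (antid F').natDegree := by
      rw [natDegree_comp, natDegree_X_sub_C, mul_one]
    have h6 := natDegree_sub_le (antid F) ((antid F').comp (X - C c))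
    have h7 : max (antid F).natDegree ((antid F').comp (X - C c)).natDegree < 2 * p := by
      rw [max_lt_iff]
      constructor <;> omega
    omega
  have hmain := N2_aux p _ hD hdD
  refine ⟨(antid F - (antid F').comp (X - C c)).coeff 0,
    (antid F - (antid F').comp (X - C c)).coeff p, ?_⟩
  intro x
  have h8 := congrArg (eval x) hmain
  rw [eval_sub, eval_comp, eval_add, eval_C, eval_mul, eval_C, eval_pow, eval_X, eval_sub, eval_X,
    eval_C] at h8
  rw [add_assoc, ← h8]
  ring

end NefMod
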