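import Pool.Agent.Helper729.NF.Defs

set_option autoImplicit false

open Polynomial

namespace NefMod



section n3aux
variable {K : Type*} [Field K]

theorem n3_one (v : Val K) : v.ord 1 = 0 := by
  have h := v.ord_mul (one_ne_zero (α := K)) (one_ne_zero (α := K))
  rw [mul_one] at h
  linarith

theorem n3_ge_zero (v : Val K) (n : ℤ) : v.Ge n 0 := Or.inl rfl

theorem n3_ge_one (v : Val K) : v.Ge 0 1 := Or.inr (n3_one v).ge

theorem n3_ge_add (v : Val K) {n : ℤ} {f g : K} (hf : v.Ge n f) (hg : v.Ge n g) :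
    v.Ge n (f + g) := by
  rcases hf with rfl | hf
  · rwa [zero_add]
  rcases hg with rfl | hg
  · rw [add_zero]; exact Or.inr hf
  by_cases hf0 : f = 0
  · rw [hf0, zero_add]; exact Or.inr hg
  by_cases hg0 : g = 0
  · rw [hg0, add_zero]; exact Or.inr hf
  by_cases h0 : f + g = 0
  · exact Or.inl h0
  · exact Or.inr ((le_min hf hg).trans (v.ord_add hf0 hg0 h0))

theorem n3_ge_mul (v : Val K) {m n : ℤ} {f g : K} (hf : v.Ge m f) (hg : v.Ge n g) :
    v.Ge (m + n) (f * g) := by
  by_cases hf0 : f = 0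
  · exact Or.inl (by rw [hf0, zero_mul])
  by_cases hg0 : g = 0
  · exact Or.inl (by rw [hg0, mul_zero])
  have hf' := hf.resolve_left hf0
  have hg' := hg.resolve_left hg0
  right
  rw [v.ord_mul hf0 hg0]
  linarith

theorem n3_ge_mono (v : Val K) {m n : ℤ} {f : K} (h : m ≤ n) (hf : v.Ge n f) : v.Ge m f := by
  rcases hf with rfl | hf
  · exact Or.inl rfl
  · exact Or.inr (h.trans hf)

theorem n3_ge_neg (v : Val K) {n : ℤ} {f : K} (hf : v.Ge n f) : v.Ge n (-f) := by
  have h1 : v.ord (-1 : K) = 0 := by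
    have h := v.ord_mul (f := (-1 : K)) (g := (-1 : K)) (by simp) (by simp)
    rw [neg_mul_neg, one_mul, n3_one] at h
    linarith
  have h2 : v.Ge 0 (-1 : K) := Or.inr h1.ge
  have h3 := n3_ge_mul v h2 hf
  rwa [zero_add, neg_one_mul] at h3

theorem n3_ge_sum (v : Val K) {ι : Type*} (s : Finset ι) (f : ι → K) (n : ℤ)
    (h : ∀ i ∈ s, v.Ge n (f i)) : v.Ge n (∑ i ∈ s, f i) := by
  classical
  induction s using Finset.induction_on with
  | empty => simp only [Finset.sum_empty]; exact n3_ge_zero v n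
  | insert a s ha ih =>
    rw [Finset.sum_insert ha]
    exact n3_ge_add v (h a (Finset.mem_insert_self a s))
      (ih (fun i hi => h i (Finset.mem_insert_of_mem hi)))

theorem n3_ge_pow (v : Val K) {n : ℤ} {f : K} (hf : v.Ge n f) (m : ℕ) :
    v.Ge (m * n) (f ^ m) := by
  induction m with
  | zero => simpa using n3_ge_one v
  | succ m ih =>
    rw [pow_succ]
    have h := n3_ge_mul v ih hf
    have e : ((m + 1 : ℕ) : ℤ) * n = (m : ℤ) * n + n := by push_cast; ring
    rw [e]
    exact h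

theorem n3_ge_nat (v : Val K) (n : ℕ) : v.Ge 0 (n : K) := by
  induction n with
  | zero => simpa using n3_ge_zero v 0
  | succ n ih =>
    rw [Nat.cast_succ]
    exact n3_ge_add v ih (n3_ge_one v)

theorem n3_ge_nat_inv (p : ℕ) [Fact p.Prime] [CharP K p] (v : Val K) (n : ℕ) :
    v.Ge 0 ((n : K)⁻¹) := by
  by_cases hn : (n : K) = 0
  · rw [hn, inv_zero]
    exact n3_ge_zero v 0
  have hp2 : 2 ≤ p := (Fact.out : p.Prime).two_le
  have hnz : (n : ZMod p) ≠ 0 := by
    intro h
    apply hn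
    have h1 : (ZMod.castHom (dvd_refl p) K) (n : ZMod p) = 0 := by rw [h, map_zero]
    rwa [map_natCast] at h1
  have h1 := ZMod.pow_card_sub_one_eq_one hnz
  have h2 : (n : K) ^ (p - 1) = 1 := by
    have h3 := congrArg (ZMod.castHom (dvd_refl p) K) h1
    rwa [map_pow, map_natCast, map_one] at h3
  have h3 : (n : K)⁻¹ = (n : K) ^ (p - 2) := by
    rw [inv_eq_iff_eq_inv]
    apply eq_inv_of_mul_eq_one_left
    rw [← pow_succ']
    have : p - 2 + 1 = p - 1 := by omega
    rw [this, h2]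
  rw [h3]
  have h4 := n3_ge_pow v (n3_ge_nat v n) (p - 2)
  rwa [mul_zero] at h4

/-- Gauss norm with radius `|d|` -/
def GN (v : Val K) (d : K) (A : ℤ) (P : K[X]) : Prop := ∀ N, v.Ge A (P.coeff N * d ^ N)

theorem n3_gn_mul (v : Val K) (d : K) {A B : ℤ} {P Q : K[X]} (hP : GN v d A P) (hQ : GN v d B Q) :
    GN v d (A + B) (P * Q) := by
  intro N
  rw [coeff_mul, Finset.sum_mul]
  apply n3_ge_sum
  rintro ⟨i, j⟩ hij
  rw [Finset.HasAntidiagonal.mem_antidiagonal] at hij
  simp only at hij ⊢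
  have e : P.coeff i * Q.coeff j * d ^ N = (P.coeff i * d ^ i) * (Q.coeff j * d ^ j) := by
    rw [← hij, pow_add]; ring
  rw [e]
  exact n3_ge_mul v (hP i) (hQ j)

theorem n3_gn_one (v : Val K) (d : K) : GN v d 0 1 := by
  intro N
  rw [coeff_one]
  split_ifs with h
  · rw [h, pow_zero, one_mul]
    exact n3_ge_one v
  · rw [zero_mul]
    exact n3_ge_zero v 0

theorem n3_gn_pow (v : Val K) (d : K) {A : ℤ} {P : K[X]} (hP : GN v d A P) (m : ℕ) :
    GN v d (m * A) (P ^ m) := by
  induction m with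
  | zero => simpa using n3_gn_one v d
  | succ m ih =>
    rw [pow_succ]
    have h := n3_gn_mul v d ih hP
    have e : ((m + 1 : ℕ) : ℤ) * A = (m : ℤ) * A + A := by push_cast; ring
    rw [e]
    exact h

theorem n3_gn_prod (v : Val K) (d : K) {ι : Type*} (s : Finset ι) (A : ι → ℤ) (P : ι → K[X])
    (h : ∀ i ∈ s, GN v d (A i) (P i)) : GN v d (∑ i ∈ s, A i) (∏ i ∈ s, P i) := by
  classical
  induction s using Finset.induction_on with
  | empty => simpa using n3_gn_one v d
  | insert a s ha ih =>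
    rw [Finset.sum_insert ha, Finset.prod_insert ha]
    exact n3_gn_mul v d (h a (Finset.mem_insert_self a s))
      (ih (fun i hi => h i (Finset.mem_insert_of_mem hi)))

theorem n3_gn_lin (v : Val K) (d : K) {A : ℤ} {α β : K} (hα : v.Ge A α) (hβ : v.Ge A (β * d)) :
    GN v d A (C α + C β * X) := by
  intro N
  rcases N with _ | _ | N
  · simpa using hα
  · simp only [zero_add, coeff_add, coeff_C_mul, coeff_X_one, mul_one, pow_one, coeff_C]
    simpa using hβ
  · have h1 : (C α + C β * X : K[X]).coeff (N + 1 + 1) = 0 := by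
      rw [coeff_add, coeff_C_mul, coeff_X, coeff_C]
      simp
    rw [h1, zero_mul]
    exact n3_ge_zero v A

theorem n3_antid (p : ℕ) [Fact p.Prime] [CharP K p] (v : Val K) (d : K) {A B : ℤ} {P : K[X]}
    (hP : GN v d A P) (hd : v.Ge B d) : v.Ge (A + B) ((antid P).eval d) := by
  unfold antid
  rw [eval_finsetSum]
  apply n3_ge_sum
  intro n _
  rw [eval_monomial]
  have e : P.coeff n / ((n + 1 : ℕ) : K) * d ^ (n + 1)
      = (P.coeff n * d ^ n) * d * (((n + 1 : ℕ) : K)⁻¹) := by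
    rw [div_eq_mul_inv, pow_succ]; ring
  rw [e]
  have h := n3_ge_mul v (n3_ge_mul v (hP n) hd) (n3_ge_nat_inv p v (n + 1))
  rwa [add_zero] at h

theorem n3_comp (a : Fin 4 → K) (r : ℕ) (u0 u1 e : K) :
    (lf a r u0 u1).comp (X + C e) =
      (C (u0 + u1 * e) + C u1 * X) * (∏ i, (C (e - a i) + C 1 * X)) ^ r := by
  have h1 : (fP a).comp (X + C e) = ∏ i, (C (e - a i) + C 1 * X) := by
    unfold fP
    rw [prod_comp]
    apply Finset.prod_congr rfl
    intro i _
    rw [sub_comp, X_comp, C_comp, C_sub, C_1]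
    ring
  have h2 : (C u0 + C u1 * X : K[X]).comp (X + C e) = C (u0 + u1 * e) + C u1 * X := by
    rw [add_comp, mul_comp, C_comp, C_comp, X_comp, C_add, C_mul]
    ring
  unfold lf
  rw [mul_comp, pow_comp, h1, h2]

end n3aux

theorem N3 {K : Type*} [Field K] (p : ℕ) [Fact p.Prime] [CharP K p] (v : Val K) (c : Cub K)
    (r : ℕ) (u0 u1 : K) (j k : Fin 4) (hjk : j ≠ k) (μ y : ℤ)
    (hμ : ∀ i l, i ≠ l → μ ≤ v.ord (c.z i l))
    (hyj : v.Ge y (u0 + u1 * c.a j)) (hyk : v.Ge y (u0 + u1 * c.a k)) :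
    v.Ge (3 * (2 * r + 1) * v.ord (c.z j k) + 6 * r * μ + y)
      ((antid ((lf c.a r u0 u1).comp (X + C (c.a k)))).eval (c.a j - c.a k)) := by
  have hd : c.a j - c.a k = c.z j k ^ 3 := (c.cube j k).symm
  have hne : c.a j - c.a k ≠ 0 := sub_ne_zero.2 (fun h => hjk (c.inj h))
  obtain ⟨ν, hν⟩ : ∃ ν, ν = v.ord (c.z j k) := ⟨_, rfl⟩
  have hz : v.Ge ν (c.z j k) := Or.inr hν.le
  have hμν : μ ≤ ν := by rw [hν]; exact hμ j k hjk
  have hd3 : v.Ge (3 * ν) (c.a j - c.a k) := by
    rw [hd]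
    exact_mod_cast n3_ge_pow v hz 3
  have hfac : ∀ i ∈ (Finset.univ : Finset (Fin 4)), GN v (c.a j - c.a k)
      (if i = k ∨ i = j then 3 * ν else 3 * μ) (C (c.a k - c.a i) + C 1 * X) := by
    intro i _
    apply n3_gn_lin
    · split_ifs with h
      · rcases h with rfl | rfl
        · rw [sub_self]
          exact n3_ge_zero v _
        · have := n3_ge_neg v hd3
          rwa [neg_sub] at this
      · push Not at h
        rw [← c.cube k i]
        exact_mod_cast n3_ge_pow v (n := μ) (Or.inr (hμ k i h.1.symm)) 3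
    · rw [one_mul]
      split_ifs with h
      · exact hd3
      · exact n3_ge_mono v (by linarith) hd3
  have hprod := n3_gn_prod v (c.a j - c.a k) Finset.univ _ _ hfac
  have hsum : (∑ i : Fin 4, (if i = k ∨ i = j then 3 * ν else 3 * μ)) = 6 * ν + 6 * μ := by
    rw [Fin.sum_univ_four]
    fin_cases j <;> fin_cases k <;> first | exact absurd rfl hjk | (simp; ring)
  rw [hsum] at hprod
  have hlin : GN v (c.a j - c.a k) y (C (u0 + u1 * c.a k) + C u1 * X) := by
    apply n3_gn_lin v _ hyk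
    have e : u1 * (c.a j - c.a k) = (u0 + u1 * c.a j) + -(u0 + u1 * c.a k) := by ring
    rw [e]
    exact n3_ge_add v hyj (n3_ge_neg v hyk)
  have hF := n3_gn_mul v _ hlin (n3_gn_pow v _ hprod r)
  rw [← n3_comp] at hF
  have hfin := n3_antid p v _ hF hd3
  rw [← hν]
  refine n3_ge_mono v (le_of_eq ?_) hfin
  ring

end NefMod
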