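import Pool.Agent.Helper729.NF.Defs

set_option autoImplicit false

open Polynomial

namespace NefMod



theorem aux_den {K : Type*} [Field K] (a : Fin 4 → K) (σ : S4) (m : Fin 4) :
    den a (σ m) = ∏ k ∈ Finset.univ.erase m, (a (σ m) - a (σ k)) := by
  unfold den
  have h : Finset.univ.erase (σ m) = (Finset.univ.erase m).map σ.toEmbedding := by
    rw [Finset.map_erase, Finset.map_univ_equiv]
    rfl
  rw [h, Finset.prod_map]
  rfl

theorem N4 {K : Type*} [Field K] (p : ℕ) [Fact p.Prime] [CharP K p] (hp2 : p ≠ 2) (c : Cub K)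
    (G : K[X]) (σ : S4) :
    qf p c.a G (fun j => c.a (σ 0) ^ p - c.a j ^ p) * tri c σ ^ (3 * p) =
      G.eval (c.a (σ 1)) * (c.a (σ 2) - c.a (σ 3)) ^ p +
      G.eval (c.a (σ 2)) * (c.a (σ 3) - c.a (σ 1)) ^ p +
      G.eval (c.a (σ 3)) * (c.a (σ 1) - c.a (σ 2)) ^ p := by
  have hodd : Odd p := (Fact.out : p.Prime).odd_of_ne_two hp2
  have hE : ∀ x y : K, (y - x) ^ p = -(x - y) ^ p := by
    intro x y
    rw [← neg_sub x y, hodd.neg_pow]
  have hne : ∀ i j : Fin 4, i ≠ j → (c.a (σ i) - c.a (σ j)) ^ p ≠ 0 := by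
    intro i j hij
    apply pow_ne_zero
    rw [sub_ne_zero]
    intro h
    exact hij (σ.injective (c.inj h))
  have hd1 : den c.a (σ 1) = (c.a (σ 1) - c.a (σ 0)) * (c.a (σ 1) - c.a (σ 2)) *
      (c.a (σ 1) - c.a (σ 3)) := by
    rw [aux_den, show (Finset.univ.erase (1 : Fin 4)) = {0, 2, 3} by decide,
      Finset.prod_insert (by decide), Finset.prod_insert (by decide), Finset.prod_singleton]
    ring
  have hd2 : den c.a (σ 2) = (c.a (σ 2) - c.a (σ 0)) * (c.a (σ 2) - c.a (σ 1)) *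
      (c.a (σ 2) - c.a (σ 3)) := by
    rw [aux_den, show (Finset.univ.erase (2 : Fin 4)) = {0, 1, 3} by decide,
      Finset.prod_insert (by decide), Finset.prod_insert (by decide), Finset.prod_singleton]
    ring
  have hd3 : den c.a (σ 3) = (c.a (σ 3) - c.a (σ 0)) * (c.a (σ 3) - c.a (σ 1)) *
      (c.a (σ 3) - c.a (σ 2)) := by
    rw [aux_den, show (Finset.univ.erase (3 : Fin 4)) = {0, 1, 2} by decide,
      Finset.prod_insert (by decide), Finset.prod_insert (by decide), Finset.prod_singleton]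
    ring
  have htri : tri c σ ^ (3 * p) = (c.a (σ 1) - c.a (σ 2)) ^ p * (c.a (σ 2) - c.a (σ 3)) ^ p *
      (c.a (σ 3) - c.a (σ 1)) ^ p := by
    unfold tri
    rw [pow_mul, mul_pow (_ * _) _ 3, mul_pow _ _ 3, c.cube, c.cube, c.cube, mul_pow, mul_pow]
  have hsum : qf p c.a G (fun j => c.a (σ 0) ^ p - c.a j ^ p)
      = G.eval (c.a (σ 1)) * (c.a (σ 0) - c.a (σ 1)) ^ p / den c.a (σ 1) ^ p
      + G.eval (c.a (σ 2)) * (c.a (σ 0) - c.a (σ 2)) ^ p / den c.a (σ 2) ^ p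
      + G.eval (c.a (σ 3)) * (c.a (σ 0) - c.a (σ 3)) ^ p / den c.a (σ 3) ^ p := by
    unfold qf
    rw [← Equiv.sum_comp σ, Fin.sum_univ_four]
    rw [sub_pow_char, sub_pow_char, sub_pow_char]
    simp only [sub_self]
    ring
  rw [hsum, hd1, hd2, hd3, htri]
  simp only [mul_pow]
  rw [hE (c.a (σ 1)) (c.a (σ 0)), hE (c.a (σ 2)) (c.a (σ 0)), hE (c.a (σ 3)) (c.a (σ 0)),
    hE (c.a (σ 1)) (c.a (σ 2)), hE (c.a (σ 3)) (c.a (σ 1)), hE (c.a (σ 2)) (c.a (σ 3))]
  have n10 := hne 1 0 (by decide)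
  have n20 := hne 2 0 (by decide)
  have n30 := hne 3 0 (by decide)
  have n12 := hne 1 2 (by decide)
  have n23 := hne 2 3 (by decide)
  have n31 := hne 3 1 (by decide)
  generalize (c.a (σ 1) - c.a (σ 0)) ^ p = x10 at *
  generalize (c.a (σ 2) - c.a (σ 0)) ^ p = x20 at *
  generalize (c.a (σ 3) - c.a (σ 0)) ^ p = x30 at *
  generalize (c.a (σ 1) - c.a (σ 2)) ^ p = x12 at *
  generalize (c.a (σ 2) - c.a (σ 3)) ^ p = x23 at *
  generalize (c.a (σ 3) - c.a (σ 1)) ^ p = x31 at *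
  field_simp

end NefMod
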