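import Pool.Agent.Helper729.NF.Defs
import Pool.Agent.Helper729.NF.P_N2
import Pool.Agent.Helper729.NF.P_N3
import Pool.Agent.Helper729.NF.P_N4

set_option autoImplicit false

open Polynomial

namespace NefMod



theorem x_ord_one {K : Type*} [Field K] (v : Val K) : v.ord 1 = 0 := by
  have h := v.ord_mul (one_ne_zero (α := K)) (one_ne_zero (α := K))
  rw [mul_one] at h
  omega

theorem x_ord_neg {K : Type*} [Field K] (v : Val K) {f : K} (hf : f ≠ 0) : v.ord (-f) = v.ord f := by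
  have h1 : (-1 : K) ≠ 0 := neg_ne_zero.2 one_ne_zero
  have h := v.ord_mul h1 h1
  rw [neg_mul_neg, mul_one, x_ord_one] at h
  have h2 := v.ord_mul h1 hf
  rw [neg_one_mul] at h2
  omega

theorem x_ord_pow {K : Type*} [Field K] (v : Val K) {f : K} (hf : f ≠ 0) (n : ℕ) : v.ord (f ^ n) = n * v.ord f := by
  induction n with
  | zero => simp [x_ord_one]
  | succ n ih =>
    rw [pow_succ, v.ord_mul (pow_ne_zero n hf) hf, ih]
    push_cast
    ring

theorem x_ge_add {K : Type*} [Field K] (v : Val K) {n : ℤ} {f g : K} (hf : v.Ge n f) (hg : v.Ge n g) :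
    v.Ge n (f + g) := by
  rcases hf with rfl | hf
  · rw [zero_add]; exact hg
  rcases hg with rfl | hg
  · rw [add_zero]; exact Or.inr hf
  by_cases h0 : f + g = 0
  · exact Or.inl h0
  by_cases hf0 : f = 0
  · subst hf0; rw [zero_add]; exact Or.inr hg
  by_cases hg0 : g = 0
  · subst hg0; rw [add_zero]; exact Or.inr hf
  right
  exact (le_min hf hg).trans (v.ord_add hf0 hg0 h0)

theorem x_ge_mul {K : Type*} [Field K] (v : Val K) {n m : ℤ} {f g : K} (hf : v.Ge n f) (hg : v.Ge m g) :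
    v.Ge (n + m) (f * g) := by
  by_cases hf0 : f = 0
  · left; rw [hf0, zero_mul]
  by_cases hg0 : g = 0
  · left; rw [hg0, mul_zero]
  rcases hf with h | hf
  · exact absurd h hf0
  rcases hg with h | hg
  · exact absurd h hg0
  right
  rw [v.ord_mul hf0 hg0]
  omega

theorem x_ge_mono {K : Type*} [Field K] (v : Val K) {n m : ℤ} {f : K} (hf : v.Ge n f) (h : m ≤ n) : v.Ge m f := by
  rcases hf with h0 | h1
  · exact Or.inl h0
  · exact Or.inr (h.trans h1)

theorem x_z_ne {K : Type*} [Field K] (c : Cub K) {i j : Fin 4} (h : i ≠ j) : c.z i j ≠ 0 := by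
  intro h0
  have h1 := c.cube i j
  rw [h0] at h1
  have h2 : c.a i - c.a j = 0 := by rw [← h1]; ring
  exact h (c.inj (sub_eq_zero.1 h2))

theorem x_lf {K : Type*} [Field K] (a : Fin 4 → K) (r : ℕ) : lf a r 1 0 = fP a ^ r := by
  unfold lf
  simp

theorem x_deg {K : Type*} [Field K] (a : Fin 4 → K) (r : ℕ) : (fP a ^ r).natDegree ≤ 4 * r := by
  have h1 : (fP a).natDegree ≤ 4 := by
    unfold fP
    refine (natDegree_prod_le _ _).trans ?_
    simp
  refine natDegree_pow_le.trans ?_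
  rw [mul_comm]
  exact Nat.mul_le_mul_right r h1

theorem x_antid_zero {K : Type*} [Field K] (g : K[X]) : (antid g).eval 0 = 0 := by
  unfold antid
  rw [eval_finsetSum]
  refine Finset.sum_eq_zero fun n _ => ?_
  rw [eval_monomial]
  simp

theorem x_core {K : Type*} [Field K] (p r : ℕ) [Fact p.Prime] [CharP K p] (hp : p = 3 * r + 1)
    (v : Val K) (c : Cub K) (hc : (fP c.a ^ r).coeff (p - 1) = 0) (μ : ℤ)
    (hμ : ∀ i l, i ≠ l → μ ≤ v.ord (c.z i l)) (k l m : Fin 4) (hkl : k ≠ l) (hlm : l ≠ m)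
    (h1 : v.ord (c.z l m) = μ) :
    v.Ge ((p - 1) * μ + 2 * p * (v.ord (c.z k l) + 2 * μ))
      ((antid (lf c.a r 1 0)).eval (c.a k) * (c.a l - c.a m) ^ p +
        (antid (lf c.a r 1 0)).eval (c.a l) * (c.a m - c.a k) ^ p +
        (antid (lf c.a r 1 0)).eval (c.a m) * (c.a k - c.a l) ^ p) := by
  have hdeg : (lf c.a r 1 0).natDegree + 1 < 2 * p := by
    rw [x_lf]
    have := x_deg c.a r
    omega
  obtain ⟨α, β, hN2⟩ := N2 p (lf c.a r 1 0) hdeg (by rw [x_lf]; exact hc) (c.a l)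
  set Gt := antid ((lf c.a r 1 0).comp (X + C (c.a l))) with hGt
  have hS : (antid (lf c.a r 1 0)).eval (c.a k) * (c.a l - c.a m) ^ p +
        (antid (lf c.a r 1 0)).eval (c.a l) * (c.a m - c.a k) ^ p +
        (antid (lf c.a r 1 0)).eval (c.a m) * (c.a k - c.a l) ^ p =
      Gt.eval (c.a k - c.a l) * (c.a l - c.a m) ^ p + Gt.eval (c.a m - c.a l) * (c.a k - c.a l) ^ p := by
    rw [hN2, hN2 (c.a l), hN2 (c.a m), sub_self, x_antid_zero]
    rw [sub_pow_char, sub_pow_char, sub_pow_char]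
    ring
  rw [hS]
  have g1 : v.Ge 0 ((1 : K) + 0 * c.a k) := by
    right; rw [zero_mul, add_zero, x_ord_one]
  have g2 : v.Ge 0 ((1 : K) + 0 * c.a l) := by
    right; rw [zero_mul, add_zero, x_ord_one]
  have g3 : v.Ge 0 ((1 : K) + 0 * c.a m) := by
    right; rw [zero_mul, add_zero, x_ord_one]
  have n1 := N3 p v c r 1 0 k l hkl μ 0 hμ g1 g2
  have n2 := N3 p v c r 1 0 m l hlm.symm μ 0 hμ g3 g2
  rw [← hGt] at n1 n2
  have hzml : v.ord (c.z m l) = μ := by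
    rw [c.anti l m, x_ord_neg v (x_z_ne c hlm), h1]
  rw [hzml] at n2
  have hV : μ ≤ v.ord (c.z k l) := hμ k l hkl
  have hpr : (p : ℤ) = 3 * r + 1 := by rw [hp]; push_cast; ring
  have hp0 : (0 : ℤ) ≤ p := by positivity
  have q1 : v.Ge (3 * p * μ) ((c.a l - c.a m) ^ p) := by
    right
    rw [← c.cube l m, ← pow_mul, x_ord_pow v (x_z_ne c hlm), h1]
    push_cast
    exact le_rfl
  have q2 : v.Ge (3 * p * v.ord (c.z k l)) ((c.a k - c.a l) ^ p) := by
    right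
    rw [← c.cube k l, ← pow_mul, x_ord_pow v (x_z_ne c hkl)]
    push_cast
    exact le_rfl
  apply x_ge_add
  · refine x_ge_mono v (x_ge_mul v n1 q1) ?_
    rw [hpr]
    nlinarith
  · refine x_ge_mono v (x_ge_mul v n2 q2) ?_
    rw [hpr]
    have hr0 : (0 : ℤ) ≤ r := by positivity
    nlinarith

theorem x_two {K : Type*} [Field K] (v : Val K) (c : Cub K) (μ : ℤ)
    (hμ : ∀ i l, i ≠ l → μ ≤ v.ord (c.z i l)) (k l m : Fin 4) (hkl : k ≠ l) (hlm : l ≠ m) (hmk : m ≠ k)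
    (h1 : v.ord (c.z k l) = μ) : v.ord (c.z l m) = μ ∨ v.ord (c.z m k) = μ := by
  by_contra hcon
  push Not at hcon
  have a1 := hμ l m hlm
  have a2 := hμ m k hmk
  have b1 : μ + 1 ≤ v.ord (c.z l m) := by
    rcases lt_or_eq_of_le a1 with h | h
    · exact h
    · exact absurd h.symm hcon.1
  have b2 : μ + 1 ≤ v.ord (c.z m k) := by
    rcases lt_or_eq_of_le a2 with h | h
    · exact h
    · exact absurd h.symm hcon.2
  have e : c.z l m ^ 3 + c.z m k ^ 3 = -(c.z k l ^ 3) := by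
    rw [c.cube, c.cube, c.cube]; ring
  have hne : -(c.z k l ^ 3) ≠ 0 := neg_ne_zero.2 (pow_ne_zero 3 (x_z_ne c hkl))
  have h2 := v.ord_add (pow_ne_zero 3 (x_z_ne c hlm)) (pow_ne_zero 3 (x_z_ne c hmk)) (by rw [e]; exact hne)
  rw [e, x_ord_neg v (pow_ne_zero 3 (x_z_ne c hkl)), x_ord_pow v (x_z_ne c hkl), x_ord_pow v (x_z_ne c hlm),
    x_ord_pow v (x_z_ne c hmk), h1] at h2
  rcases min_le_iff.1 h2 with h | h
  · push_cast at h; omega
  · push_cast at h; omega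

theorem N4B1 {K : Type*} [Field K] (p r : ℕ) [Fact p.Prime] [CharP K p] (hp : p = 3 * r + 1)
    (hr : 2 ≤ r) (v : Val K) (c : Cub K) (hc : (fP c.a ^ r).coeff (p - 1) = 0) (μ : ℤ)
    (hμ : ∀ i l, i ≠ l → μ ≤ v.ord (c.z i l))
    (hnc : ∀ σ : S4, v.ord (c.z (σ 1) (σ 2)) = μ ∨ v.ord (c.z (σ 2) (σ 3)) = μ ∨
      v.ord (c.z (σ 3) (σ 1)) = μ) (σ : S4) :
    v.Ge ((p - 1) * μ)
      (qf p c.a (antid (lf c.a r 1 0)) (fun j => c.a (σ 0) ^ p - c.a j ^ p) * tri c σ ^ p) := by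
  have hp2 : p ≠ 2 := by omega
  have d12 : σ 1 ≠ σ 2 := fun h => absurd (σ.injective h) (by decide)
  have d23 : σ 2 ≠ σ 3 := fun h => absurd (σ.injective h) (by decide)
  have d31 : σ 3 ≠ σ 1 := fun h => absurd (σ.injective h) (by decide)
  have hN4 := N4 p hp2 c (antid (lf c.a r 1 0)) σ
  set R := qf p c.a (antid (lf c.a r 1 0)) (fun j => c.a (σ 0) ^ p - c.a j ^ p) with hR
  set G := antid (lf c.a r 1 0) with hG
  have htri : tri c σ ≠ 0 := mul_ne_zero (mul_ne_zero (x_z_ne c d12) (x_z_ne c d23)) (x_z_ne c d31)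
  have hordtri : v.ord (tri c σ) = v.ord (c.z (σ 1) (σ 2)) + v.ord (c.z (σ 2) (σ 3)) + v.ord (c.z (σ 3) (σ 1)) := by
    unfold tri
    rw [v.ord_mul (mul_ne_zero (x_z_ne c d12) (x_z_ne c d23)) (x_z_ne c d31),
      v.ord_mul (x_z_ne c d12) (x_z_ne c d23)]
  have hS : v.Ge ((p - 1) * μ + 2 * p * v.ord (tri c σ)) (R * tri c σ ^ (3 * p)) := by
    rw [hN4, hordtri]
    have key : (v.ord (c.z (σ 2) (σ 3)) = μ ∧ v.ord (c.z (σ 3) (σ 1)) = μ) ∨
        (v.ord (c.z (σ 3) (σ 1)) = μ ∧ v.ord (c.z (σ 1) (σ 2)) = μ) ∨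
        (v.ord (c.z (σ 1) (σ 2)) = μ ∧ v.ord (c.z (σ 2) (σ 3)) = μ) := by
      rcases hnc σ with h | h | h
      · rcases x_two v c μ hμ _ _ _ d12 d23 d31 h with h' | h'
        · right; right; exact ⟨h, h'⟩
        · right; left; exact ⟨h', h⟩
      · rcases x_two v c μ hμ _ _ _ d23 d31 d12 h with h' | h'
        · left; exact ⟨h, h'⟩
        · right; right; exact ⟨h', h⟩
      · rcases x_two v c μ hμ _ _ _ d31 d12 d23 h with h' | h'
        · right; left; exact ⟨h, h'⟩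
        · left; exact ⟨h', h⟩
    rcases key with ⟨h, h'⟩ | ⟨h, h'⟩ | ⟨h, h'⟩
    · have := x_core p r hp v c hc μ hμ (σ 1) (σ 2) (σ 3) d12 d23 h
      rw [h, h']
      have e : v.ord (c.z (σ 1) (σ 2)) + μ + μ = v.ord (c.z (σ 1) (σ 2)) + 2 * μ := by ring
      rw [e]
      exact this
    · have := x_core p r hp v c hc μ hμ (σ 2) (σ 3) (σ 1) d23 d31 h
      rw [h, h']
      have e : μ + v.ord (c.z (σ 2) (σ 3)) + μ = v.ord (c.z (σ 2) (σ 3)) + 2 * μ := by ring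
      rw [e]
      have e2 : eval (c.a (σ 1)) G * (c.a (σ 2) - c.a (σ 3)) ^ p + eval (c.a (σ 2)) G * (c.a (σ 3) - c.a (σ 1)) ^ p +
          eval (c.a (σ 3)) G * (c.a (σ 1) - c.a (σ 2)) ^ p =
          eval (c.a (σ 2)) G * (c.a (σ 3) - c.a (σ 1)) ^ p + eval (c.a (σ 3)) G * (c.a (σ 1) - c.a (σ 2)) ^ p +
          eval (c.a (σ 1)) G * (c.a (σ 2) - c.a (σ 3)) ^ p := by ring
      rw [e2]
      exact this
    · have := x_core p r hp v c hc μ hμ (σ 3) (σ 1) (σ 2) d31 d12 h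
      rw [h, h']
      have e : μ + μ + v.ord (c.z (σ 3) (σ 1)) = v.ord (c.z (σ 3) (σ 1)) + 2 * μ := by ring
      rw [e]
      have e2 : eval (c.a (σ 1)) G * (c.a (σ 2) - c.a (σ 3)) ^ p + eval (c.a (σ 2)) G * (c.a (σ 3) - c.a (σ 1)) ^ p +
          eval (c.a (σ 3)) G * (c.a (σ 1) - c.a (σ 2)) ^ p =
          eval (c.a (σ 3)) G * (c.a (σ 1) - c.a (σ 2)) ^ p + eval (c.a (σ 1)) G * (c.a (σ 2) - c.a (σ 3)) ^ p +
          eval (c.a (σ 2)) G * (c.a (σ 3) - c.a (σ 1)) ^ p := by ring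
      rw [e2]
      exact this
  by_cases hz : R * tri c σ ^ p = 0
  · exact Or.inl hz
  right
  have e3 : R * tri c σ ^ (3 * p) = (R * tri c σ ^ p) * tri c σ ^ (2 * p) := by
    rw [mul_assoc, ← pow_add]
    congr 2
    ring
  rw [e3] at hS
  rcases hS with h | h
  · exact absurd h (mul_ne_zero hz (pow_ne_zero _ htri))
  · rw [v.ord_mul hz (pow_ne_zero _ htri), x_ord_pow v htri] at h
    push_cast at h
    linarith

end NefMod
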