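import Pool.Agent.Helper729.NF.Defs
import Pool.Agent.Helper729.NF.P_N1

set_option autoImplicit false

open Polynomial

namespace NefMod



theorem N5_alg {K : Type*} [Field K] (b0 b1 b2 b3 y0 y1 y2 y3 : K) (h01 : b0 ≠ b1) (h02 : b0 ≠ b2)
    (h03 : b0 ≠ b3) (h12 : b1 ≠ b2) (h13 : b1 ≠ b3) (h23 : b2 ≠ b3)
    (h1 : y0 / ((b0 - b1) * (b0 - b2) * (b0 - b3)) + y1 / ((b1 - b0) * (b1 - b2) * (b1 - b3)) +
      y2 / ((b2 - b0) * (b2 - b1) * (b2 - b3)) + y3 / ((b3 - b0) * (b3 - b1) * (b3 - b2)) = 0)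
    (h2 : y0 * b0 / ((b0 - b1) * (b0 - b2) * (b0 - b3)) +
      y1 * b1 / ((b1 - b0) * (b1 - b2) * (b1 - b3)) +
      y2 * b2 / ((b2 - b0) * (b2 - b1) * (b2 - b3)) +
      y3 * b3 / ((b3 - b0) * (b3 - b1) * (b3 - b2)) = 0) :
    ∃ α β : K, y0 = α + β * b0 ∧ y1 = α + β * b1 ∧ y2 = α + β * b2 ∧ y3 = α + β * b3 := by
  have e01 : b0 - b1 ≠ 0 := sub_ne_zero.2 h01
  have e02 : b0 - b2 ≠ 0 := sub_ne_zero.2 h02
  have e03 : b0 - b3 ≠ 0 := sub_ne_zero.2 h03
  have e12 : b1 - b2 ≠ 0 := sub_ne_zero.2 h12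
  have e13 : b1 - b3 ≠ 0 := sub_ne_zero.2 h13
  have e23 : b2 - b3 ≠ 0 := sub_ne_zero.2 h23
  have f01 : b1 - b0 ≠ 0 := sub_ne_zero.2 h01.symm
  have f02 : b2 - b0 ≠ 0 := sub_ne_zero.2 h02.symm
  have f03 : b3 - b0 ≠ 0 := sub_ne_zero.2 h03.symm
  have f12 : b2 - b1 ≠ 0 := sub_ne_zero.2 h12.symm
  have f13 : b3 - b1 ≠ 0 := sub_ne_zero.2 h13.symm
  have f23 : b3 - b2 ≠ 0 := sub_ne_zero.2 h23.symm
  have i0 : 1 / ((b0 - b1) * (b0 - b2) * (b0 - b3)) + 1 / ((b1 - b0) * (b1 - b2) * (b1 - b3)) +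
      1 / ((b2 - b0) * (b2 - b1) * (b2 - b3)) + 1 / ((b3 - b0) * (b3 - b1) * (b3 - b2)) = 0 := by
    rw [show b1 - b0 = -(b0 - b1) by ring, show b2 - b0 = -(b0 - b2) by ring,
      show b3 - b0 = -(b0 - b3) by ring, show b2 - b1 = -(b1 - b2) by ring,
      show b3 - b1 = -(b1 - b3) by ring, show b3 - b2 = -(b2 - b3) by ring]
    field_simp
    ring
  have i1 : b0 / ((b0 - b1) * (b0 - b2) * (b0 - b3)) + b1 / ((b1 - b0) * (b1 - b2) * (b1 - b3)) +
      b2 / ((b2 - b0) * (b2 - b1) * (b2 - b3)) + b3 / ((b3 - b0) * (b3 - b1) * (b3 - b2)) = 0 := by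
    rw [show b1 - b0 = -(b0 - b1) by ring, show b2 - b0 = -(b0 - b2) by ring,
      show b3 - b0 = -(b0 - b3) by ring, show b2 - b1 = -(b1 - b2) by ring,
      show b3 - b1 = -(b1 - b3) by ring, show b3 - b2 = -(b2 - b3) by ring]
    field_simp
    ring
  have i2 : b0 ^ 2 / ((b0 - b1) * (b0 - b2) * (b0 - b3)) +
      b1 ^ 2 / ((b1 - b0) * (b1 - b2) * (b1 - b3)) +
      b2 ^ 2 / ((b2 - b0) * (b2 - b1) * (b2 - b3)) +
      b3 ^ 2 / ((b3 - b0) * (b3 - b1) * (b3 - b2)) = 0 := by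
    rw [show b1 - b0 = -(b0 - b1) by ring, show b2 - b0 = -(b0 - b2) by ring,
      show b3 - b0 = -(b0 - b3) by ring, show b2 - b1 = -(b1 - b2) by ring,
      show b3 - b1 = -(b1 - b3) by ring, show b3 - b2 = -(b2 - b3) by ring]
    field_simp
    ring
  have hb : ∃ β : K, y0 - y1 = β * (b0 - b1) := ⟨(y0 - y1) / (b0 - b1), by field_simp⟩
  obtain ⟨β, hβ⟩ := hb
  obtain ⟨α, hα⟩ : ∃ α : K, α = y0 - β * b0 := ⟨_, rfl⟩
  have hy1 : y1 = α + β * b1 := by linear_combination hα * (-1) - hβ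
  have hy0 : y0 = α + β * b0 := by linear_combination hα * (-1)
  obtain ⟨z2, hz2⟩ : ∃ z2, z2 = (y2 - α - β * b2) / ((b2 - b0) * (b2 - b1) * (b2 - b3)) := ⟨_, rfl⟩
  obtain ⟨z3, hz3⟩ : ∃ z3, z3 = (y3 - α - β * b3) / ((b3 - b0) * (b3 - b1) * (b3 - b2)) := ⟨_, rfl⟩
  have k1 : z2 + z3 = 0 := by
    rw [hz2, hz3]
    rw [hy0, hy1] at h1
    linear_combination h1 - α * i0 - β * i1
  have k2 : z2 * b2 + z3 * b3 = 0 := by
    rw [hz2, hz3]
    rw [hy0, hy1] at h2
    linear_combination h2 - α * i1 - β * i2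
  have k3 : z3 = 0 := by
    have : z3 * (b3 - b2) = 0 := by linear_combination k2 - b2 * k1
    exact (mul_eq_zero.1 this).resolve_right f23
  have k4 : z2 = 0 := by linear_combination k1 - k3
  refine ⟨α, β, hy0, hy1, ?_, ?_⟩
  · rw [k4] at hz2
    have := (div_eq_zero_iff.1 hz2.symm).resolve_right (mul_ne_zero (mul_ne_zero (by assumption) (by assumption)) (by assumption))
    linear_combination this
  · rw [k3] at hz3
    have := (div_eq_zero_iff.1 hz3.symm).resolve_right (mul_ne_zero (mul_ne_zero (by assumption) (by assumption)) (by assumption))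
    linear_combination this

theorem N5 {K : Type*} [Field K] (p r : ℕ) [Fact p.Prime] [CharP K p] (hd : 4 * r + 2 < 2 * p)
    (hpr : p ≤ 4 * r + 3) (hrp : r + 1 < p) (a : Fin 4 → K) (ha : Function.Injective a) (u0 u1 : K)
    (hc : (lf a r u0 u1).coeff (p - 1) = 0)
    (h1 : qf p a (antid (lf a r u0 u1)) (fun _ => 1) = 0)
    (h2 : qf p a (antid (lf a r u0 u1)) (fun j => a j ^ p) = 0) : u0 = 0 ∧ u1 = 0 := by
  classical
  by_contra hne
  have hr0 : ∀ j, (X - C (a j) : K[X]) ≠ 0 := fun j => X_sub_C_ne_zero _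
  have hfP : fP a ≠ 0 := Finset.prod_ne_zero_iff.2 fun j _ => hr0 j
  have hlf : lf a r u0 u1 ≠ 0 := by
    intro h
    apply hne
    have h3 : (C u0 + C u1 * X : K[X]) = 0 :=
      (mul_eq_zero.1 h).resolve_right (pow_ne_zero _ hfP)
    have h4 := congrArg (fun q => coeff q 0) h3
    have h5 := congrArg (fun q => coeff q 1) h3
    simp at h4 h5
    exact ⟨h4, h5⟩
  have hfPdeg : (fP a).natDegree ≤ 4 := by
    unfold fP
    refine (natDegree_prod_le _ _).trans ?_
    simp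
  have hdeg : (lf a r u0 u1).natDegree ≤ 4 * r + 1 := by
    unfold lf
    refine natDegree_mul_le.trans ?_
    have e1 : (C u0 + C u1 * X : K[X]).natDegree ≤ 1 := by
      refine (natDegree_add_le _ _).trans ?_
      simp only [natDegree_C, zero_le, sup_of_le_right]
      exact natDegree_C_mul_le _ _ |>.trans natDegree_X_le
    have e2 : (fP a ^ r).natDegree ≤ r * 4 := natDegree_pow_le_of_le r hfPdeg
    omega
  obtain ⟨hG1, hG2⟩ := N1 p (lf a r u0 u1) (by omega) hc
  set G : K[X] := antid (lf a r u0 u1) with hG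
  have hbinj : ∀ i j, a i ^ p = a j ^ p → i = j := by
    intro i j h
    apply ha
    exact frobenius_inj K p h
  have hden : ∀ i j : Fin 4, (a i - a j) ^ p = a i ^ p - a j ^ p := fun i j => sub_pow_char _ _
  have hD0 : den a 0 ^ p = (a 0 ^ p - a 1 ^ p) * (a 0 ^ p - a 2 ^ p) * (a 0 ^ p - a 3 ^ p) := by
    rw [← hden, ← hden, ← hden, ← mul_pow, ← mul_pow]
    congr 1
    unfold den
    rw [show (Finset.univ.erase (0 : Fin 4)) = {1, 2, 3} by decide]
    rw [Finset.prod_insert (by decide), Finset.prod_insert (by decide), Finset.prod_singleton]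
    ring
  have hD1 : den a 1 ^ p = (a 1 ^ p - a 0 ^ p) * (a 1 ^ p - a 2 ^ p) * (a 1 ^ p - a 3 ^ p) := by
    rw [← hden, ← hden, ← hden, ← mul_pow, ← mul_pow]
    congr 1
    unfold den
    rw [show (Finset.univ.erase (1 : Fin 4)) = {0, 2, 3} by decide]
    rw [Finset.prod_insert (by decide), Finset.prod_insert (by decide), Finset.prod_singleton]
    ring
  have hD2 : den a 2 ^ p = (a 2 ^ p - a 0 ^ p) * (a 2 ^ p - a 1 ^ p) * (a 2 ^ p - a 3 ^ p) := by
    rw [← hden, ← hden, ← hden, ← mul_pow, ← mul_pow]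
    congr 1
    unfold den
    rw [show (Finset.univ.erase (2 : Fin 4)) = {0, 1, 3} by decide]
    rw [Finset.prod_insert (by decide), Finset.prod_insert (by decide), Finset.prod_singleton]
    ring
  have hD3 : den a 3 ^ p = (a 3 ^ p - a 0 ^ p) * (a 3 ^ p - a 1 ^ p) * (a 3 ^ p - a 2 ^ p) := by
    rw [← hden, ← hden, ← hden, ← mul_pow, ← mul_pow]
    congr 1
    unfold den
    rw [show (Finset.univ.erase (3 : Fin 4)) = {0, 1, 2} by decide]
    rw [Finset.prod_insert (by decide), Finset.prod_insert (by decide), Finset.prod_singleton]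
    ring
  have hne' : ∀ i j : Fin 4, i ≠ j → a i ^ p ≠ a j ^ p := fun i j h h' => h (hbinj i j h')
  unfold qf at h1 h2
  rw [Fin.sum_univ_four, hD0, hD1, hD2, hD3] at h1 h2
  simp only [mul_one] at h1
  obtain ⟨α, β, y0, y1, y2, y3⟩ := N5_alg (a 0 ^ p) (a 1 ^ p) (a 2 ^ p) (a 3 ^ p) (G.eval (a 0))
    (G.eval (a 1)) (G.eval (a 2)) (G.eval (a 3)) (hne' 0 1 (by decide)) (hne' 0 2 (by decide))
    (hne' 0 3 (by decide)) (hne' 1 2 (by decide)) (hne' 1 3 (by decide)) (hne' 2 3 (by decide))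
    h1 h2
  have hev : ∀ j, G.eval (a j) = α + β * a j ^ p := by
    intro j
    fin_cases j
    · exact y0
    · exact y1
    · exact y2
    · exact y3
  set G' : K[X] := G - C α - C β * X ^ p with hG'
  have hder : derivative G' = lf a r u0 u1 := by
    rw [hG', derivative_sub, derivative_sub, derivative_C, derivative_C_mul, derivative_X_pow,
      hG1, CharP.cast_eq_zero]
    simp
  have hG'0 : G' ≠ 0 := by
    intro h
    rw [h, derivative_zero] at hder
    exact hlf hder.symm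
  have hroot : ∀ j, G'.IsRoot (a j) := by
    intro j
    rw [IsRoot.def, hG']
    simp only [eval_sub, eval_C, eval_mul, eval_pow, eval_X]
    rw [hev j]; ring
  have hdvd : ∀ j, (X - C (a j)) ^ (r + 1) ∣ G' := by
    intro j
    rw [← le_rootMultiplicity_iff hG'0]
    by_contra hlt
    push Not at hlt
    have hm1 : 0 < rootMultiplicity (a j) G' := (rootMultiplicity_pos hG'0).2 (hroot j)
    have hmK : ((rootMultiplicity (a j) G' : ℕ) : K) ≠ 0 := by
      intro h
      rw [CharP.cast_eq_zero_iff K p] at h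
      have := Nat.le_of_dvd hm1 h
      omega
    have h3 := derivative_rootMultiplicity_of_root_of_mem_nonZeroDivisors (hroot j)
      (mem_nonZeroDivisors_of_ne_zero hmK)
    rw [hder] at h3
    have h4 : r ≤ rootMultiplicity (a j) (lf a r u0 u1) := by
      rw [le_rootMultiplicity_iff hlf]
      unfold lf
      refine Dvd.dvd.mul_left (pow_dvd_pow_of_dvd ?_ r) _
      exact Finset.dvd_prod_of_mem _ (Finset.mem_univ j)
    omega
  have hprod : ∏ j, (X - C (a j)) ^ (r + 1) ∣ G' := by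
    refine Finset.prod_dvd_of_coprime ?_ (fun j _ => hdvd j)
    intro i _ j _ hij
    exact IsCoprime.pow (pairwise_coprime_X_sub_C ha hij)
  have hpd : (∏ j, (X - C (a j)) ^ (r + 1) : K[X]).natDegree = 4 * (r + 1) := by
    rw [natDegree_prod _ _ fun j _ => pow_ne_zero _ (hr0 j)]
    simp
  have hle := natDegree_le_of_dvd hprod hG'0
  rw [hpd] at hle
  have hG'deg : G'.natDegree ≤ max (4 * r + 2) p := by
    rw [hG']
    refine (natDegree_sub_le _ _).trans (max_le ?_ ?_)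
    · refine (natDegree_sub_le _ _).trans (max_le ?_ ?_)
      · refine hG2.trans ?_
        refine le_trans ?_ (le_max_left _ _)
        omega
      · simp
    · exact (natDegree_C_mul_X_pow_le _ _).trans (le_max_right _ _)
  have := hle.trans hG'deg
  rcases le_max_iff.1 this with h | h <;> omega

end NefMod
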