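import Pool.Agent.Helper729.NF.Defs
import Pool.Agent.Helper729.NF.P_N4B1
import Pool.Agent.Helper729.NF.P_N5
import Pool.Agent.Helper729.NF.P_N10
import Pool.Agent.Helper729.NF.P_N12
import Pool.Agent.Helper729.NF.P_H0
import Pool.Agent.Helper729.NF.P_H1
import Pool.Agent.Helper729.NF.P_H4
import Pool.Agent.Helper729.NF.P_H9

set_option autoImplicit false

open Polynomial

namespace NefMod



theorem A1_z_ne {K : Type*} [Field K] (c : Cub K) {i j : Fin 4} (h : i ≠ j) : c.z i j ≠ 0 := by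
  intro h0
  have h2 := c.cube i j
  rw [h0] at h2
  have h1 : c.a i - c.a j = 0 := by
    rw [← h2]
    ring
  exact h (c.inj (sub_eq_zero.mp h1))

theorem A1_ord_one {K : Type*} [Field K] (v : Val K) : v.ord 1 = 0 := by
  have h := v.ord_mul (f := 1) (g := 1) one_ne_zero one_ne_zero
  rw [mul_one] at h
  omega

theorem A1_ord_pow {K : Type*} [Field K] (v : Val K) {f : K} (hf : f ≠ 0) (n : ℕ) :
    v.ord (f ^ n) = n * v.ord f := by
  induction n with
  | zero =>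
    rw [pow_zero, A1_ord_one]
    simp
  | succ n ih =>
    rw [pow_succ, v.ord_mul (pow_ne_zero _ hf) hf, ih]
    push_cast
    ring

/-- the Frobenius twist -/
noncomputable def A1_fr {K : Type*} [Field K] (p : ℕ) [Fact p.Prime] [CharP K p] (hodd : Odd p)
    (c : Cub K) : Cub K where
  a := fun i => c.a i ^ p
  z := fun i j => c.z i j ^ p
  inj := fun i j h => by
    have h' : c.a i ^ p = c.a j ^ p := h
    have h1 : (c.a i - c.a j) ^ p = 0 := by
      rw [sub_pow_char, h', sub_self]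
    exact c.inj (sub_eq_zero.mp (pow_eq_zero_iff (Fact.out : p.Prime).ne_zero |>.mp h1))
  cube := fun i j => by
    rw [← pow_mul, mul_comm, pow_mul, c.cube, sub_pow_char]
  anti := fun i j => by
    rw [c.anti i j, hodd.neg_pow]

theorem A1_lin {K : Type*} [Field K] (p : ℕ) (a : Fin 4 → K) (G : K[X]) (x : K) :
    - qf p a G (fun j => a j ^ p) - (- qf p a G (fun _ => 1)) * x =
      qf p a G (fun j => x - a j ^ p) := by
  simp only [qf]
  rw [neg_mul, sub_neg_eq_add, Finset.sum_mul, ← Finset.sum_neg_distrib,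
    ← Finset.sum_add_distrib]
  refine Finset.sum_congr rfl fun j _ => ?_
  ring

theorem A1_perm (i l : Fin 4) (h : i ≠ l) : ∃ σ : S4, σ 0 = i ∧ σ 1 = l := by
  have hx : Equiv.swap 0 i l ≠ 0 := by
    intro h1
    have h2 : Equiv.swap 0 i (Equiv.swap 0 i l) = Equiv.swap 0 i 0 := by rw [h1]
    rw [Equiv.swap_apply_self, Equiv.swap_apply_left] at h2
    exact h h2.symm
  refine ⟨Equiv.swap 0 i * Equiv.swap 1 (Equiv.swap 0 i l), ?_, ?_⟩
  · rw [Equiv.Perm.mul_apply, Equiv.swap_apply_of_ne_of_ne (by decide) hx.symm,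
      Equiv.swap_apply_left]
  · rw [Equiv.Perm.mul_apply, Equiv.swap_apply_left, Equiv.swap_apply_self]

theorem A1_mu {K : Type*} [Field K] (p r : ℕ) [Fact p.Prime] [CharP K p] (hp : p = 3 * r + 1)
    (hr : 2 ≤ r) (v : Val K) (c : Cub K) (hc : (fP c.a ^ r).coeff (p - 1) = 0) :
    (∀ i l, i ≠ l → moV v (zv c) ≤ v.ord (c.z i l)) ∧
    (∀ σ : S4, v.ord (c.z (σ 1) (σ 2)) = moV v (zv c) ∨ v.ord (c.z (σ 2) (σ 3)) = moV v (zv c) ∨
      v.ord (c.z (σ 3) (σ 1)) = moV v (zv c)) := by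
  have hx : ∃ σ, zv c σ ≠ 0 := ⟨1, A1_z_ne c (by decide)⟩
  obtain ⟨h1, ⟨σ0, h2, h3⟩, -⟩ := H0 v (zv c) hx
  have hμ : ∀ i l, i ≠ l → moV v (zv c) ≤ v.ord (c.z i l) := by
    intro i l hil
    obtain ⟨σ, hσ0, hσ1⟩ := A1_perm i l hil
    rcases h1 σ with h | h
    · exfalso
      have h' : c.z (σ 0) (σ 1) = 0 := h
      rw [hσ0, hσ1] at h'
      exact A1_z_ne c hil h'
    · have h' : moV v (zv c) ≤ v.ord (c.z (σ 0) (σ 1)) := h
      rw [hσ0, hσ1] at h'
      exact h'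
  refine ⟨hμ, fun σ => N10 p r hp (by omega) v c hc (moV v (zv c)) hμ ⟨σ0 0, σ0 1, ?_, h3⟩ σ⟩
  intro h
  have h4 : (0 : Fin 4) = 1 := σ0.injective h
  exact absurd h4 (by decide)

theorem A1_sne (σ : S4) {i j : Fin 4} (h : i ≠ j) : σ i ≠ σ j := fun h' => h (σ.injective h')

theorem A1 {K : Type*} [Field K] (p r : ℕ) [Fact p.Prime] [CharP K p] (hp : p = 3 * r + 1)
    (hr : 2 ≤ r) (S : PS K) (c : Cub K) (hc : (fP c.a ^ r).coeff (p - 1) = 0)
    (hpos : 0 < S.ht (zv c)) : ∃ (c' : Cub K) (s t : K), (s ≠ 0 ∨ t ≠ 0) ∧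
      S.ht (zv c') - S.ht (zt c') + S.ht (th c' s t) < 0 := by
  have hpp := (Fact.out : p.Prime)
  have hodd : Odd p := hpp.odd_of_ne_two (by omega)
  obtain ⟨G, hG⟩ : ∃ G, G = antid (lf c.a r 1 0) := ⟨_, rfl⟩
  obtain ⟨t, ht⟩ : ∃ t, t = - qf p c.a G (fun _ => 1) := ⟨_, rfl⟩
  obtain ⟨s, hs⟩ : ∃ s, s = - qf p c.a G (fun j => c.a j ^ p) := ⟨_, rfl⟩
  have hlf : lf c.a r 1 0 = fP c.a ^ r := by
    rw [lf, C_1, C_0, zero_mul, add_zero, one_mul]
  have hst : s ≠ 0 ∨ t ≠ 0 := by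
    by_contra h
    push Not at h
    have h5 := N5 p r (by omega) (by omega) (by omega) c.a c.inj 1 0 (by rw [hlf]; exact hc)
      (by rw [← hG]; rw [ht] at h; exact neg_eq_zero.mp h.2)
      (by rw [← hG]; rw [hs] at h; exact neg_eq_zero.mp h.1)
    exact one_ne_zero h5.1
  have hR : ∀ x : K, s - t * x = qf p c.a G (fun j => x - c.a j ^ p) := by
    intro x
    rw [hs, ht]
    exact A1_lin p c.a G x
  obtain ⟨c', hc'⟩ : ∃ c', c' = A1_fr p hodd c := ⟨_, rfl⟩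
  have hca : ∀ i, c'.a i = c.a i ^ p := fun i => by rw [hc']; rfl
  have hcz : ∀ i j, c'.z i j = c.z i j ^ p := fun i j => by rw [hc']; rfl
  refine ⟨c', s, t, hst, ?_⟩
  have hx : ∃ σ, zv c σ ≠ 0 := ⟨1, A1_z_ne c (by decide)⟩
  have hx2 : ∃ σ, zt c' σ ≠ 0 :=
    ⟨1, mul_ne_zero (pow_ne_zero _ (A1_z_ne c' (by decide))) (A1_z_ne c' (by decide))⟩
  have hx3 : ∃ σ, th c' s t σ ≠ 0 := by
    have hi : ∃ i, s - t * c'.a i ≠ 0 := by
      by_contra h
      push Not at h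
      have h0 := h 0
      have h1 := h 1
      have h2 : t * (c'.a 0 - c'.a 1) = 0 := by linear_combination h1 - h0
      have h3 : c'.a 0 - c'.a 1 ≠ 0 := fun h4 =>
        absurd (c'.inj (sub_eq_zero.mp h4)) (by decide)
      have h4 : t = 0 := (mul_eq_zero.mp h2).resolve_right h3
      rw [h4, zero_mul, sub_zero] at h0
      rcases hst with h5 | h5
      · exact h5 h0
      · exact h5 h4
    obtain ⟨i, hi⟩ := hi
    refine ⟨Equiv.swap 0 i, ?_⟩
    have e1 : c'.z (Equiv.swap 0 i 1) (Equiv.swap 0 i 2) ≠ 0 :=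
      A1_z_ne c' (A1_sne _ (by decide))
    have e2 : c'.z (Equiv.swap 0 i 2) (Equiv.swap 0 i 3) ≠ 0 :=
      A1_z_ne c' (A1_sne _ (by decide))
    have e3 : c'.z (Equiv.swap 0 i 3) (Equiv.swap 0 i 1) ≠ 0 :=
      A1_z_ne c' (A1_sne _ (by decide))
    have e0 : s - t * c'.a (Equiv.swap 0 i 0) ≠ 0 := by
      rw [Equiv.swap_apply_left]
      exact hi
    exact mul_ne_zero e0 (mul_ne_zero (mul_ne_zero (pow_ne_zero _ e1) e2) e3)
  have H1' : S.ht (zv c') = p * S.ht (zv c) := by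
    have e : zv c' = fun σ => zv c σ ^ p := by
      funext σ
      exact hcz _ _
    rw [e]
    exact H4 S (zv c) p hpp.ne_zero hx
  -- the twisted `zt`
  have H2' : (3 * p : ℤ) * S.ht (zv c) ≤ S.ht (zt c') := by
    have h := H9 S (zt c') (zv c) (zv c) (zv c) hx2 hx hx hx 1 0 0 (3 * p) 1 one_ne_zero (by
      intro i
      obtain ⟨hμ, hnc⟩ := A1_mu p r hp hr (S.v i) c hc
      obtain ⟨σ, hσ⟩ := N12 (S.v i) c _ hμ hnc
      have hz1 : c.z (σ 0) (σ 1) ≠ 0 := A1_z_ne c (A1_sne σ (by decide))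
      have hz2 : c.z (σ 2) (σ 3) ≠ 0 := A1_z_ne c (A1_sne σ (by decide))
      have hzt : zt c σ ≠ 0 := mul_ne_zero (pow_ne_zero _ hz1) hz2
      have e : zt c' σ = zt c σ ^ p := by
        show c'.z (σ 0) (σ 1) ^ 2 * c'.z (σ 2) (σ 3) = (c.z (σ 0) (σ 1) ^ 2 * c.z (σ 2) (σ 3)) ^ p
        rw [hcz, hcz]
        ring
      have h1 := (H0 (S.v i) (zt c') hx2).1 σ
      rcases h1 with h1 | h1
      · rw [e] at h1
        exact absurd h1 (pow_ne_zero _ hzt)
      · rw [e, A1_ord_pow _ hzt, hσ] at h1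
        rw [A1_ord_one]
        linarith)
    linarith
  have H3' : S.ht (th c' s t) ≤ (2 * p - 1 : ℤ) * S.ht (zv c) := by
    have h := H9 S (zv c) (zv c) (zv c) (th c' s t) hx hx hx hx3 (2 * p - 1) 0 0 1 1
      one_ne_zero (by
      intro i
      obtain ⟨hμ, hnc⟩ := A1_mu p r hp hr (S.v i) c hc
      have h1 := (H0 (S.v i) (th c' s t) hx3).2.2 ((2 * p - 1 : ℤ) * moV (S.v i) (zv c)) (by
        intro σ
        have hb := N4B1 p r hp hr (S.v i) c hc _ hμ hnc σ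
        rw [← hG, ← hR] at hb
        have e : th c' s t σ = ((s - t * c.a (σ 0) ^ p) * tri c σ ^ p) *
            c.z (σ 1) (σ 2) ^ p := by
          show (s - t * c'.a (σ 0)) * (c'.z (σ 1) (σ 2) ^ 2 * c'.z (σ 2) (σ 3) *
            c'.z (σ 3) (σ 1)) = _
          rw [hca, hcz, hcz, hcz, tri]
          ring
        have hz1 : c.z (σ 1) (σ 2) ≠ 0 := A1_z_ne c (A1_sne σ (by decide))
        rcases hb with hb | hb
        · left
          rw [e, hb, zero_mul]
        · by_cases h0 : (s - t * c.a (σ 0) ^ p) * tri c σ ^ p = 0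
          · left
            rw [e, h0, zero_mul]
          · right
            rw [e, (S.v i).ord_mul h0 (pow_ne_zero _ hz1), A1_ord_pow _ hz1]
            have h2 := hμ (σ 1) (σ 2) (A1_sne σ (by decide))
            have h3 := mul_le_mul_of_nonneg_left h2 (Int.natCast_nonneg p)
            linarith)
      rw [A1_ord_one]
      linarith)
    linarith
  rw [H1']
  have hfin : (p : ℤ) * S.ht (zv c) - (3 * p : ℤ) * S.ht (zv c) +
    (2 * p - 1 : ℤ) * S.ht (zv c) = - S.ht (zv c) := by ring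
  linarith

end NefMod
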