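import Pool.Agent.Helper729.NF.Defs
import Pool.Agent.Helper729.NF.P_N0

set_option autoImplicit false

open Polynomial

namespace NefMod



section N11aux
variable {K : Type*} [Field K]

theorem N11_ord_one (v : Val K) : v.ord 1 = 0 := by
  have h := v.ord_mul (f := 1) (g := 1) one_ne_zero one_ne_zero
  rw [mul_one] at h
  omega

theorem N11_ord_neg (v : Val K) (x : K) : v.ord (-x) = v.ord x := by
  have h1 : v.ord (-1) = 0 := by
    have h := v.ord_mul (f := -1) (g := -1) (neg_ne_zero.2 one_ne_zero) (neg_ne_zero.2 one_ne_zero)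
    rw [neg_mul_neg, mul_one, N11_ord_one] at h
    omega
  by_cases hx : x = 0
  · rw [hx, neg_zero]
  · have h := v.ord_mul (f := -1) (g := x) (neg_ne_zero.2 one_ne_zero) hx
    rw [neg_one_mul, h1] at h
    omega

theorem N11_ord_inv (v : Val K) {x : K} (hx : x ≠ 0) : v.ord (x⁻¹) = - v.ord x := by
  have h := v.ord_mul hx (inv_ne_zero hx)
  rw [mul_inv_cancel₀ hx, N11_ord_one] at h
  omega

theorem N11_ord_cube (v : Val K) {x : K} (hx : x ≠ 0) : v.ord (x ^ 3) = 3 * v.ord x := by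
  have h1 := v.ord_mul hx hx
  have h2 := v.ord_mul (mul_ne_zero hx hx) hx
  have e : x ^ 3 = x * x * x := by ring
  rw [e]
  omega

theorem N11_ge_add (v : Val K) {n : ℤ} {x y : K} (hx : v.Ge n x) (hy : v.Ge n y) :
    v.Ge n (x + y) := by
  rcases hx with hx | hx
  · rw [hx, zero_add]; exact hy
  rcases hy with hy | hy
  · rw [hy, add_zero]; exact Or.inr hx
  by_cases hx0 : x = 0
  · rw [hx0, zero_add]; exact Or.inr hy
  by_cases hy0 : y = 0
  · rw [hy0, add_zero]; exact Or.inr hx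
  by_cases h0 : x + y = 0
  · exact Or.inl h0
  · exact Or.inr (le_trans (le_min hx hy) (v.ord_add hx0 hy0 h0))

theorem N11_ge_mul (v : Val K) {n m : ℤ} {x y : K} (hx : v.Ge n x) (hy : v.Ge m y) :
    v.Ge (n + m) (x * y) := by
  rcases hx with hx | hx
  · rw [hx, zero_mul]; exact Or.inl rfl
  rcases hy with hy | hy
  · rw [hy, mul_zero]; exact Or.inl rfl
  by_cases hx0 : x = 0
  · rw [hx0, zero_mul]; exact Or.inl rfl
  by_cases hy0 : y = 0
  · rw [hy0, mul_zero]; exact Or.inl rfl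
  right
  rw [v.ord_mul hx0 hy0]
  omega

theorem N11_ge_neg (v : Val K) {n : ℤ} {x : K} (hx : v.Ge n x) : v.Ge n (-x) := by
  rcases hx with hx | hx
  · rw [hx, neg_zero]; exact Or.inl rfl
  · right
    rw [N11_ord_neg]
    exact hx

/-- the valuation ring -/
def N11O (v : Val K) : Subring K where
  carrier := {x | v.Ge 0 x}
  mul_mem' := fun {a b} ha hb => by
    have := N11_ge_mul v (show v.Ge 0 a from ha) (show v.Ge 0 b from hb)
    rw [add_zero] at this
    exact this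
  one_mem' := Or.inr (N11_ord_one v).ge
  add_mem' := fun {a b} ha hb => N11_ge_add v ha hb
  zero_mem' := Or.inl rfl
  neg_mem' := fun {a} ha => N11_ge_neg v ha

/-- the ideal of elements of positive order -/
def N11I (v : Val K) : Ideal (N11O v) where
  carrier := {x | v.Ge 1 (x : K)}
  add_mem' := fun {a b} ha hb => N11_ge_add v (show v.Ge 1 (a : K) from ha) (show v.Ge 1 (b : K) from hb)
  zero_mem' := Or.inl rfl
  smul_mem' := fun c x hx => by
    have := N11_ge_mul v (show v.Ge 0 (c : K) from c.2) (show v.Ge 1 (x : K) from hx)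
    rw [zero_add] at this
    exact this

/-- the invariant -/
noncomputable def N11Phi (p r : ℕ) {R : Type*} [CommRing R] (f : R[X]) : R :=
  (f ^ (2 * r + 1)).coeff (p - 1) * (f ^ r).coeff (p - 1) ^ p +
      (f ^ (2 * r + 1)).coeff (2 * p - 1) * (f ^ r).coeff (p - 2) ^ p

theorem N11Phi_map (p r : ℕ) {R S : Type*} [CommRing R] [CommRing S] (φ : R →+* S) (f : R[X]) :
    N11Phi p r (f.map φ) = φ (N11Phi p r f) := by
  unfold N11Phi
  simp only [← Polynomial.map_pow, coeff_map, map_add, map_mul, map_pow]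

theorem N11_key0 (p r : ℕ) (hp : p = 3 * r + 2) {S : Type*} [CommRing S] :
    N11Phi p r ((X : S[X]) * (X + C 0) * (X + C 0) * (X + 1)) = 1 := by
  have hQ : ((X : S[X]) * (X + C 0) * (X + C 0) * (X + 1)) = X ^ 3 * (X + 1) := by
    rw [C_0, add_zero]; ring
  have h0 : ∀ m : ℕ, (((X : S[X]) + 1) ^ m).coeff 0 = 1 := by
    intro m
    rw [coeff_zero_eq_eval_zero]
    simp
  unfold N11Phi
  rw [hQ, mul_pow, mul_pow, ← pow_mul, ← pow_mul]
  have e1 : ((X : S[X]) ^ (3 * (2 * r + 1)) * (X + 1) ^ (2 * r + 1)).coeff (p - 1) = 0 := by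
    rw [coeff_X_pow_mul', if_neg (by omega)]
  have e2 : ((X : S[X]) ^ (3 * (2 * r + 1)) * (X + 1) ^ (2 * r + 1)).coeff (2 * p - 1) = 1 := by
    rw [coeff_X_pow_mul', if_pos (by omega)]
    have : 2 * p - 1 - 3 * (2 * r + 1) = 0 := by omega
    rw [this, h0]
  have e3 : ((X : S[X]) ^ (3 * r) * (X + 1) ^ r).coeff (p - 2) = 1 := by
    rw [coeff_X_pow_mul', if_pos (by omega)]
    have : p - 2 - 3 * r = 0 := by omega
    rw [this, h0]
  rw [e1, e2, e3, zero_mul, zero_add, one_pow, mul_one]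

theorem N11_key (v : Val K) (p r : ℕ) (hp : p = 3 * r + 2) (β1 β2 : K) (h1 : v.Ge 1 β1)
    (h2 : v.Ge 1 β2) :
    N11Phi p r ((X : K[X]) * (X + C β1) * (X + C β2) * (X + 1)) ≠ 0 := by
  intro h0
  have g1 : v.Ge 0 β1 := by
    rcases h1 with h | h
    · exact Or.inl h
    · exact Or.inr (by omega)
  have g2 : v.Ge 0 β2 := by
    rcases h2 with h | h
    · exact Or.inl h
    · exact Or.inr (by omega)
  let b1 : N11O v := ⟨β1, g1⟩
  let b2 : N11O v := ⟨β2, g2⟩
  let Q : (N11O v)[X] := X * (X + C b1) * (X + C b2) * (X + 1)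
  have hm : Q.map (N11O v).subtype = (X : K[X]) * (X + C β1) * (X + C β2) * (X + 1) := by
    simp only [Q, Polynomial.map_mul, Polynomial.map_add, Polynomial.map_X, Polynomial.map_C,
      Polynomial.map_one]
    rfl
  have hz : N11Phi p r Q = 0 := by
    have h := N11Phi_map p r (N11O v).subtype Q
    rw [hm, h0] at h
    exact Subtype.ext h.symm
  have hq : Q.map (Ideal.Quotient.mk (N11I v)) =
      (X : (N11O v ⧸ N11I v)[X]) * (X + C 0) * (X + C 0) * (X + 1) := by
    have hb1 : Ideal.Quotient.mk (N11I v) b1 = 0 := Ideal.Quotient.eq_zero_iff_mem.2 h1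
    have hb2 : Ideal.Quotient.mk (N11I v) b2 = 0 := Ideal.Quotient.eq_zero_iff_mem.2 h2
    simp only [Q, Polynomial.map_mul, Polynomial.map_add, Polynomial.map_X, Polynomial.map_C,
      Polynomial.map_one, hb1, hb2]
  have h := N11Phi_map p r (Ideal.Quotient.mk (N11I v)) Q
  rw [hq, hz, N11_key0 p r hp, map_zero] at h
  have h3 : Ideal.Quotient.mk (N11I v) 1 = 0 := by rw [map_one]; exact h
  have h4 : (1 : N11O v) ∈ N11I v := Ideal.Quotient.eq_zero_iff_mem.1 h3
  have h5 : v.Ge 1 (1 : K) := h4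
  rcases h5 with h5 | h5
  · exact one_ne_zero h5
  · rw [N11_ord_one] at h5
    omega

theorem N11_scale (p r : ℕ) (hp : p = 3 * r + 2) (w : K) (f : K[X]) :
    N11Phi p r (f.comp (C w * X)) = w ^ (p * p - 1) * N11Phi p r f := by
  unfold N11Phi
  have hc : ∀ (g : K[X]) (n : ℕ), (g.comp (C w * X)).coeff n = w ^ n * g.coeff n := by
    intro g n
    rw [Polynomial.comp_C_mul_X_coeff, mul_comm]
  rw [← Polynomial.pow_comp, ← Polynomial.pow_comp]
  rw [hc, hc, hc, hc, mul_pow, mul_pow, ← pow_mul, ← pow_mul]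
  have e1 : p * p - 1 = (p - 1) + (p - 1) * p := by
    subst hp
    have : 3 * r + 2 - 1 = 3 * r + 1 := by omega
    rw [this]
    have h2 : (3 * r + 2) * (3 * r + 2) = (3 * r + 1) + (3 * r + 1) * (3 * r + 2) + 1 := by ring
    omega
  have e2 : p * p - 1 = (2 * p - 1) + (p - 2) * p := by
    subst hp
    have h1 : 3 * r + 2 - 2 = 3 * r := by omega
    have h1' : 2 * (3 * r + 2) - 1 = 6 * r + 3 := by omega
    rw [h1, h1']
    have h2 : (3 * r + 2) * (3 * r + 2) = (6 * r + 3) + (3 * r) * (3 * r + 2) + 1 := by ring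
    omega
  have e1' := congrArg (fun n => w ^ n) e1
  have e2' := congrArg (fun n => w ^ n) e2
  simp only [pow_add] at e1' e2'
  calc _ = (w ^ (p - 1) * w ^ ((p - 1) * p)) * ((f ^ (2 * r + 1)).coeff (p - 1) * (f ^ r).coeff (p - 1) ^ p)
      + (w ^ (2 * p - 1) * w ^ ((p - 2) * p)) * ((f ^ (2 * r + 1)).coeff (2 * p - 1) * (f ^ r).coeff (p - 2) ^ p) := by ring
    _ = _ := by rw [← e1', ← e2']; ring

theorem N11_smul (p r : ℕ) (u : K) (f : K[X]) :
    N11Phi p r (C u * f) = u ^ (2 * r + 1 + r * p) * N11Phi p r f := by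
  unfold N11Phi
  rw [mul_pow, mul_pow, ← C_pow, ← C_pow]
  simp only [coeff_C_mul]
  rw [mul_pow, mul_pow, pow_add, pow_mul]
  ring

theorem N11_trans (p r : ℕ) [Fact p.Prime] [CharP K p] (hp : p = 3 * r + 2) (hr : 1 ≤ r)
    (x : K) (f : K[X]) (hf : f.natDegree ≤ 4) :
    N11Phi p r (f.comp (X + C x)) = N11Phi p r f := by
  have hcomp : ∀ (g : K[X]) (y : K), (g.comp (X + C y)).natDegree = g.natDegree := by
    intro g y
    rw [natDegree_comp, natDegree_X_add_C, mul_one]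
  have hF : (f ^ (2 * r + 1)).natDegree ≤ 8 * r + 4 := by
    refine natDegree_pow_le.trans ?_
    nlinarith
  have hG : (f ^ r).natDegree ≤ 4 * r := by
    refine natDegree_pow_le.trans ?_
    nlinarith
  have hXG : (X * f ^ r).natDegree ≤ 4 * r + 1 := by
    refine natDegree_mul_le.trans ?_
    have := natDegree_X_le (R := K)
    omega
  -- values for F
  have NF : ∀ F : K[X], F.natDegree ≤ 8 * r + 4 → ∀ y : K, (F.comp (X + C y)).coeff (p - 1) =
      F.coeff (p - 1) + F.coeff (2 * p - 1) * y ^ p := by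
    intro F hF y
    rw [N0 p F (by omega) y, coeff_eq_zero_of_natDegree_lt (n := 3 * p - 1) (by omega),
      coeff_eq_zero_of_natDegree_lt (n := 4 * p - 1) (by omega)]
    ring
  have NG : ∀ F : K[X], F.natDegree ≤ 4 * r + 1 → ∀ y : K, (F.comp (X + C y)).coeff (p - 1) =
      F.coeff (p - 1) := by
    intro F hF y
    rw [NF F (by omega) y, coeff_eq_zero_of_natDegree_lt (n := 2 * p - 1) (by omega)]
    ring
  have c1 : ((f.comp (X + C x)) ^ (2 * r + 1)).coeff (p - 1) =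
      (f ^ (2 * r + 1)).coeff (p - 1) + (f ^ (2 * r + 1)).coeff (2 * p - 1) * x ^ p := by
    rw [← Polynomial.pow_comp]
    exact NF _ hF x
  have c2 : ((f.comp (X + C x)) ^ (2 * r + 1)).coeff (2 * p - 1) =
      (f ^ (2 * r + 1)).coeff (2 * p - 1) := by
    rw [← Polynomial.pow_comp]
    have ha := NF ((f ^ (2 * r + 1)).comp (X + C x)) (by rw [hcomp]; exact hF) 1
    have hb := NF (f ^ (2 * r + 1)) hF (x + 1)
    have hd := NF (f ^ (2 * r + 1)) hF x
    have he : ((f ^ (2 * r + 1)).comp (X + C x)).comp (X + C 1) =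
        (f ^ (2 * r + 1)).comp (X + C (x + 1)) := by
      rw [Polynomial.comp_assoc]
      congr 1
      simp only [add_comp, X_comp, C_comp, C_add]
      ring
    rw [he, hb, hd, add_pow_char, one_pow] at ha
    linear_combination -ha
  have g1 : ((f.comp (X + C x)) ^ r).coeff (p - 1) = (f ^ r).coeff (p - 1) := by
    rw [← Polynomial.pow_comp]
    exact NG _ (by omega) x
  have g2 : ((f.comp (X + C x)) ^ r).coeff (p - 2) =
      (f ^ r).coeff (p - 2) - x * (f ^ r).coeff (p - 1) := by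
    have ha := NG (X * f ^ r) hXG x
    rw [Polynomial.mul_comp, X_comp, Polynomial.pow_comp, add_mul, coeff_add, coeff_C_mul, g1] at ha
    have e : p - 1 = (p - 2) + 1 := by omega
    have e1 : (X * f.comp (X + C x) ^ r).coeff (p - 1) = (f.comp (X + C x) ^ r).coeff (p - 2) := by
      rw [e, coeff_X_mul]
    have e2 : (X * f ^ r).coeff (p - 1) = (f ^ r).coeff (p - 2) := by
      rw [e, coeff_X_mul]
    rw [e1, e2] at ha
    linear_combination ha
  unfold N11Phi
  rw [c1, c2, g1, g2, sub_pow_char, mul_pow]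
  ring

end N11aux

theorem N11 {K : Type*} [Field K] (p r : ℕ) [Fact p.Prime] [CharP K p] (hp : p = 3 * r + 2)
    (hr : 1 ≤ r) (v : Val K) (c : Cub K)
    (hc : (fP c.a ^ (2 * r + 1)).coeff (p - 1) * (fP c.a ^ r).coeff (p - 1) ^ p +
      (fP c.a ^ (2 * r + 1)).coeff (2 * p - 1) * (fP c.a ^ r).coeff (p - 2) ^ p = 0) (μ : ℤ)
    (hμ : ∀ i l, i ≠ l → μ ≤ v.ord (c.z i l)) (hμ' : ∃ i l, i ≠ l ∧ v.ord (c.z i l) = μ)
    (σ : S4) : v.ord (c.z (σ 1) (σ 2)) = μ ∨ v.ord (c.z (σ 2) (σ 3)) = μ ∨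
      v.ord (c.z (σ 3) (σ 1)) = μ := by
  by_contra hcon
  push Not at hcon
  obtain ⟨h12, h23, h31⟩ := hcon
  have hinj : ∀ i l, i ≠ l → c.a i - c.a l ≠ 0 := fun i l h => sub_ne_zero.2 (fun h' => h (c.inj h'))
  have hz : ∀ i l, i ≠ l → c.z i l ≠ 0 := by
    intro i l h h0
    apply hinj i l h
    rw [← c.cube, h0]
    ring
  have hord : ∀ i l, i ≠ l → v.ord (c.a i - c.a l) = 3 * v.ord (c.z i l) := by
    intro i l h
    rw [← c.cube, N11_ord_cube v (hz i l h)]
  have hsym : ∀ i l, v.ord (c.z l i) = v.ord (c.z i l) := by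
    intro i l
    rw [c.anti, N11_ord_neg]
  have s01 : σ 0 ≠ σ 1 := fun h => by simpa using σ.injective h
  have s02 : σ 0 ≠ σ 2 := fun h => by simpa using σ.injective h
  have s03 : σ 0 ≠ σ 3 := fun h => by simpa using σ.injective h
  have s12 : σ 1 ≠ σ 2 := fun h => by simpa using σ.injective h
  have s13 : σ 1 ≠ σ 3 := fun h => by simpa using σ.injective h
  have s23 : σ 2 ≠ σ 3 := fun h => by simpa using σ.injective h
  have m12 : μ + 1 ≤ v.ord (c.z (σ 1) (σ 2)) := by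
    have := hμ _ _ s12
    omega
  have m23 : μ + 1 ≤ v.ord (c.z (σ 2) (σ 3)) := by
    have := hμ _ _ s23
    omega
  have m13 : μ + 1 ≤ v.ord (c.z (σ 1) (σ 3)) := by
    have := hμ _ _ s13
    rw [hsym] at h31
    omega
  -- the order of `a_j - a_i` is `3 μ`
  have hult : ∀ k, k ≠ σ 0 → k ≠ σ 1 → μ + 1 ≤ v.ord (c.z (σ 1) k) →
      v.ord (c.z (σ 0) k) = μ → v.ord (c.z (σ 0) (σ 1)) = μ := by
    intro k hk0 hk1 hk h
    have h1 := hμ _ _ s01
    by_contra hne
    have h2 : μ + 1 ≤ v.ord (c.z (σ 0) (σ 1)) := by omega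
    have h3 := hord _ _ s01
    have h4 := hord _ _ hk1.symm
    have h5 := hord _ _ hk0.symm
    have h6 := v.ord_add (hinj _ _ s01) (hinj _ _ hk1.symm)
      (by rw [sub_add_sub_cancel]; exact hinj _ _ hk0.symm)
    rw [sub_add_sub_cancel, h3, h4, h5, h] at h6
    rcases le_total (3 * v.ord (c.z (σ 0) (σ 1))) (3 * v.ord (c.z (σ 1) k)) with h7 | h7
    · rw [min_eq_left h7] at h6
      omega
    · rw [min_eq_right h7] at h6
      omega
  have h01 : v.ord (c.z (σ 0) (σ 1)) = μ := by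
    obtain ⟨i, l, hil, hμil⟩ := hμ'
    obtain ⟨i', rfl⟩ := σ.surjective i
    obtain ⟨l', rfl⟩ := σ.surjective l
    have hsym' : ∀ i l, i ≠ l → v.ord (c.z (σ i) (σ l)) = μ → v.ord (c.z (σ l) (σ i)) = μ := by
      intro i l _ h
      rw [hsym]
      exact h
    have h02 : v.ord (c.z (σ 0) (σ 2)) = μ → v.ord (c.z (σ 0) (σ 1)) = μ :=
      hult _ s02.symm s12.symm m12
    have h03 : v.ord (c.z (σ 0) (σ 3)) = μ → v.ord (c.z (σ 0) (σ 1)) = μ :=
      hult _ s03.symm s13.symm m13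
    have h10 := hsym (σ 0) (σ 1)
    have h20 := hsym (σ 0) (σ 2)
    have h30 := hsym (σ 0) (σ 3)
    have h21 := hsym (σ 1) (σ 2)
    have h32 := hsym (σ 2) (σ 3)
    have h31' := hsym (σ 1) (σ 3)
    fin_cases i' <;> fin_cases l' <;> simp at hil hμil ⊢ <;> first
      | exact hμil
      | (exfalso; omega)
      | exact h02 hμil
      | exact h03 hμil
      | (rw [h10] at hμil; exact hμil)
      | (rw [h20] at hμil; exact h02 hμil)
      | (rw [h30] at hμil; exact h03 hμil)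
  -- set up
  have hw : c.a (σ 1) - c.a (σ 0) ≠ 0 := hinj _ _ s01.symm
  set w := c.a (σ 1) - c.a (σ 0) with hwdef
  clear_value w
  have how : v.ord w = 3 * μ := by
    rw [hwdef, hord _ _ s01.symm, hsym, h01]
  have hge : ∀ k, k ≠ σ 1 → μ + 1 ≤ v.ord (c.z (σ 1) k) → v.Ge 1 (w⁻¹ * (c.a (σ 1) - c.a k)) := by
    intro k hk h
    right
    rw [v.ord_mul (inv_ne_zero hw) (hinj _ _ hk.symm), N11_ord_inv v hw, how, hord _ _ hk.symm]
    omega
  have hge2 := hge (σ 2) s12.symm m12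
  have hge3 := hge (σ 3) s13.symm m13
  have hkey := N11_key v p r hp _ _ hge2 hge3
  have hdeg : (fP c.a).natDegree ≤ 4 := by
    unfold fP
    rw [natDegree_prod_of_monic _ _ (fun i _ => monic_X_sub_C _)]
    simp
  have h1 := N11_trans p r hp hr (c.a (σ 1)) (fP c.a) hdeg
  have h2 := N11_scale p r hp w ((fP c.a).comp (X + C (c.a (σ 1))))
  have h3 := N11_smul p r (w ^ 4) ((X : K[X]) * (X + C (w⁻¹ * (c.a (σ 1) - c.a (σ 2)))) *
    (X + C (w⁻¹ * (c.a (σ 1) - c.a (σ 3)))) * (X + 1))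
  have h4 : ((fP c.a).comp (X + C (c.a (σ 1)))).comp (C w * X) =
      C (w ^ 4) * ((X : K[X]) * (X + C (w⁻¹ * (c.a (σ 1) - c.a (σ 2)))) *
    (X + C (w⁻¹ * (c.a (σ 1) - c.a (σ 3)))) * (X + 1)) := by
    have hfp : fP c.a = ∏ j, (X - C (c.a (σ j))) := by
      unfold fP
      exact (Equiv.prod_comp σ (fun j => (X - C (c.a j)))).symm
    have hb : ∀ k, C w * X + C (c.a (σ 1)) - C (c.a k) = C w * (X + C (w⁻¹ * (c.a (σ 1) - c.a k))) := by
      intro k
      rw [mul_add, ← C_mul, mul_inv_cancel_left₀ hw, C_sub]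
      ring
    have h0 : C w * X + C (c.a (σ 1)) - C (c.a (σ 0)) = C w * (X + 1) := by
      rw [hb (σ 0), ← hwdef, inv_mul_cancel₀ hw, C_1]
    have h11 : C w * X + C (c.a (σ 1)) - C (c.a (σ 1)) = C w * X := by ring
    rw [hfp, Fin.prod_univ_four]
    simp only [mul_comp, sub_comp, add_comp, X_comp, C_comp]
    rw [hb (σ 2), hb (σ 3), h0, h11, C_pow]
    ring
  rw [h4, h3, h1] at h2
  have h5 : N11Phi p r (fP c.a) = 0 := hc
  rw [h5, mul_zero] at h2
  rcases mul_eq_zero.1 h2 with h6 | h6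
  · exact hw (pow_eq_zero_iff (by norm_num) |>.1 (pow_eq_zero_iff (by omega) |>.1 h6))
  · exact hkey h6

end NefMod
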