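import Pool.Agent.Helper729.NF.Defs
import Pool.Agent.Helper729.NF.P_N2
import Pool.Agent.Helper729.NF.P_N3
import Pool.Agent.Helper729.NF.P_N4

set_option autoImplicit false

open Polynomial

namespace NefMod



theorem N4B2_one {K : Type*} [Field K] (v : Val K) : v.ord 1 = 0 := by
  have h := v.ord_mul (one_ne_zero (α := K)) (one_ne_zero (α := K))
  rw [mul_one] at h
  linarith

theorem N4B2_neg {K : Type*} [Field K] (v : Val K) {x : K} (hx : x ≠ 0) :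
    v.ord (-x) = v.ord x := by
  have h1 : (-1 : K) ≠ 0 := neg_ne_zero.2 one_ne_zero
  have h := v.ord_mul h1 h1
  rw [neg_mul_neg, one_mul, N4B2_one] at h
  have h2 := v.ord_mul h1 hx
  rw [neg_one_mul] at h2
  linarith

theorem N4B2_pow {K : Type*} [Field K] (v : Val K) {x : K} (hx : x ≠ 0) (n : ℕ) :
    v.ord (x ^ n) = n * v.ord x := by
  induction n with
  | zero => rw [pow_zero, N4B2_one]; simp
  | succ n ih =>
    rw [pow_succ, v.ord_mul (pow_ne_zero n hx) hx, ih]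
    push_cast; ring

theorem N4B2_ge_add {K : Type*} [Field K] (v : Val K) {n : ℤ} {x y : K} (hx : v.Ge n x)
    (hy : v.Ge n y) : v.Ge n (x + y) := by
  rcases hx with rfl | hx
  · rwa [zero_add]
  by_cases hx0 : x = 0
  · rwa [hx0, zero_add]
  rcases hy with rfl | hy
  · rw [add_zero]; exact Or.inr hx
  by_cases hy0 : y = 0
  · rw [hy0, add_zero]; exact Or.inr hx
  by_cases h : x + y = 0
  · exact Or.inl h
  · exact Or.inr ((le_min hx hy).trans (v.ord_add hx0 hy0 h))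

theorem N4B2_ge_mul {K : Type*} [Field K] (v : Val K) {n k : ℤ} {x y : K} (hx : v.Ge n x)
    (hy : v.Ge k y) : v.Ge (n + k) (x * y) := by
  by_cases hx0 : x = 0
  · left; rw [hx0, zero_mul]
  by_cases hy0 : y = 0
  · left; rw [hy0, mul_zero]
  right
  have h1 := hx.resolve_left hx0
  have h2 := hy.resolve_left hy0
  rw [v.ord_mul hx0 hy0]
  linarith

theorem N4B2_ge_mono {K : Type*} [Field K] (v : Val K) {n k : ℤ} {x : K} (hx : v.Ge n x)
    (h : k ≤ n) : v.Ge k x := by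
  rcases hx with hx | hx
  · exact Or.inl hx
  · exact Or.inr (h.trans hx)

theorem N4B2_ge_div {K : Type*} [Field K] (v : Val K) {n : ℤ} {x y : K} (hy : y ≠ 0)
    (h : v.Ge n (x * y)) : v.Ge (n - v.ord y) x := by
  by_cases hx : x = 0
  · exact Or.inl hx
  right
  have h1 := h.resolve_left (mul_ne_zero hx hy)
  rw [v.ord_mul hx hy] at h1
  linarith

theorem N4B2_z {K : Type*} [Field K] (c : Cub K) {i j : Fin 4} (h : i ≠ j) : c.z i j ≠ 0 := by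
  intro h0
  have h1 := c.cube i j
  rw [h0, zero_pow (by norm_num)] at h1
  exact h (c.inj (sub_eq_zero.1 h1.symm))

theorem N4B2_symm {K : Type*} [Field K] (v : Val K) (c : Cub K) {i j : Fin 4} (h : i ≠ j) :
    v.ord (c.z j i) = v.ord (c.z i j) := by
  rw [c.anti i j]
  exact N4B2_neg v (N4B2_z c h)

theorem N4B2_tri {K : Type*} [Field K] (v : Val K) (c : Cub K) (τ : S4) :
    tri c τ ≠ 0 ∧ v.ord (tri c τ) = v.ord (c.z (τ 1) (τ 2)) + v.ord (c.z (τ 2) (τ 3)) +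
      v.ord (c.z (τ 3) (τ 1)) := by
  have h12 : c.z (τ 1) (τ 2) ≠ 0 := N4B2_z c (fun h => by simpa using τ.injective h)
  have h23 : c.z (τ 2) (τ 3) ≠ 0 := N4B2_z c (fun h => by simpa using τ.injective h)
  have h31 : c.z (τ 3) (τ 1) ≠ 0 := N4B2_z c (fun h => by simpa using τ.injective h)
  unfold tri
  refine ⟨mul_ne_zero (mul_ne_zero h12 h23) h31, ?_⟩
  rw [v.ord_mul (mul_ne_zero h12 h23) h31, v.ord_mul h12 h23]

theorem N4B2_sz {K : Type*} [Field K] (v : Val K) (c : Cub K) (τ : S4) :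
    sz v c = v.ord (c.z (τ 0) (τ 1)) + v.ord (c.z (τ 0) (τ 2)) + v.ord (c.z (τ 0) (τ 3)) +
      v.ord (c.z (τ 1) (τ 2)) + v.ord (c.z (τ 1) (τ 3)) + v.ord (c.z (τ 2) (τ 3)) := by
  obtain ⟨W, hW⟩ : ∃ W : Fin 4 → Fin 4 → ℤ, W = fun x y => if x = y then 0 else v.ord (c.z x y) :=
    ⟨_, rfl⟩
  have h1 : ∑ x, ∑ y, W (τ x) (τ y) = ∑ x, ∑ y, W x y := by
    rw [Equiv.sum_comp τ (fun x => ∑ y, W x (τ y))]
    exact Finset.sum_congr rfl (fun x _ => Equiv.sum_comp τ (fun y => W x y))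
  have hne : ∀ x y : Fin 4, x ≠ y → W x y = v.ord (c.z x y) := by
    intro x y h
    rw [hW]
    simp [h]
  have hsy : ∀ x y : Fin 4, W y x = W x y := by
    intro x y
    by_cases h : x = y
    · rw [h]
    · rw [hne y x (Ne.symm h), hne x y h, N4B2_symm v c h]
  have hd : ∀ x, W x x = 0 := by
    intro x; rw [hW]; simp
  have hτ : ∀ x y : Fin 4, x ≠ y → τ x ≠ τ y := fun x y h h2 => h (τ.injective h2)
  unfold sz
  rw [← hne _ _ (hτ 0 1 (by decide)), ← hne _ _ (hτ 0 2 (by decide)),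
    ← hne _ _ (hτ 0 3 (by decide)), ← hne _ _ (hτ 1 2 (by decide)),
    ← hne _ _ (hτ 1 3 (by decide)), ← hne _ _ (hτ 2 3 (by decide)),
    ← hne 0 1 (by decide), ← hne 0 2 (by decide), ← hne 0 3 (by decide), ← hne 1 2 (by decide),
    ← hne 1 3 (by decide), ← hne 2 3 (by decide)]
  simp only [Fin.sum_univ_four, hd] at h1
  rw [hsy 0 1, hsy 0 2, hsy 0 3, hsy 1 2, hsy 1 3, hsy 2 3, hsy (τ 0) (τ 1), hsy (τ 0) (τ 2),
    hsy (τ 0) (τ 3), hsy (τ 1) (τ 2), hsy (τ 1) (τ 3), hsy (τ 2) (τ 3)] at h1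
  linarith

theorem N4B2_antid0 {K : Type*} [Field K] (g : K[X]) : (antid g).eval 0 = 0 := by
  unfold antid
  rw [eval_finset_sum]
  exact Finset.sum_eq_zero (fun n _ => by simp [eval_monomial])

theorem N4B2_deg {K : Type*} [Field K] (a : Fin 4 → K) (r : ℕ) (u0 u1 : K) :
    (lf a r u0 u1).natDegree ≤ 4 * r + 1 := by
  unfold lf
  refine natDegree_mul_le.trans ?_
  have h1 : (C u0 + C u1 * X : K[X]).natDegree ≤ 1 := by
    rw [add_comm]
    exact natDegree_linear_le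
  have h2 : (fP a).natDegree ≤ 4 := by
    unfold fP
    refine (natDegree_prod_le _ _).trans ?_
    refine (Finset.sum_le_sum (fun j _ => (natDegree_X_sub_C_le (a j)))).trans ?_
    simp
  have h3 : (fP a ^ r).natDegree ≤ 4 * r := by
    refine natDegree_pow_le.trans ?_
    nlinarith
  omega

theorem N4B2_two {K : Type*} [Field K] (v : Val K) {x y w : K} (hx : x ≠ 0) (hy : y ≠ 0)
    (hw : w ≠ 0) (h : x ^ 3 + y ^ 3 + w ^ 3 = 0) (μ : ℤ) (h1 : v.ord x = μ) (h2 : μ ≤ v.ord y)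
    (h3 : μ ≤ v.ord w) : v.ord y = μ ∨ v.ord w = μ := by
  by_contra hcon
  push Not at hcon
  have h4 : μ < v.ord y := lt_of_le_of_ne h2 (Ne.symm hcon.1)
  have h5 : μ < v.ord w := lt_of_le_of_ne h3 (Ne.symm hcon.2)
  have h6 : y ^ 3 + w ^ 3 = -(x ^ 3) := by linear_combination h
  have h7 : y ^ 3 + w ^ 3 ≠ 0 := by
    rw [h6]; exact neg_ne_zero.2 (pow_ne_zero 3 hx)
  have h8 := v.ord_add (pow_ne_zero 3 hy) (pow_ne_zero 3 hw) h7
  rw [h6, N4B2_neg v (pow_ne_zero 3 hx), N4B2_pow v hx, N4B2_pow v hy, N4B2_pow v hw, h1] at h8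
  push_cast at h8
  rcases min_le_iff.1 h8 with h9 | h9 <;> linarith

/-- the main estimate after relabelling -/
theorem N4B2_core {K : Type*} [Field K] (p r : ℕ) [Fact p.Prime] [CharP K p] (hp : p = 3 * r + 2)
    (v : Val K) (c : Cub K) (u0 u1 : K) (hc : (lf c.a r u0 u1).coeff (p - 1) = 0)
    (μ m : ℤ) (hμ : ∀ i l, i ≠ l → μ ≤ v.ord (c.z i l))
    (hm : ∀ σ : S4, v.Ge m ((u0 + u1 * c.a (σ 0)) * tri c σ)) (τ : S4)
    (h23 : v.ord (c.z (τ 2) (τ 3)) = μ) (h31 : v.ord (c.z (τ 3) (τ 1)) = μ) :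
    v.Ge (m + (p - 2) * μ - sz v c + 2 * p * (v.ord (c.z (τ 1) (τ 2)) + 2 * μ))
      ((antid (lf c.a r u0 u1)).eval (c.a (τ 1)) * (c.a (τ 2) - c.a (τ 3)) ^ p +
      (antid (lf c.a r u0 u1)).eval (c.a (τ 2)) * (c.a (τ 3) - c.a (τ 1)) ^ p +
      (antid (lf c.a r u0 u1)).eval (c.a (τ 3)) * (c.a (τ 1) - c.a (τ 2)) ^ p) := by
  have hτ : ∀ x y : Fin 4, x ≠ y → τ x ≠ τ y := fun x y h h2 => h (τ.injective h2)
  have h13 : v.ord (c.z (τ 1) (τ 3)) = μ := by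
    rw [← h31]; exact N4B2_symm v c (hτ 3 1 (by decide))
  have h32 : v.ord (c.z (τ 3) (τ 2)) = μ := by
    rw [← h23]; exact N4B2_symm v c (hτ 2 3 (by decide))
  obtain ⟨V, hV⟩ : ∃ V, V = v.ord (c.z (τ 1) (τ 2)) := ⟨_, rfl⟩
  obtain ⟨A, hA⟩ : ∃ A, A = v.ord (c.z (τ 0) (τ 1)) := ⟨_, rfl⟩
  obtain ⟨B, hB⟩ : ∃ B, B = v.ord (c.z (τ 0) (τ 2)) := ⟨_, rfl⟩
  obtain ⟨D, hD⟩ : ∃ D, D = v.ord (c.z (τ 0) (τ 3)) := ⟨_, rfl⟩
  have hVμ : μ ≤ V := by rw [hV]; exact hμ _ _ (hτ 1 2 (by decide))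
  have hAμ : μ ≤ A := by rw [hA]; exact hμ _ _ (hτ 0 1 (by decide))
  have hBμ : μ ≤ B := by rw [hB]; exact hμ _ _ (hτ 0 2 (by decide))
  have hDμ : μ ≤ D := by rw [hD]; exact hμ _ _ (hτ 0 3 (by decide))
  have hsz : sz v c = A + B + D + V + μ + μ := by
    rw [N4B2_sz v c τ, ← hA, ← hB, ← hD, ← hV, h13, h23]
  -- bounds for the `Y`
  have hYl : v.Ge (m - (A + D + μ)) (u0 + u1 * c.a (τ 2)) := by
    have h1 := hm (τ * Equiv.swap 0 2)
    have e0 : (τ * Equiv.swap 0 2 : S4) 0 = τ 2 := by simp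
    have e1 : (τ * Equiv.swap 0 2 : S4) 1 = τ 1 := by
      rw [Equiv.Perm.mul_apply, Equiv.swap_apply_of_ne_of_ne (by decide) (by decide)]
    have e2 : (τ * Equiv.swap 0 2 : S4) 2 = τ 0 := by simp
    have e3 : (τ * Equiv.swap 0 2 : S4) 3 = τ 3 := by
      rw [Equiv.Perm.mul_apply, Equiv.swap_apply_of_ne_of_ne (by decide) (by decide)]
    obtain ⟨h2, h3⟩ := N4B2_tri v c (τ * Equiv.swap 0 2)
    have h4 := N4B2_ge_div v h2 h1
    rw [h3, e0, e1, e2, e3] at h4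
    rw [N4B2_symm v c (hτ 0 1 (by decide)), ← hA, ← hD, h31] at h4
    exact h4
  have hYk : v.Ge (m - (B + D + μ)) (u0 + u1 * c.a (τ 1)) := by
    have h1 := hm (τ * Equiv.swap 0 1)
    have e0 : (τ * Equiv.swap 0 1 : S4) 0 = τ 1 := by simp
    have e1 : (τ * Equiv.swap 0 1 : S4) 1 = τ 0 := by simp
    have e2 : (τ * Equiv.swap 0 1 : S4) 2 = τ 2 := by
      rw [Equiv.Perm.mul_apply, Equiv.swap_apply_of_ne_of_ne (by decide) (by decide)]
    have e3 : (τ * Equiv.swap 0 1 : S4) 3 = τ 3 := by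
      rw [Equiv.Perm.mul_apply, Equiv.swap_apply_of_ne_of_ne (by decide) (by decide)]
    obtain ⟨h2, h3⟩ := N4B2_tri v c (τ * Equiv.swap 0 1)
    have h4 := N4B2_ge_div v h2 h1
    rw [h3, e0, e1, e2, e3] at h4
    rw [N4B2_symm v c (hτ 0 3 (by decide)), ← hB, ← hD, h23] at h4
    exact N4B2_ge_mono v h4 (by linarith)
  have hYM : v.Ge (m - (A + B + V)) (u0 + u1 * c.a (τ 3)) := by
    have h1 := hm (τ * Equiv.swap 0 3)
    have e0 : (τ * Equiv.swap 0 3 : S4) 0 = τ 3 := by simp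
    have e1 : (τ * Equiv.swap 0 3 : S4) 1 = τ 1 := by
      rw [Equiv.Perm.mul_apply, Equiv.swap_apply_of_ne_of_ne (by decide) (by decide)]
    have e2 : (τ * Equiv.swap 0 3 : S4) 2 = τ 2 := by
      rw [Equiv.Perm.mul_apply, Equiv.swap_apply_of_ne_of_ne (by decide) (by decide)]
    have e3 : (τ * Equiv.swap 0 3 : S4) 3 = τ 0 := by simp
    obtain ⟨h2, h3⟩ := N4B2_tri v c (τ * Equiv.swap 0 3)
    have h4 := N4B2_ge_div v h2 h1
    rw [h3, e0, e1, e2, e3] at h4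
    rw [N4B2_symm v c (hτ 0 2 (by decide)), ← hB, ← hA, ← hV] at h4
    exact N4B2_ge_mono v h4 (by linarith)
  -- centre at `a_l`
  obtain ⟨α, β, hN2⟩ := N2 p (lf c.a r u0 u1) (by
    have := N4B2_deg c.a r u0 u1
    omega) hc (c.a (τ 2))
  have hfr : ∀ x y : K, (x - y) ^ p = x ^ p - y ^ p := fun x y => sub_pow_char x y
  have hS : (antid (lf c.a r u0 u1)).eval (c.a (τ 1)) * (c.a (τ 2) - c.a (τ 3)) ^ p +
      (antid (lf c.a r u0 u1)).eval (c.a (τ 2)) * (c.a (τ 3) - c.a (τ 1)) ^ p +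
      (antid (lf c.a r u0 u1)).eval (c.a (τ 3)) * (c.a (τ 1) - c.a (τ 2)) ^ p =
      (antid ((lf c.a r u0 u1).comp (X + C (c.a (τ 2))))).eval (c.a (τ 1) - c.a (τ 2)) *
        (c.a (τ 2) - c.a (τ 3)) ^ p +
      (antid ((lf c.a r u0 u1).comp (X + C (c.a (τ 2))))).eval (c.a (τ 3) - c.a (τ 2)) *
        (c.a (τ 1) - c.a (τ 2)) ^ p := by
    rw [hN2 (c.a (τ 1)), hN2 (c.a (τ 2)), hN2 (c.a (τ 3)), sub_self, N4B2_antid0, hfr, hfr, hfr]
    ring
  rw [hS]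
  have hcube : ∀ i j : Fin 4, i ≠ j → v.Ge (3 * p * v.ord (c.z i j)) ((c.a i - c.a j) ^ p) := by
    intro i j h
    right
    rw [← c.cube i j, ← pow_mul, N4B2_pow v (N4B2_z c h)]
    push_cast
    linarith
  have hg1 := N4B2_ge_mul v (N3 p v c r u0 u1 (τ 1) (τ 2) (hτ 1 2 (by decide)) μ
    (min (m - (B + D + μ)) (m - (A + D + μ))) hμ
    (N4B2_ge_mono v hYk (min_le_left _ _)) (N4B2_ge_mono v hYl (min_le_right _ _)))
    (hcube (τ 2) (τ 3) (hτ 2 3 (by decide)))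
  have hg2 := N4B2_ge_mul v (N3 p v c r u0 u1 (τ 3) (τ 2) (hτ 3 2 (by decide)) μ
    (min (m - (A + B + V)) (m - (A + D + μ))) hμ
    (N4B2_ge_mono v hYM (min_le_left _ _)) (N4B2_ge_mono v hYl (min_le_right _ _)))
    (hcube (τ 1) (τ 2) (hτ 1 2 (by decide)))
  have hp' : (p : ℤ) = 3 * r + 2 := by rw [hp]; push_cast; ring
  have hp0 : (0 : ℤ) ≤ p := Int.natCast_nonneg _
  refine N4B2_ge_add v (N4B2_ge_mono v hg1 ?_) (N4B2_ge_mono v hg2 ?_)
  · rw [h23, ← hV, hsz]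
    rcases min_choice (m - (B + D + μ)) (m - (A + D + μ)) with h | h
    · rw [h, hp']; nlinarith
    · rw [h, hp']; nlinarith
  · rw [h32, ← hV, hsz]
    have h5 : 0 ≤ (p : ℤ) * (V - μ) := mul_nonneg hp0 (by linarith)
    rcases min_choice (m - (A + B + V)) (m - (A + D + μ)) with h | h
    · rw [h]; rw [hp'] at h5 ⊢; nlinarith
    · rw [h]; rw [hp'] at h5 ⊢; nlinarith

theorem N4B2 {K : Type*} [Field K] (p r : ℕ) [Fact p.Prime] [CharP K p] (hp : p = 3 * r + 2)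
    (hr : 1 ≤ r) (v : Val K) (c : Cub K) (u0 u1 : K) (hc : (lf c.a r u0 u1).coeff (p - 1) = 0)
    (μ m : ℤ) (hμ : ∀ i l, i ≠ l → μ ≤ v.ord (c.z i l))
    (hnc : ∀ σ : S4, v.ord (c.z (σ 1) (σ 2)) = μ ∨ v.ord (c.z (σ 2) (σ 3)) = μ ∨
      v.ord (c.z (σ 3) (σ 1)) = μ)
    (hm : ∀ σ : S4, v.Ge m ((u0 + u1 * c.a (σ 0)) * tri c σ)) (σ : S4) :
    v.Ge (m + (p - 2) * μ - sz v c)
      (qf p c.a (antid (lf c.a r u0 u1)) (fun j => c.a (σ 0) ^ p - c.a j ^ p) * tri c σ ^ p) := by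
  have hp2 : p ≠ 2 := by omega
  have hN4 := N4 p hp2 c (antid (lf c.a r u0 u1)) σ
  have hσ : ∀ x y : Fin 4, x ≠ y → σ x ≠ σ y := fun x y h h2 => h (σ.injective h2)
  obtain ⟨htri, htrio⟩ := N4B2_tri v c σ
  have hz12 := N4B2_z c (hσ 1 2 (by decide))
  have hz23 := N4B2_z c (hσ 2 3 (by decide))
  have hz31 := N4B2_z c (hσ 3 1 (by decide))
  have hsum : c.z (σ 1) (σ 2) ^ 3 + c.z (σ 2) (σ 3) ^ 3 + c.z (σ 3) (σ 1) ^ 3 = 0 := by
    rw [c.cube, c.cube, c.cube]; ring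
  have hm12 := hμ _ _ (hσ 1 2 (by decide))
  have hm23 := hμ _ _ (hσ 2 3 (by decide))
  have hm31 := hμ _ _ (hσ 3 1 (by decide))
  have hcases : (v.ord (c.z (σ 2) (σ 3)) = μ ∧ v.ord (c.z (σ 3) (σ 1)) = μ) ∨
      (v.ord (c.z (σ 3) (σ 1)) = μ ∧ v.ord (c.z (σ 1) (σ 2)) = μ) ∨
      (v.ord (c.z (σ 1) (σ 2)) = μ ∧ v.ord (c.z (σ 2) (σ 3)) = μ) := by
    rcases hnc σ with h | h | h
    · rcases N4B2_two v hz12 hz23 hz31 hsum μ h hm23 hm31 with h2 | h2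
      · exact Or.inr (Or.inr ⟨h, h2⟩)
      · exact Or.inr (Or.inl ⟨h2, h⟩)
    · rcases N4B2_two v hz23 hz31 hz12 (by linear_combination hsum) μ h hm31 hm12 with h2 | h2
      · exact Or.inl ⟨h, h2⟩
      · exact Or.inr (Or.inr ⟨h2, h⟩)
    · rcases N4B2_two v hz31 hz12 hz23 (by linear_combination hsum) μ h hm12 hm23 with h2 | h2
      · exact Or.inr (Or.inl ⟨h, h2⟩)
      · exact Or.inl ⟨h2, h⟩
  have hmain : v.Ge (m + (p - 2) * μ - sz v c + 2 * p * v.ord (tri c σ))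
      ((antid (lf c.a r u0 u1)).eval (c.a (σ 1)) * (c.a (σ 2) - c.a (σ 3)) ^ p +
      (antid (lf c.a r u0 u1)).eval (c.a (σ 2)) * (c.a (σ 3) - c.a (σ 1)) ^ p +
      (antid (lf c.a r u0 u1)).eval (c.a (σ 3)) * (c.a (σ 1) - c.a (σ 2)) ^ p) := by
    rw [htrio]
    rcases hcases with ⟨h1, h2⟩ | ⟨h1, h2⟩ | ⟨h1, h2⟩
    · have h3 := N4B2_core p r hp v c u0 u1 hc μ m hμ hm σ h1 h2
      rw [h1, h2]
      refine N4B2_ge_mono v h3 (by linarith)
    · have e1 : (σ * (Equiv.swap 1 2 * Equiv.swap 2 3) : S4) 1 = σ 2 := by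
        rw [Equiv.Perm.mul_apply]; congr 1
      have e2 : (σ * (Equiv.swap 1 2 * Equiv.swap 2 3) : S4) 2 = σ 3 := by
        rw [Equiv.Perm.mul_apply]; congr 1
      have e3 : (σ * (Equiv.swap 1 2 * Equiv.swap 2 3) : S4) 3 = σ 1 := by
        rw [Equiv.Perm.mul_apply]; congr 1
      have h3 := N4B2_core p r hp v c u0 u1 hc μ m hμ hm (σ * (Equiv.swap 1 2 * Equiv.swap 2 3))
        (by rw [e2, e3]; exact h1) (by rw [e3, e1]; exact h2)
      rw [e1, e2, e3] at h3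
      rw [h1, h2]
      have h4 := N4B2_ge_mono v h3 (k := m + (p - 2) * μ - sz v c +
        2 * p * (μ + v.ord (c.z (σ 2) (σ 3)) + μ)) (by linarith)
      convert h4 using 1
      ring
    · have e1 : (σ * (Equiv.swap 1 3 * Equiv.swap 2 3) : S4) 1 = σ 3 := by
        rw [Equiv.Perm.mul_apply]; congr 1
      have e2 : (σ * (Equiv.swap 1 3 * Equiv.swap 2 3) : S4) 2 = σ 1 := by
        rw [Equiv.Perm.mul_apply]; congr 1
      have e3 : (σ * (Equiv.swap 1 3 * Equiv.swap 2 3) : S4) 3 = σ 2 := by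
        rw [Equiv.Perm.mul_apply]; congr 1
      have h3 := N4B2_core p r hp v c u0 u1 hc μ m hμ hm (σ * (Equiv.swap 1 3 * Equiv.swap 2 3))
        (by rw [e2, e3]; exact h1) (by rw [e3, e1]; exact h2)
      rw [e1, e2, e3] at h3
      rw [h1, h2]
      have h4 := N4B2_ge_mono v h3 (k := m + (p - 2) * μ - sz v c +
        2 * p * (μ + μ + v.ord (c.z (σ 3) (σ 1)))) (by linarith)
      convert h4 using 1
      ring
  rw [← hN4, show 3 * p = p + 2 * p by ring, pow_add, ← mul_assoc] at hmain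
  have h5 := N4B2_ge_div v (pow_ne_zero (2 * p) htri) hmain
  rw [N4B2_pow v htri] at h5
  refine N4B2_ge_mono v h5 ?_
  push_cast
  linarith

end NefMod
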