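import Pool.Agent.Helper729.NF.Defs
import Pool.Agent.Helper729.NF.P_N0

set_option autoImplicit false

open Polynomial

namespace NefMod



theorem N6_alg {K : Type*} [Field K] (b0 b1 b2 b3 c0 c1 c2 c3 : K) (h01 : b0 - b1 ≠ 0)
    (h02 : b0 - b2 ≠ 0) (h03 : b0 - b3 ≠ 0) (h12 : b1 - b2 ≠ 0) (h13 : b1 - b3 ≠ 0)
    (h23 : b2 - b3 ≠ 0) :
    (c0 + c1 * b0 + c2 * b0 ^ 2 + c3 * b0 ^ 3) / ((b0 - b1) * ((b0 - b2) * (b0 - b3))) +
    (c0 + c1 * b1 + c2 * b1 ^ 2 + c3 * b1 ^ 3) / ((b1 - b0) * ((b1 - b2) * (b1 - b3))) +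
    (c0 + c1 * b2 + c2 * b2 ^ 2 + c3 * b2 ^ 3) / ((b2 - b0) * ((b2 - b1) * (b2 - b3))) +
    (c0 + c1 * b3 + c2 * b3 ^ 2 + c3 * b3 ^ 3) / ((b3 - b0) * ((b3 - b1) * (b3 - b2))) = c3 := by
  have e1 : b1 - b0 = -(b0 - b1) := by ring
  have e2 : b2 - b0 = -(b0 - b2) := by ring
  have e3 : b3 - b0 = -(b0 - b3) := by ring
  have e4 : b2 - b1 = -(b1 - b2) := by ring
  have e5 : b3 - b1 = -(b1 - b3) := by ring
  have e6 : b3 - b2 = -(b2 - b3) := by ring
  rw [e1, e2, e3, e4, e5, e6]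
  field_simp
  ring

theorem N6 {K : Type*} [Field K] (p : ℕ) [Fact p.Prime] [CharP K p] (a : Fin 4 → K)
    (ha : Function.Injective a) (B : K[X]) (hB : B.natDegree < 4 * p) :
    ∑ j, (B.comp (X + C (a j))).coeff (p - 1) / den a j ^ p = B.coeff (4 * p - 1) := by
  classical
  have hp : p ≠ 0 := (Fact.out : p.Prime).ne_zero
  have hne : ∀ i j : Fin 4, i ≠ j → a i ^ p - a j ^ p ≠ 0 := by
    intro i j hij h
    rw [← sub_pow_char] at h
    exact hij (ha (sub_eq_zero.1 (pow_eq_zero_iff hp |>.1 h)))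
  have d0 : den a 0 ^ p = (a 0 ^ p - a 1 ^ p) * ((a 0 ^ p - a 2 ^ p) * (a 0 ^ p - a 3 ^ p)) := by
    have : (Finset.univ.erase (0 : Fin 4)) = {1, 2, 3} := by decide
    rw [den, this, Finset.prod_insert (by decide), Finset.prod_insert (by decide),
      Finset.prod_singleton, mul_pow, mul_pow, sub_pow_char, sub_pow_char, sub_pow_char]
  have d1 : den a 1 ^ p = (a 1 ^ p - a 0 ^ p) * ((a 1 ^ p - a 2 ^ p) * (a 1 ^ p - a 3 ^ p)) := by
    have : (Finset.univ.erase (1 : Fin 4)) = {0, 2, 3} := by decide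
    rw [den, this, Finset.prod_insert (by decide), Finset.prod_insert (by decide),
      Finset.prod_singleton, mul_pow, mul_pow, sub_pow_char, sub_pow_char, sub_pow_char]
  have d2 : den a 2 ^ p = (a 2 ^ p - a 0 ^ p) * ((a 2 ^ p - a 1 ^ p) * (a 2 ^ p - a 3 ^ p)) := by
    have : (Finset.univ.erase (2 : Fin 4)) = {0, 1, 3} := by decide
    rw [den, this, Finset.prod_insert (by decide), Finset.prod_insert (by decide),
      Finset.prod_singleton, mul_pow, mul_pow, sub_pow_char, sub_pow_char, sub_pow_char]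
  have d3 : den a 3 ^ p = (a 3 ^ p - a 0 ^ p) * ((a 3 ^ p - a 1 ^ p) * (a 3 ^ p - a 2 ^ p)) := by
    have : (Finset.univ.erase (3 : Fin 4)) = {0, 1, 2} := by decide
    rw [den, this, Finset.prod_insert (by decide), Finset.prod_insert (by decide),
      Finset.prod_singleton, mul_pow, mul_pow, sub_pow_char, sub_pow_char, sub_pow_char]
  have hN : ∀ j, (B.comp (X + C (a j))).coeff (p - 1) =
      B.coeff (p - 1) + B.coeff (2 * p - 1) * a j ^ p + B.coeff (3 * p - 1) * (a j ^ p) ^ 2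
        + B.coeff (4 * p - 1) * (a j ^ p) ^ 3 := by
    intro j
    rw [N0 p B hB (a j), ← pow_mul, ← pow_mul, mul_comm p 2, mul_comm p 3]
  simp only [Fin.sum_univ_four, hN, d0, d1, d2, d3]
  exact N6_alg _ _ _ _ _ _ _ _ (hne 0 1 (by decide)) (hne 0 2 (by decide)) (hne 0 3 (by decide))
    (hne 1 2 (by decide)) (hne 1 3 (by decide)) (hne 2 3 (by decide))

end NefMod
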