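import Pool.Agent.Helper729.NF.Defs
import Pool.Agent.Helper729.NF.P_N6

set_option autoImplicit false

open Polynomial

namespace NefMod



theorem N7 {K : Type*} [Field K] (p : ℕ) [Fact p.Prime] [CharP K p] (a : Fin 4 → K)
    (ha : Function.Injective a) (e : ℕ) (he : e ≤ p) (M h : K[X])
    (hM : ∀ j, (X - C (a j)) ^ e ∣ M - C (M.eval (a j)))
    (hB : (M * h * fP a ^ (p - e)).natDegree < 4 * p) :
    ∑ j, M.eval (a j) * ((h * fP a ^ (p - e)).comp (X + C (a j))).coeff (p - 1) / den a j ^ p =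
      (M * h * fP a ^ (p - e)).coeff (4 * p - 1) := by
  rw [← N6 p a ha _ hB]
  refine Finset.sum_congr rfl fun j _ => ?_
  congr 1
  have h1 : (X - C (a j)) ∣ fP a := Finset.dvd_prod_of_mem _ (Finset.mem_univ j)
  have h2 : (X - C (a j)) ^ p ∣ (M - C (M.eval (a j))) * (h * fP a ^ (p - e)) := by
    have h3 : (X - C (a j)) ^ p = (X - C (a j)) ^ e * (X - C (a j)) ^ (p - e) := by
      rw [← pow_add]; congr 1; omega
    rw [h3]
    exact mul_dvd_mul (hM j) (Dvd.dvd.mul_left (pow_dvd_pow_of_dvd h1 _) _)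
  obtain ⟨Q, hQ⟩ := h2
  have h4 : M * h * fP a ^ (p - e) = C (M.eval (a j)) * (h * fP a ^ (p - e)) +
      (X - C (a j)) ^ p * Q := by
    rw [← hQ]; ring
  have h5 : ((X - C (a j)) ^ p * Q).comp (X + C (a j)) = X ^ p * Q.comp (X + C (a j)) := by
    rw [mul_comp, pow_comp, sub_comp, X_comp, C_comp, add_sub_cancel_right]
  have hp : p - 1 < p := Nat.sub_lt (Fact.out : p.Prime).pos one_pos
  rw [h4, add_comp, h5, coeff_add, mul_comp (C (M.eval (a j))), C_comp, coeff_C_mul,
    coeff_X_pow_mul', if_neg (by omega), add_zero]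

end NefMod
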