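import Pool.Agent.Helper729.NF.Defs
import Pool.Agent.Helper729.NF.P_N0
import Pool.Agent.Helper729.NF.P_N1
import Pool.Agent.Helper729.NF.P_N7

set_option autoImplicit false

open Polynomial

namespace NefMod



theorem N8_dvd {K : Type*} [Field K] (p r : ℕ) [Fact p.Prime] [CharP K p] (hr : r < p) (H : K[X])
    (c : K) (h0 : H.eval c = 0) (hd : (X - C c) ^ r ∣ derivative H) : (X - C c) ^ (r + 1) ∣ H := by
  rw [X_sub_C_pow_dvd_iff, X_pow_dvd_iff] at hd ⊢
  intro n hn
  rcases n with _ | n
  · rw [coeff_zero_eq_eval_zero, eval_comp]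
    simpa using h0
  · have h1 := hd n (by omega)
    have h2 : derivative (H.comp (X + C c)) = (derivative H).comp (X + C c) := by
      rw [derivative_comp]
      simp
    rw [← h2, coeff_derivative] at h1
    rcases mul_eq_zero.mp h1 with h3 | h3
    · exact h3
    · exfalso
      have h4 : ((n + 1 : ℕ) : K) = 0 := by
        push_cast
        exact h3
      rw [CharP.cast_eq_zero_iff K p] at h4
      exact absurd (Nat.le_of_dvd (by omega) h4) (by omega)

theorem N8_deg {K : Type*} [Field K] (a : Fin 4 → K) (m : ℕ) :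
    (fP a ^ m).natDegree ≤ 4 * m := by
  have h1 : (fP a).natDegree ≤ 4 := by
    unfold fP
    refine (natDegree_prod_le _ _).trans ?_
    simp
  refine natDegree_pow_le.trans ?_
  nlinarith

theorem N8_lf_deg {K : Type*} [Field K] (a : Fin 4 → K) (r : ℕ) (u0 u1 : K) :
    (lf a r u0 u1).natDegree ≤ 4 * r + 1 := by
  unfold lf
  refine natDegree_mul_le.trans ?_
  have h1 := N8_deg a r
  have h2 : (C u0 + C u1 * X : K[X]).natDegree ≤ 1 := by
    refine (natDegree_add_le _ _).trans ?_
    simp only [natDegree_C, max_le_iff]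
    refine ⟨by omega, (natDegree_mul_le.trans ?_)⟩
    simp
  omega

theorem N8 {K : Type*} [Field K] (p r : ℕ) [Fact p.Prime] [CharP K p] (hp : p = 3 * r + 2)
    (hr : 1 ≤ r) (a : Fin 4 → K) (ha : Function.Injective a) (u0 u1 : K)
    (hc : (lf a r u0 u1).coeff (p - 1) = 0) :
    qf p a (antid (lf a r u0 u1)) (fun j => (fP a ^ (2 * r + 1)).coeff (p - 1) +
      (fP a ^ (2 * r + 1)).coeff (2 * p - 1) * a j ^ p) = 0 := by
  have hp0 : r + 1 ≤ p := by omega
  have hld := N8_lf_deg a r u0 u1
  obtain ⟨hG1, hG2⟩ := N1 p (lf a r u0 u1) (by omega) hc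
  have hM : ∀ j, (X - C (a j)) ^ (r + 1) ∣ antid (lf a r u0 u1) -
      C ((antid (lf a r u0 u1)).eval (a j)) := by
    intro j
    refine N8_dvd p r (by omega) _ (a j) (by simp) ?_
    rw [derivative_sub, derivative_C, sub_zero, hG1]
    unfold lf
    refine Dvd.dvd.mul_left (pow_dvd_pow_of_dvd ?_ r) _
    exact Finset.dvd_prod_of_mem _ (Finset.mem_univ j)
  have hpe : p - (r + 1) = 2 * r + 1 := by omega
  have hfd := N8_deg a (2 * r + 1)
  have hMd : (antid (lf a r u0 u1) * 1 * fP a ^ (p - (r + 1))).natDegree ≤ 12 * r + 6 := by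
    rw [hpe, mul_one]
    refine natDegree_mul_le.trans ?_
    omega
  have key := N7 p a ha (r + 1) hp0 (antid (lf a r u0 u1)) 1 hM (by omega)
  rw [coeff_eq_zero_of_natDegree_lt (by omega)] at key
  rw [← key]
  unfold qf
  refine Finset.sum_congr rfl fun j _ => ?_
  rw [hpe, one_mul, N0 p (fP a ^ (2 * r + 1)) (by omega) (a j),
    coeff_eq_zero_of_natDegree_lt (n := 3 * p - 1) (by omega),
    coeff_eq_zero_of_natDegree_lt (n := 4 * p - 1) (by omega)]
  ring

end NefMod
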