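import Pool.Agent.Helper729.NF.Defs
import Pool.Agent.Helper729.NF.P_N0
import Pool.Agent.Helper729.NF.P_N7

set_option autoImplicit false

open Polynomial

namespace NefMod



theorem N9_monic {K : Type*} [Field K] (a : Fin 4 → K) : (fP a).Monic := by
  unfold fP
  exact monic_prod_of_monic _ _ (fun j _ => monic_X_sub_C _)

theorem N9_natDegree {K : Type*} [Field K] (a : Fin 4 → K) : (fP a).natDegree = 4 := by
  unfold fP
  rw [natDegree_prod_of_monic _ _ (fun j _ => monic_X_sub_C _)]
  simp

theorem N9_natDegree_pow {K : Type*} [Field K] (a : Fin 4 → K) (m : ℕ) :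
    (fP a ^ m).natDegree = 4 * m := by
  rw [(N9_monic a).natDegree_pow, N9_natDegree, mul_comm]

theorem N9_antid_coeff {K : Type*} [Field K] (g : K[X]) (n : ℕ) :
    (antid g).coeff (n + 1) = g.coeff n / ((n + 1 : ℕ) : K) := by
  unfold antid
  rw [finsetSum_coeff]
  simp only [coeff_monomial]
  by_cases hn : n ≤ g.natDegree
  · rw [Finset.sum_eq_single n]
    · simp
    · intro b _ hb
      rw [if_neg]
      omega
    · intro h
      exact absurd (Finset.mem_range.2 (by omega)) h
  · rw [Finset.sum_eq_zero, coeff_eq_zero_of_natDegree_lt (by omega), zero_div]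
    intro b hb
    rw [if_neg]
    have := Finset.mem_range.1 hb
    omega

theorem N9_antid_deriv {K : Type*} [Field K] (g : K[X])
    (h : ∀ n : ℕ, ((n + 1 : ℕ) : K) = 0 → g.coeff n = 0) : derivative (antid g) = g := by
  ext n
  rw [coeff_derivative, N9_antid_coeff]
  by_cases hn : ((n + 1 : ℕ) : K) = 0
  · rw [h n hn, zero_div, zero_mul]
  · have : ((n : K) + 1) = ((n + 1 : ℕ) : K) := by push_cast; ring
    rw [this]
    exact div_mul_cancel₀ _ hn

theorem N9_dvd {K : Type*} [Field K] (p : ℕ) [Fact p.Prime] [CharP K p] (g : K[X]) (c : K) (m : ℕ)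
    (hm : m < p) (h0 : g.eval c = 0) (hd : (X - C c) ^ m ∣ derivative g) :
    (X - C c) ^ (m + 1) ∣ g := by
  rw [X_sub_C_pow_dvd_iff] at hd ⊢
  rw [X_pow_dvd_iff] at hd ⊢
  have hder : derivative (g.comp (X + C c)) = (derivative g).comp (X + C c) := by
    rw [derivative_comp]
    simp
  intro d hdm
  rcases d with _ | d
  · rw [coeff_zero_eq_eval_zero, eval_comp]
    simpa using h0
  · have h1 := hd d (by omega)
    rw [← hder, coeff_derivative] at h1
    rcases mul_eq_zero.1 h1 with h | h
    · exact h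
    · exfalso
      have h2 : ((d + 1 : ℕ) : K) = 0 := by push_cast; exact h
      rw [CharP.cast_eq_zero_iff K p] at h2
      have := Nat.le_of_dvd (by omega) h2
      omega

theorem N9 {K : Type*} [Field K] (p r : ℕ) [Fact p.Prime] [CharP K p] (hp : p = 3 * r + 2)
    (hr : 1 ≤ r) (a : Fin 4 → K) (ha : Function.Injective a)
    (h1 : (fP a ^ (2 * r + 1)).coeff (p - 1) = 0)
    (h2 : (fP a ^ (2 * r + 1)).coeff (2 * p - 1) = 0) :
    (fP a ^ r).coeff (p - 1) = 0 ∧ (fP a ^ r).coeff (p - 2) = 0 := by
  have hp5 : 5 ≤ p := by omega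
  set F := fP a ^ (2 * r + 1) with hF
  have hFd : F.natDegree = 8 * r + 4 := by rw [hF, N9_natDegree_pow]; ring
  set M := antid F with hM
  have hder : derivative M = F := by
    apply N9_antid_deriv
    intro n hn
    rw [CharP.cast_eq_zero_iff K p] at hn
    obtain ⟨k, hk⟩ := hn
    by_cases hn' : F.natDegree < n
    · exact coeff_eq_zero_of_natDegree_lt hn'
    · have hk3 : k < 3 := by
        by_contra hcon
        have : p * 3 ≤ p * k := Nat.mul_le_mul_left p (by omega)
        omega
      interval_cases k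
      · omega
      · have : n = p - 1 := by omega
        rw [this]
        exact h1
      · have : n = 2 * p - 1 := by omega
        rw [this]
        exact h2
  have hMdvd : ∀ j, (X - C (a j)) ^ (2 * r + 2) ∣ M - C (M.eval (a j)) := by
    intro j
    apply N9_dvd p _ _ (2 * r + 1) (by omega)
    · simp
    · rw [derivative_sub, derivative_C, sub_zero, hder, hF]
      apply pow_dvd_pow_of_dvd
      unfold fP
      exact Finset.dvd_prod_of_mem _ (Finset.mem_univ j)
  have hMd : M.natDegree ≤ 8 * r + 5 := by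
    apply natDegree_le_iff_coeff_eq_zero.2
    intro N hN
    obtain ⟨n, rfl⟩ : ∃ n, N = n + 1 := ⟨N - 1, by omega⟩
    rw [hM, N9_antid_coeff, coeff_eq_zero_of_natDegree_lt (by omega), zero_div]
  have hpe : p - (2 * r + 2) = r := by omega
  have key : ∀ h : K[X], h.natDegree ≤ 2 →
      (∑ j, M.eval (a j) / den a j ^ p) * (h * fP a ^ r).coeff (p - 1) =
        (M * h * fP a ^ r).coeff (4 * p - 1) := by
    intro h hh
    have hGd : (h * fP a ^ r).natDegree ≤ 4 * r + 2 := by
      refine natDegree_mul_le.trans ?_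
      rw [N9_natDegree_pow]
      omega
    have hdeg : (M * h * fP a ^ r).natDegree < 4 * p := by
      have t1 : (M * h * fP a ^ r).natDegree ≤ (M * h).natDegree + (fP a ^ r).natDegree :=
        natDegree_mul_le
      have t2 : (M * h).natDegree ≤ M.natDegree + h.natDegree := natDegree_mul_le
      rw [N9_natDegree_pow] at t1
      omega
    have h7 := N7 p a ha (2 * r + 2) (by omega) M h hMdvd (by rw [hpe]; exact hdeg)
    rw [hpe] at h7
    rw [← h7, Finset.sum_mul]
    apply Finset.sum_congr rfl
    intro j _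
    rw [N0 p (h * fP a ^ r) (by omega) (a j),
      coeff_eq_zero_of_natDegree_lt (show (h * fP a ^ r).natDegree < 2 * p - 1 by omega),
      coeff_eq_zero_of_natDegree_lt (show (h * fP a ^ r).natDegree < 3 * p - 1 by omega),
      coeff_eq_zero_of_natDegree_lt (show (h * fP a ^ r).natDegree < 4 * p - 1 by omega)]
    ring
  have k0 := key 1 (by simp)
  have k1 := key X (by rw [natDegree_X]; omega)
  have k2 := key (X ^ 2) (by rw [natDegree_X_pow])
  have r0 : (M * 1 * fP a ^ r).coeff (4 * p - 1) = 0 := by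
    apply coeff_eq_zero_of_natDegree_lt
    have t1 : (M * 1 * fP a ^ r).natDegree ≤ (M * 1).natDegree + (fP a ^ r).natDegree :=
      natDegree_mul_le
    rw [N9_natDegree_pow, mul_one] at t1
    rw [mul_one]
    omega
  have r1 : (M * X * fP a ^ r).coeff (4 * p - 1) = 0 := by
    apply coeff_eq_zero_of_natDegree_lt
    have t1 : (M * X * fP a ^ r).natDegree ≤ (M * X).natDegree + (fP a ^ r).natDegree :=
      natDegree_mul_le
    have t2 : (M * X).natDegree ≤ M.natDegree + (X : K[X]).natDegree := natDegree_mul_le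
    rw [N9_natDegree_pow] at t1
    rw [natDegree_X] at t2
    omega
  have hne : ((8 * r + 5 : ℕ) : K) ≠ 0 := by
    intro h
    rw [CharP.cast_eq_zero_iff K p] at h
    have h3 : p ∣ 8 * p - 3 * (8 * r + 5) := (Nat.dvd_sub (Dvd.intro_left 8 rfl) (h.mul_left 3))
    have h4 : 8 * p - 3 * (8 * r + 5) = 1 := by omega
    rw [h4] at h3
    have := Nat.le_of_dvd one_pos h3
    omega
  have r2 : (M * X ^ 2 * fP a ^ r).coeff (4 * p - 1) = 1 / ((8 * r + 5 : ℕ) : K) := by
    have e1 : M * X ^ 2 * fP a ^ r = (M * fP a ^ r) * X ^ 2 := by ring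
    have e2 : 4 * p - 1 = (12 * r + 5) + 2 := by omega
    rw [e1, e2, coeff_mul_X_pow]
    have e3 : 12 * r + 5 = (8 * r + 5) + 4 * r := by ring
    rw [e3, coeff_mul_add_eq_of_natDegree_le hMd (by rw [N9_natDegree_pow])]
    have e4 : (fP a ^ r).coeff (4 * r) = 1 := by
      have := ((N9_monic a).pow r).coeff_natDegree
      rwa [N9_natDegree_pow] at this
    have e5 : F.coeff (8 * r + 4) = 1 := by
      have := ((N9_monic a).pow (2 * r + 1)).coeff_natDegree
      rw [← hF, hFd] at this
      exact this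
    rw [e4, mul_one, hM, show 8 * r + 5 = (8 * r + 4) + 1 by ring, N9_antid_coeff, e5]
  rw [r0] at k0
  rw [r1] at k1
  rw [r2] at k2
  have hm0 : (∑ j, M.eval (a j) / den a j ^ p) ≠ 0 := by
    intro h
    rw [h, zero_mul] at k2
    exact (one_div_ne_zero hne) k2.symm
  constructor
  · rcases mul_eq_zero.1 k0 with h | h
    · exact absurd h hm0
    · simpa using h
  · rcases mul_eq_zero.1 k1 with h | h
    · exact absurd h hm0
    · have e : p - 1 = (p - 2) + 1 := by omega
      rw [e, mul_comm, coeff_mul_X] at h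
      exact h

end NefMod
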