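import Pool.Agent.Helper729.NF.Defs
import Pool.Agent.Helper729.NF.P_N4B2
import Pool.Agent.Helper729.NF.P_N5
import Pool.Agent.Helper729.NF.P_N8
import Pool.Agent.Helper729.NF.P_N9
import Pool.Agent.Helper729.NF.P_N11
import Pool.Agent.Helper729.NF.P_N12
import Pool.Agent.Helper729.NF.P_H0
import Pool.Agent.Helper729.NF.P_H1
import Pool.Agent.Helper729.NF.P_H9

set_option autoImplicit false

open Polynomial

namespace NefMod



theorem A2_ord_one {K : Type*} [Field K] (v : Val K) : v.ord 1 = 0 := by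
  have h := v.ord_mul (one_ne_zero (α := K)) (one_ne_zero (α := K))
  rw [mul_one] at h
  omega

theorem A2_ord_inv {K : Type*} [Field K] (v : Val K) {f : K} (hf : f ≠ 0) :
    v.ord f⁻¹ = - v.ord f := by
  have h := v.ord_mul hf (inv_ne_zero hf)
  rw [mul_inv_cancel₀ hf, A2_ord_one] at h
  omega

theorem A2_ord_pow {K : Type*} [Field K] (v : Val K) {f : K} (hf : f ≠ 0) (n : ℕ) :
    v.ord (f ^ n) = n * v.ord f := by
  induction n with
  | zero => simp [A2_ord_one]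
  | succ n ih =>
    rw [pow_succ, v.ord_mul (pow_ne_zero n hf) hf, ih]
    push_cast
    ring

theorem A2_z_ne {K : Type*} [Field K] (c : Cub K) {i j : Fin 4} (h : i ≠ j) : c.z i j ≠ 0 := by
  intro h0
  have h1 := c.cube i j
  rw [h0, zero_pow three_ne_zero] at h1
  exact h (c.inj (sub_eq_zero.1 h1.symm))

theorem A2_exists_perm (i l : Fin 4) (h : i ≠ l) : ∃ σ : S4, σ 0 = i ∧ σ 1 = l := by
  set τ : S4 := Equiv.swap 0 i with hτ
  have h0 : τ 0 = i := Equiv.swap_apply_left 0 i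
  have h1 : τ.symm l ≠ 0 := by
    intro h2
    apply h
    rw [← h0, ← h2]
    exact (τ.apply_symm_apply l)
  refine ⟨τ * Equiv.swap 1 (τ.symm l), ?_, ?_⟩
  · rw [Equiv.Perm.mul_apply, Equiv.swap_apply_of_ne_of_ne (by decide) (Ne.symm h1), h0]
  · rw [Equiv.Perm.mul_apply, Equiv.swap_apply_left]
    exact τ.apply_symm_apply l

theorem A2_qf_lin {K : Type*} [Field K] (p : ℕ) (a : Fin 4 → K) (G : K[X]) (A B : K)
    (h : Fin 4 → K) : qf p a G (fun j => A + B * h j) =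
      A * qf p a G (fun _ => 1) + B * qf p a G h := by
  unfold qf
  rw [Finset.mul_sum, Finset.mul_sum, ← Finset.sum_add_distrib]
  refine Finset.sum_congr rfl fun j _ => ?_
  ring

theorem A2 {K : Type*} [Field K] (p r : ℕ) [Fact p.Prime] [CharP K p] (hp : p = 3 * r + 2)
    (hr : 1 ≤ r) (S : PS K) (c : Cub K)
    (hc : (fP c.a ^ (2 * r + 1)).coeff (p - 1) * (fP c.a ^ r).coeff (p - 1) ^ p +
      (fP c.a ^ (2 * r + 1)).coeff (2 * p - 1) * (fP c.a ^ r).coeff (p - 2) ^ p = 0)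
    (hk : (fP c.a ^ r).coeff (p - 1) ≠ 0)
    (hpos : 0 < S.ht (zv c)) : ∃ (s t : K), (s ≠ 0 ∨ t ≠ 0) ∧
      S.ht (zv c) - S.ht (zt c) + S.ht (th c s t) < 0 := by
  have hp3 : 3 ≤ p := by omega
  have hodd : Odd p := (Fact.out : p.Prime).odd_of_ne_two (by omega)
  have hp2' : p - 1 = (p - 2) + 1 := by omega
  obtain ⟨u0, hu0⟩ : ∃ u0, u0 = (fP c.a ^ r).coeff (p - 2) := ⟨_, rfl⟩
  obtain ⟨u1, hu1⟩ : ∃ u1, u1 = - (fP c.a ^ r).coeff (p - 1) := ⟨_, rfl⟩
  have hu1' : (fP c.a ^ r).coeff (p - 1) = -u1 := by rw [hu1, neg_neg]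
  have hu1ne : u1 ≠ 0 := by rw [hu1]; exact neg_ne_zero.2 hk
  have hlf : (lf c.a r u0 u1).coeff (p - 1) = 0 := by
    unfold lf
    rw [hp2', add_mul, coeff_add, coeff_C_mul, mul_assoc, coeff_C_mul, coeff_X_mul, ← hp2', hu1',
      ← hu0]
    ring
  have hY : ∀ i, u0 - (-u1) * c.a i = u0 + u1 * c.a i := fun i => by ring
  obtain ⟨A, hA⟩ : ∃ A, A = (fP c.a ^ (2 * r + 1)).coeff (p - 1) := ⟨_, rfl⟩
  obtain ⟨B, hB⟩ : ∃ B, B = (fP c.a ^ (2 * r + 1)).coeff (2 * p - 1) := ⟨_, rfl⟩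
  have hAB : ¬ (A = 0 ∧ B = 0) := by
    rintro ⟨h1, h2⟩
    exact hk (N9 p r hp hr c.a c.inj (by rw [← hA]; exact h1) (by rw [← hB]; exact h2)).1
  have hc' := hc
  rw [← hA, ← hB, ← hu0, hu1', hodd.neg_pow] at hc'
  have hAu : A * u1 ^ p = B * u0 ^ p := by linear_combination (-1 : K) * hc'
  have hu1p : u1 ^ p ≠ 0 := pow_ne_zero p hu1ne
  have hBne : B ≠ 0 := by
    intro hB0
    rw [hB0, zero_mul] at hAu
    exact hAB ⟨(mul_eq_zero.1 hAu).resolve_right hu1p, hB0⟩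
  obtain ⟨q1, hq1⟩ : ∃ q1, q1 = qf p c.a (antid (lf c.a r u0 u1)) (fun _ => 1) := ⟨_, rfl⟩
  obtain ⟨qa, hqa⟩ : ∃ qa, qa = qf p c.a (antid (lf c.a r u0 u1)) (fun j => c.a j ^ p) := ⟨_, rfl⟩
  have h8 := N8 p r hp hr c.a c.inj u0 u1 hlf
  rw [← hA, ← hB, A2_qf_lin, ← hq1, ← hqa] at h8
  have hrel : u0 ^ p * q1 + u1 ^ p * qa = 0 := by
    have h1 : B * (u0 ^ p * q1 + u1 ^ p * qa) = 0 := by
      linear_combination u1 ^ p * h8 - q1 * hAu
    exact (mul_eq_zero.1 h1).resolve_left hBne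
  set ρ := q1 / u1 ^ p with hρ
  have hq1ρ : q1 = ρ * u1 ^ p := by rw [hρ, div_mul_cancel₀ _ hu1p]
  have hqaρ : qa = - (ρ * u0 ^ p) := by
    have h1 : u1 ^ p * (qa + ρ * u0 ^ p) = 0 := by
      rw [hq1ρ] at hrel
      linear_combination hrel
    have h2 := (mul_eq_zero.1 h1).resolve_left hu1p
    linear_combination h2
  have hρne : ρ ≠ 0 := by
    intro h0
    rw [h0, zero_mul] at hq1ρ
    rw [h0, zero_mul, neg_zero] at hqaρ
    have h5 := N5 p r (by omega) (by omega) (by omega) c.a c.inj u0 u1 hlf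
      (by rw [← hq1]; exact hq1ρ) (by rw [← hqa]; exact hqaρ)
    exact hu1ne h5.2
  have hR : ∀ i, qf p c.a (antid (lf c.a r u0 u1)) (fun j => c.a i ^ p - c.a j ^ p)
      = ρ * (u0 + u1 * c.a i) ^ p := by
    intro i
    have h1 : (fun j => c.a i ^ p - c.a j ^ p) = (fun j => c.a i ^ p + (-1) * c.a j ^ p) := by
      funext j; ring
    rw [h1, A2_qf_lin, ← hq1, ← hqa, add_pow_char, mul_pow, hqaρ, hq1ρ]
    ring
  -- the vectors
  set w : S4 → K := fun σ => (u0 + u1 * c.a (σ 0)) * tri c σ with hw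
  have hzvne : ∀ σ, zv c σ ≠ 0 := fun σ => A2_z_ne c (σ.injective.ne (by decide))
  have hztne : ∀ σ, zt c σ ≠ 0 := fun σ =>
    mul_ne_zero (pow_ne_zero 2 (A2_z_ne c (σ.injective.ne (by decide))))
      (A2_z_ne c (σ.injective.ne (by decide)))
  have htrine : ∀ σ, tri c σ ≠ 0 := fun σ =>
    mul_ne_zero (mul_ne_zero (A2_z_ne c (σ.injective.ne (by decide)))
      (A2_z_ne c (σ.injective.ne (by decide)))) (A2_z_ne c (σ.injective.ne (by decide)))
  have hexY : ∃ i l : Fin 4, i ≠ l ∧ u0 + u1 * c.a i ≠ 0 := by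
    by_cases h0 : u0 + u1 * c.a 0 = 0
    · refine ⟨1, 0, by decide, fun h1 => ?_⟩
      have h2 : u1 * (c.a 0 - c.a 1) = 0 := by linear_combination h0 - h1
      have h3 := (mul_eq_zero.1 h2).resolve_left hu1ne
      exact absurd (c.inj (sub_eq_zero.1 h3)) (by decide)
    · exact ⟨0, 1, by decide, h0⟩
  have hwex : ∃ σ, w σ ≠ 0 := by
    obtain ⟨i, l, hil, hi⟩ := hexY
    obtain ⟨σ, hσ, _⟩ := A2_exists_perm i l hil
    refine ⟨σ, mul_ne_zero ?_ (htrine σ)⟩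
    rw [hσ]; exact hi
  have hzvex : ∃ σ, zv c σ ≠ 0 := ⟨1, hzvne 1⟩
  have hztex : ∃ σ, zt c σ ≠ 0 := ⟨1, hztne 1⟩
  have hth : ∀ σ, th c u0 (-u1) σ = w σ * c.z (σ 1) (σ 2) := by
    intro σ
    simp only [th, hw, tri]
    ring
  have hthex : ∃ σ, th c u0 (-u1) σ ≠ 0 := by
    obtain ⟨σ, hσ⟩ := hwex
    exact ⟨σ, by rw [hth]; exact mul_ne_zero hσ (A2_z_ne c (σ.injective.ne (by decide)))⟩
  -- local data
  have hμ : ∀ i : S.I, ∀ k l, k ≠ l → moV (S.v i) (zv c) ≤ (S.v i).ord (c.z k l) := by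
    intro i k l hkl
    obtain ⟨σ, h1, h2⟩ := A2_exists_perm k l hkl
    have h3 := (H0 (S.v i) (zv c) hzvex).1 σ
    rcases h3 with h3 | h3
    · exact absurd h3 (hzvne σ)
    · simpa [zv, h1, h2] using h3
  have hμ' : ∀ i : S.I, ∃ k l, k ≠ l ∧ (S.v i).ord (c.z k l) = moV (S.v i) (zv c) := by
    intro i
    obtain ⟨σ, _, h2⟩ := (H0 (S.v i) (zv c) hzvex).2.1
    exact ⟨σ 0, σ 1, σ.injective.ne (by decide), h2⟩
  have hnc := fun i : S.I => N11 p r hp hr (S.v i) c hc (moV (S.v i) (zv c)) (hμ i) (hμ' i)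
  -- height of zt
  have ht1 : 3 * S.ht (zv c) ≤ S.ht (zt c) := by
    have h9 := H9 S (zt c) (zv c) (zv c) (zv c) hztex hzvex hzvex hzvex 1 0 0 3 1 one_ne_zero
      (fun i => by
        obtain ⟨σ, hσ⟩ := N12 (S.v i) c (moV (S.v i) (zv c)) (hμ i) (hnc i)
        have h1 := (H0 (S.v i) (zt c) hztex).1 σ
        rcases h1 with h1 | h1
        · exact absurd h1 (hztne σ)
        · rw [A2_ord_one]
          linarith)
    linarith
  -- height of w
  set P : K := c.z 0 1 * c.z 0 2 * c.z 0 3 * c.z 1 2 * c.z 1 3 * c.z 2 3 with hP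
  have z01 : c.z 0 1 ≠ 0 := A2_z_ne c (by decide)
  have z02 : c.z 0 2 ≠ 0 := A2_z_ne c (by decide)
  have z03 : c.z 0 3 ≠ 0 := A2_z_ne c (by decide)
  have z12 : c.z 1 2 ≠ 0 := A2_z_ne c (by decide)
  have z13 : c.z 1 3 ≠ 0 := A2_z_ne c (by decide)
  have z23 : c.z 2 3 ≠ 0 := A2_z_ne c (by decide)
  have hPne : P ≠ 0 := by
    rw [hP]
    exact mul_ne_zero (mul_ne_zero (mul_ne_zero (mul_ne_zero (mul_ne_zero z01 z02) z03) z12) z13) z23
  have hPord : ∀ v : Val K, v.ord P = sz v c := by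
    intro v
    rw [hP, v.ord_mul (mul_ne_zero (mul_ne_zero (mul_ne_zero (mul_ne_zero z01 z02) z03) z12) z13) z23,
      v.ord_mul (mul_ne_zero (mul_ne_zero (mul_ne_zero z01 z02) z03) z12) z13,
      v.ord_mul (mul_ne_zero (mul_ne_zero z01 z02) z03) z12,
      v.ord_mul (mul_ne_zero z01 z02) z03, v.ord_mul z01 z02]
    rfl
  have ht2 : ((p:ℤ) - 1) * S.ht w ≤ ((p:ℤ) - 2) * S.ht (zv c) := by
    have h9 := H9 S (zv c) (zv c) (zv c) w hzvex hzvex hzvex hwex ((p:ℤ) - 2) 0 0 ((p:ℤ) - 1)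
      (ρ * P)⁻¹ (inv_ne_zero (mul_ne_zero hρne hPne))
      (fun i => by
        obtain ⟨σ, hσ1, hσ2⟩ := (H0 (S.v i) w hwex).2.1
        have hge := (H0 (S.v i) w hwex).1
        have h4 := N4B2 p r hp hr (S.v i) c u0 u1 hlf (moV (S.v i) (zv c)) (moV (S.v i) w)
          (hμ i) (hnc i) hge σ
        rw [hR] at h4
        have e1 : ρ * (u0 + u1 * c.a (σ 0)) ^ p * tri c σ ^ p = ρ * w σ ^ p := by
          show ρ * (u0 + u1 * c.a (σ 0)) ^ p * tri c σ ^ p
            = ρ * ((u0 + u1 * c.a (σ 0)) * tri c σ) ^ p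
          rw [mul_pow, mul_assoc]
        rw [e1] at h4
        rw [A2_ord_inv _ (mul_ne_zero hρne hPne), (S.v i).ord_mul hρne hPne, hPord]
        rcases h4 with h4 | h4
        · exact absurd h4 (mul_ne_zero hρne (pow_ne_zero p hσ1))
        · rw [(S.v i).ord_mul hρne (pow_ne_zero p hσ1), A2_ord_pow _ hσ1, hσ2] at h4
          linarith)
    linarith
  -- height of theta
  have ht3 : S.ht (th c u0 (-u1)) ≤ S.ht w + S.ht (zv c) := by
    have h9 := H9 S w (zv c) (zv c) (th c u0 (-u1)) hwex hzvex hzvex hthex 1 1 0 1 1 one_ne_zero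
      (fun i => by
        rw [A2_ord_one]
        have h1 := (H0 (S.v i) (th c u0 (-u1)) hthex).2.2 (moV (S.v i) w + moV (S.v i) (zv c))
          (fun σ => by
            rw [hth]
            rcases (H0 (S.v i) w hwex).1 σ with h2 | h2
            · left; rw [h2, zero_mul]
            · by_cases hw0 : w σ = 0
              · left; rw [hw0, zero_mul]
              · right
                have hne : σ 1 ≠ σ 2 := σ.injective.ne (by decide)
                rw [(S.v i).ord_mul hw0 (A2_z_ne c hne)]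
                exact add_le_add h2 (hμ i _ _ hne))
        linarith)
    linarith
  refine ⟨u0, -u1, Or.inr (neg_ne_zero.2 hu1ne), ?_⟩
  have hpz : (3:ℤ) ≤ p := by exact_mod_cast hp3
  by_contra hcon
  push Not at hcon
  have hT : 0 ≤ - S.ht (zv c) + S.ht w := by linarith
  nlinarith

end NefMod
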