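import Pool.Agent.Helper729.NF.Defs

set_option autoImplicit false

open Polynomial

namespace NefMod



/-- `0 → 0, 1 → 3, 2 → 1, 3 → 2` -/
def c0t : S4 := ⟨![0, 3, 1, 2], ![0, 2, 3, 1], by decide, by decide⟩

noncomputable def c0P : Fin 4 → MvPolynomial Idx ℤ :=
  ![MvPolynomial.X (Sum.inl c0t), MvPolynomial.X (Sum.inl g1), MvPolynomial.X (Sum.inl g3), 0]

theorem c0_gen (i : Fin 4) :
    (MvPolynomial.aeval gen : MvPolynomial Idx ℤ →ₐ[ℤ] MvPolynomial Prm ℤ) (c0P i) =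
      pl 0 * (pa i - pa 3) := by
  have h0 : c0t 0 = 0 := rfl
  have h1 : c0t 1 = 3 := rfl
  have h2 : g1 0 = 1 := rfl
  have h3 : g1 1 = 3 := rfl
  have h4 : g3 0 = 2 := rfl
  have h5 : g3 1 = 3 := rfl
  fin_cases i
  · show (MvPolynomial.aeval gen : MvPolynomial Idx ℤ →ₐ[ℤ] MvPolynomial Prm ℤ)
      (MvPolynomial.X (Sum.inl c0t)) = pl 0 * (pa 0 - pa 3)
    rw [MvPolynomial.aeval_X]
    simp only [gen, Sum.elim_inl, al, h0, h1]
  · show (MvPolynomial.aeval gen : MvPolynomial Idx ℤ →ₐ[ℤ] MvPolynomial Prm ℤ)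
      (MvPolynomial.X (Sum.inl g1)) = pl 0 * (pa 1 - pa 3)
    rw [MvPolynomial.aeval_X]
    simp only [gen, Sum.elim_inl, al, h2, h3]
  · show (MvPolynomial.aeval gen : MvPolynomial Idx ℤ →ₐ[ℤ] MvPolynomial Prm ℤ)
      (MvPolynomial.X (Sum.inl g3)) = pl 0 * (pa 2 - pa 3)
    rw [MvPolynomial.aeval_X]
    simp only [gen, Sum.elim_inl, al, h4, h5]
  · show (MvPolynomial.aeval gen : MvPolynomial Idx ℤ →ₐ[ℤ] MvPolynomial Prm ℤ)
      0 = pl 0 * (pa 3 - pa 3)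
    rw [map_zero, sub_self, mul_zero]

theorem c0_rel {K : Type*} [Field K] (x : MPoint K) (F : MvPolynomial Idx ℤ)
    (h : (MvPolynomial.aeval gen : MvPolynomial Idx ℤ →ₐ[ℤ] MvPolynomial Prm ℤ) F = 0) :
    MvPolynomial.aeval (Sum.elim x.A (Sum.elim x.Y (Sum.elim x.P x.W)) : Idx → K) F = 0 :=
  x.mem F (by
    unfold modelIdeal
    rw [RingHom.mem_ker]
    exact h)

theorem C0 {K : Type*} [Field K] (x : MPoint K) : ∃ a : Fin 4 → K, x.A = al a ∧ a ≠ 0 ∧ a 3 = 0 := by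
  obtain ⟨a, ha⟩ : ∃ a : Fin 4 → K, a = fun i =>
      MvPolynomial.aeval (Sum.elim x.A (Sum.elim x.Y (Sum.elim x.P x.W)) : Idx → K) (c0P i) :=
    ⟨_, rfl⟩
  have hA : x.A = al a := by
    funext σ
    have h1 := c0_rel x (MvPolynomial.X (Sum.inl σ) - (c0P (σ 0) - c0P (σ 1))) (by
      rw [map_sub, map_sub, c0_gen, c0_gen, MvPolynomial.aeval_X]
      simp only [gen, Sum.elim_inl, al]
      ring)
    rw [map_sub, map_sub, MvPolynomial.aeval_X, Sum.elim_inl] at h1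
    have h2 : x.A σ - (a (σ 0) - a (σ 1)) = 0 := by
      rw [ha]
      exact h1
    exact sub_eq_zero.1 h2
  refine ⟨a, hA, ?_, ?_⟩
  · intro h0
    apply x.hA
    rw [hA, h0]
    funext σ
    simp [al]
  · rw [ha]
    show MvPolynomial.aeval (Sum.elim x.A (Sum.elim x.Y (Sum.elim x.P x.W)) : Idx → K)
      (0 : MvPolynomial Idx ℤ) = 0
    rw [map_zero]

end NefMod
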