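import Pool.Agent.Helper729.NF.Defs

set_option autoImplicit false

open Polynomial

namespace NefMod



theorem C1 {K : Type*} [Field K] (x : MPoint K) (a : Fin 4 → K) (ha : x.A = al a) (σ τ : S4) :
    x.P σ * pv a τ = x.P τ * pv a σ := by
  have e0 : ∀ τ : S4, (τ * g3) 0 = τ 2 := fun τ => rfl
  have e1 : ∀ τ : S4, (τ * g3) 1 = τ 3 := fun τ => rfl
  have hmem : (MvPolynomial.X (Sum.inr (Sum.inr (Sum.inl σ))) *
      (MvPolynomial.X (Sum.inl τ) ^ 2 * MvPolynomial.X (Sum.inl (τ * g3))) -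
      MvPolynomial.X (Sum.inr (Sum.inr (Sum.inl τ))) *
      (MvPolynomial.X (Sum.inl σ) ^ 2 * MvPolynomial.X (Sum.inl (σ * g3))) :
      MvPolynomial Idx ℤ) ∈ modelIdeal := by
    unfold modelIdeal
    rw [RingHom.mem_ker]
    show MvPolynomial.aeval gen _ = 0
    simp only [map_sub, map_mul, map_pow, MvPolynomial.aeval_X, gen, Sum.elim_inl, Sum.elim_inr,
      pv, al, e0, e1]
    ring
  have h := x.mem _ hmem
  simp only [map_sub, map_mul, map_pow, MvPolynomial.aeval_X, Sum.elim_inl, Sum.elim_inr,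
      ha, al, e0, e1] at h
  unfold pv
  exact sub_eq_zero.1 h

end NefMod
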