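import Pool.Agent.Helper729.NF.Defs

set_option autoImplicit false

open Polynomial

namespace NefMod



theorem exists_perm01 : ∀ i j : Fin 4, i ≠ j → ∃ σ : S4, σ 0 = i ∧ σ 1 = j := by
  decide

theorem relYA {K : Type*} [Field K] (x : MPoint K) (σ τ : S4) :
    (x.Y (σ 0) - x.Y (σ 1)) * x.A τ = (x.Y (τ 0) - x.Y (τ 1)) * x.A σ := by
  have h := x.mem
    ((MvPolynomial.X (Sum.inr (Sum.inl (σ 0))) - MvPolynomial.X (Sum.inr (Sum.inl (σ 1)))) *
        MvPolynomial.X (Sum.inl τ) -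
      (MvPolynomial.X (Sum.inr (Sum.inl (τ 0))) - MvPolynomial.X (Sum.inr (Sum.inl (τ 1)))) *
        MvPolynomial.X (Sum.inl σ)) ?_
  · simp only [map_sub, map_mul, MvPolynomial.aeval_X, Sum.elim_inl, Sum.elim_inr] at h
    exact sub_eq_zero.mp h
  · rw [modelIdeal, RingHom.mem_ker]
    simp only [AlgHom.toRingHom_eq_coe, RingHom.coe_coe, map_sub, map_mul, MvPolynomial.aeval_X,
      gen, Sum.elim_inl, Sum.elim_inr, al]
    ring

theorem C2 {K : Type*} [Field K] (x : MPoint K) (a : Fin 4 → K) (ha : x.A = al a) :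
    ∃ s t : K, (s ≠ 0 ∨ t ≠ 0) ∧ x.Y = fun i => s - t * a i := by
  obtain ⟨τ, hτ⟩ : ∃ τ, x.A τ ≠ 0 := by
    by_contra hcon
    push Not at hcon
    exact x.hA (funext hcon)
  have hA : ∀ σ, x.A σ = a (σ 0) - a (σ 1) := fun σ => by rw [ha]; rfl
  have hτ' : a (τ 0) - a (τ 1) ≠ 0 := by rw [← hA]; exact hτ
  set t : K := -(x.Y (τ 0) - x.Y (τ 1)) / (a (τ 0) - a (τ 1)) with ht
  set s : K := x.Y (τ 0) + t * a (τ 0) with hs
  have htm : t * (a (τ 0) - a (τ 1)) = -(x.Y (τ 0) - x.Y (τ 1)) := by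
    rw [ht]; field_simp
  have key : ∀ i, x.Y i = s - t * a i := by
    intro i
    by_cases hi : i = τ 0
    · subst hi
      rw [hs]; ring
    · obtain ⟨σ, h0, h1⟩ := exists_perm01 i (τ 0) hi
      have h := relYA x σ τ
      rw [hA, hA, h0, h1] at h
      have h2 : (x.Y i - x.Y (τ 0)) = -t * (a i - a (τ 0)) := by
        apply mul_right_cancel₀ hτ'
        rw [h]
        linear_combination (a i - a (τ 0)) * htm
      rw [hs]
      linear_combination h2
  refine ⟨s, t, ?_, funext key⟩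
  by_contra hcon
  push Not at hcon
  apply x.hY
  funext i
  rw [key i, hcon.1, hcon.2]
  simp

end NefMod
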