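import Pool.Agent.Helper729.NF.Defs

set_option autoImplicit false

open Polynomial

namespace NefMod


/-- `0 → 3, 1 → 1, 2 → 0, 3 → 2` -/
def C3u : S4 := ⟨![3, 1, 0, 2], ![2, 1, 3, 0], by decide, by decide⟩

/-- the relation -/
noncomputable def C3F (σ τ : S4) : MvPolynomial Idx ℤ :=
  MvPolynomial.X (Sum.inr (Sum.inr (Sum.inr σ))) * (MvPolynomial.X (Sum.inr (Sum.inl (τ 0)))) ^ 3 *
    ((MvPolynomial.X (Sum.inl (τ * g7))) ^ 2 * MvPolynomial.X (Sum.inl (τ * g3)) *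
      MvPolynomial.X (Sum.inl (τ * C3u)))

theorem C3_g7 {R : Type*} [CommRing R] (a : Fin 4 → R) (τ : S4) :
    al a (τ * g7) = a (τ 1) - a (τ 2) := rfl
theorem C3_g3 {R : Type*} [CommRing R] (a : Fin 4 → R) (τ : S4) :
    al a (τ * g3) = a (τ 2) - a (τ 3) := rfl
theorem C3_u {R : Type*} [CommRing R] (a : Fin 4 → R) (τ : S4) :
    al a (τ * C3u) = a (τ 3) - a (τ 1) := rfl

theorem C3_gen (σ τ : S4) : MvPolynomial.aeval gen (C3F σ τ) =
    (pl 3 * ov pa ps pt σ) * (pl 1 * (ps - pt * pa (τ 0))) ^ 3 *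
      ((pl 0 * (pa (τ 1) - pa (τ 2))) ^ 2 * (pl 0 * (pa (τ 2) - pa (τ 3))) *
        (pl 0 * (pa (τ 3) - pa (τ 1)))) := by
  unfold C3F
  simp only [map_mul, map_pow, MvPolynomial.aeval_X]
  rfl

theorem C3_pt {K : Type*} [Field K] (x : MPoint K) (a : Fin 4 → K) (ha : x.A = al a) (s t : K)
    (hY : x.Y = fun i => s - t * a i) (σ τ : S4) :
    MvPolynomial.aeval (Sum.elim x.A (Sum.elim x.Y (Sum.elim x.P x.W)) : Idx → K) (C3F σ τ) =
      x.W σ * ov a s t τ := by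
  unfold C3F
  simp only [map_mul, map_pow, MvPolynomial.aeval_X, Sum.elim_inl, Sum.elim_inr]
  rw [ha, hY, C3_g7, C3_g3, C3_u]
  unfold ov
  ring

theorem C3 {K : Type*} [Field K] (x : MPoint K) (a : Fin 4 → K) (ha : x.A = al a) (s t : K)
    (hY : x.Y = fun i => s - t * a i) (σ τ : S4) : x.W σ * ov a s t τ = x.W τ * ov a s t σ := by
  have hmem : C3F σ τ - C3F τ σ ∈ modelIdeal := by
    unfold modelIdeal
    rw [RingHom.mem_ker]
    show MvPolynomial.aeval gen (C3F σ τ - C3F τ σ) = 0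
    rw [map_sub, C3_gen, C3_gen]
    unfold ov
    ring
  have h := x.mem _ hmem
  rw [map_sub, C3_pt x a ha s t hY, C3_pt x a ha s t hY, sub_eq_zero] at h
  exact h

end NefMod
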