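import Pool.Agent.Helper729.NF.Defs

set_option autoImplicit false

open Polynomial

namespace NefMod



theorem C4a_aux_rel {K : Type*} [Field K] (x : MPoint K) (F : MvPolynomial Idx ℤ)
    (h : MvPolynomial.aeval gen F = 0) :
    MvPolynomial.aeval (Sum.elim x.A (Sum.elim x.Y (Sum.elim x.P x.W)) : Idx → K) F = 0 := by
  apply x.mem
  unfold modelIdeal
  rw [RingHom.mem_ker]
  exact h

noncomputable def C4a_XA (σ : S4) : MvPolynomial Idx ℤ := MvPolynomial.X (Sum.inl σ)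
noncomputable def C4a_XP (σ : S4) : MvPolynomial Idx ℤ :=
  MvPolynomial.X (Sum.inr (Sum.inr (Sum.inl σ)))
noncomputable def C4a_XW (σ : S4) : MvPolynomial Idx ℤ :=
  MvPolynomial.X (Sum.inr (Sum.inr (Sum.inr σ)))

theorem C4a {K : Type*} [Field K] (x : MPoint K) (σ : S4) :
    x.P (σ * Equiv.swap 0 1) = x.P σ ∧ x.P (σ * Equiv.swap 2 3) = - x.P σ ∧
    x.W (σ * Equiv.swap 1 2) = x.W σ ∧ x.P σ * x.A (σ * g3) = x.P (σ * g3) * x.A σ ∧
    x.W σ * x.A (σ * g3) = x.W (σ * rho) * x.A (σ * g7) := by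
  have s010 : Equiv.swap (0 : Fin 4) 1 0 = 1 := by decide
  have s011 : Equiv.swap (0 : Fin 4) 1 1 = 0 := by decide
  have s012 : Equiv.swap (0 : Fin 4) 1 2 = 2 := by decide
  have s013 : Equiv.swap (0 : Fin 4) 1 3 = 3 := by decide
  have s230 : Equiv.swap (2 : Fin 4) 3 0 = 0 := by decide
  have s231 : Equiv.swap (2 : Fin 4) 3 1 = 1 := by decide
  have s232 : Equiv.swap (2 : Fin 4) 3 2 = 3 := by decide
  have s233 : Equiv.swap (2 : Fin 4) 3 3 = 2 := by decide
  have s120 : Equiv.swap (1 : Fin 4) 2 0 = 0 := by decide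
  have s121 : Equiv.swap (1 : Fin 4) 2 1 = 2 := by decide
  have s122 : Equiv.swap (1 : Fin 4) 2 2 = 1 := by decide
  have s123 : Equiv.swap (1 : Fin 4) 2 3 = 3 := by decide
  have g30 : g3 0 = 2 := rfl
  have g31 : g3 1 = 3 := rfl
  have g32 : g3 2 = 0 := rfl
  have g33 : g3 3 = 1 := rfl
  have r0 : rho 0 = 0 := rfl
  have r1 : rho 1 = 2 := rfl
  have r2 : rho 2 = 3 := rfl
  have r3 : rho 3 = 1 := rfl
  have g70 : g7 0 = 1 := rfl
  have g71 : g7 1 = 2 := rfl
  have g72 : g7 2 = 3 := rfl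
  have g73 : g7 3 = 0 := rfl
  have eA : ∀ τ : S4, MvPolynomial.aeval gen (C4a_XA τ) = pl 0 * al pa τ := by
    intro τ
    unfold C4a_XA
    rw [MvPolynomial.aeval_X]
    rfl
  have eP : ∀ τ : S4, MvPolynomial.aeval gen (C4a_XP τ) = pl 2 * pv pa τ := by
    intro τ
    unfold C4a_XP
    rw [MvPolynomial.aeval_X]
    rfl
  have eW : ∀ τ : S4, MvPolynomial.aeval gen (C4a_XW τ) = pl 3 * ov pa ps pt τ := by
    intro τ
    unfold C4a_XW
    rw [MvPolynomial.aeval_X]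
    rfl
  have xA : ∀ τ : S4, MvPolynomial.aeval (Sum.elim x.A (Sum.elim x.Y (Sum.elim x.P x.W)) :
      Idx → K) (C4a_XA τ) = x.A τ := by
    intro τ
    unfold C4a_XA
    rw [MvPolynomial.aeval_X]
    rfl
  have xP : ∀ τ : S4, MvPolynomial.aeval (Sum.elim x.A (Sum.elim x.Y (Sum.elim x.P x.W)) :
      Idx → K) (C4a_XP τ) = x.P τ := by
    intro τ
    unfold C4a_XP
    rw [MvPolynomial.aeval_X]
    rfl
  have xW : ∀ τ : S4, MvPolynomial.aeval (Sum.elim x.A (Sum.elim x.Y (Sum.elim x.P x.W)) :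
      Idx → K) (C4a_XW τ) = x.W τ := by
    intro τ
    unfold C4a_XW
    rw [MvPolynomial.aeval_X]
    rfl
  refine ⟨?_, ?_, ?_, ?_, ?_⟩
  · have h := C4a_aux_rel x (C4a_XP (σ * Equiv.swap 0 1) - C4a_XP σ) (by
      rw [map_sub, eP, eP]
      simp only [pv, Equiv.Perm.mul_apply, s010, s011, s012, s013]
      ring)
    rw [map_sub, xP, xP] at h
    exact sub_eq_zero.1 h
  · have h := C4a_aux_rel x (C4a_XP (σ * Equiv.swap 2 3) + C4a_XP σ) (by
      rw [map_add, eP, eP]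
      simp only [pv, Equiv.Perm.mul_apply, s230, s231, s232, s233]
      ring)
    rw [map_add, xP, xP] at h
    exact eq_neg_of_add_eq_zero_left h
  · have h := C4a_aux_rel x (C4a_XW (σ * Equiv.swap 1 2) - C4a_XW σ) (by
      rw [map_sub, eW, eW]
      simp only [ov, Equiv.Perm.mul_apply, s120, s121, s122, s123]
      ring)
    rw [map_sub, xW, xW] at h
    exact sub_eq_zero.1 h
  · have h := C4a_aux_rel x (C4a_XP σ * C4a_XA (σ * g3) - C4a_XP (σ * g3) * C4a_XA σ) (by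
      rw [map_sub, map_mul, map_mul, eP, eP, eA, eA]
      simp only [pv, al, Equiv.Perm.mul_apply, g30, g31, g32, g33]
      ring)
    rw [map_sub, map_mul, map_mul, xP, xP, xA, xA] at h
    exact sub_eq_zero.1 h
  · have h := C4a_aux_rel x (C4a_XW σ * C4a_XA (σ * g3) - C4a_XW (σ * rho) * C4a_XA (σ * g7)) (by
      rw [map_sub, map_mul, map_mul, eW, eW, eA, eA]
      simp only [ov, al, Equiv.Perm.mul_apply, g30, g31, g70, g71, r0, r1, r2, r3]
      ring)
    rw [map_sub, map_mul, map_mul, xW, xW, xA, xA] at h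
    exact sub_eq_zero.1 h

end NefMod
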