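import Pool.Agent.Helper729.NF.Defs

set_option autoImplicit false

open Polynomial

namespace NefMod



theorem C4b {K : Type*} [Field K] (x : MPoint K) (σ : S4) :
    x.W σ * x.P (σ * rho * kap) * x.A (σ * kap) ^ 2 =
      x.W (σ * rho) * x.P (σ * kap) * x.A (σ * rho * kap) ^ 2 := by
  have r0 : rho 0 = 0 := rfl
  have r1 : rho 1 = 2 := rfl
  have r2 : rho 2 = 3 := rfl
  have r3 : rho 3 = 1 := rfl
  have k0 : kap 0 = 3 := rfl
  have k1 : kap 1 = 0 := rfl
  have k2 : kap 2 = 1 := rfl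
  have k3 : kap 3 = 2 := rfl
  have hF := x.mem ((MvPolynomial.X (Sum.inr (Sum.inr (Sum.inr σ))) *
      MvPolynomial.X (Sum.inr (Sum.inr (Sum.inl (σ * rho * kap)))) *
      MvPolynomial.X (Sum.inl (σ * kap)) ^ 2 -
    MvPolynomial.X (Sum.inr (Sum.inr (Sum.inr (σ * rho)))) *
      MvPolynomial.X (Sum.inr (Sum.inr (Sum.inl (σ * kap)))) *
      MvPolynomial.X (Sum.inl (σ * rho * kap)) ^ 2 : MvPolynomial Idx ℤ)) (by
    rw [modelIdeal, RingHom.mem_ker]
    simp only [AlgHom.toRingHom_eq_coe, RingHom.coe_coe, map_sub, map_mul, map_pow,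
      MvPolynomial.aeval_X, gen, Sum.elim_inl, Sum.elim_inr, al, pv, ov, Equiv.Perm.mul_apply,
      r0, r1, r2, r3, k0, k1, k2, k3]
    ring)
  simp only [map_sub, map_mul, map_pow, MvPolynomial.aeval_X, Sum.elim_inl, Sum.elim_inr] at hF
  exact sub_eq_zero.mp hF

end NefMod
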