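import Pool.Agent.Helper729.NF.Defs

set_option autoImplicit false

open Polynomial

namespace NefMod



theorem C4c_cub {R : Type*} [CommRing R] (κ x y z : R) (h : x + y + z = 0) :
    (κ * x ^ 3 - -(κ * y ^ 3) + κ * z ^ 3) ^ 3 +
      27 * (κ * x ^ 3) * (-(κ * y ^ 3)) * (κ * z ^ 3) = 0 := by
  have hz : z = -(x + y) := by linear_combination h
  rw [hz]; ring

theorem C4c_alg {R : Type*} [CommRing R] (ai aj ak al s t l2 l3 : R) :
    ((l3 * ((s - t * ai) ^ 3 * ((ak - al) ^ 2 * (al - aj) * (aj - ak)))) *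
        (l2 * ((aj - al) ^ 2 * (ai - ak))) -
      (l3 * ((s - t * aj) ^ 3 * ((ak - al) ^ 2 * (al - ai) * (ai - ak)))) *
        (l2 * ((ai - al) ^ 2 * (aj - ak))) +
      (l3 * ((s - t * al) ^ 3 * ((ai - aj) ^ 2 * (aj - ak) * (ak - ai)))) *
        (l2 * ((ak - al) ^ 2 * (ai - aj)))) ^ 3 +
      27 * ((l3 * ((s - t * ai) ^ 3 * ((ak - al) ^ 2 * (al - aj) * (aj - ak)))) *
        (l2 * ((aj - al) ^ 2 * (ai - ak)))) *
      ((l3 * ((s - t * aj) ^ 3 * ((ak - al) ^ 2 * (al - ai) * (ai - ak)))) *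
        (l2 * ((ai - al) ^ 2 * (aj - ak)))) *
      ((l3 * ((s - t * al) ^ 3 * ((ai - aj) ^ 2 * (aj - ak) * (ak - ai)))) *
        (l2 * ((ak - al) ^ 2 * (ai - aj)))) = 0 := by
  have hX : (l3 * ((s - t * ai) ^ 3 * ((ak - al) ^ 2 * (al - aj) * (aj - ak)))) *
        (l2 * ((aj - al) ^ 2 * (ai - ak))) =
      (l3 * l2 * (ak - al) ^ 2 * (aj - ak) * (ai - ak)) * ((al - aj) * (s - t * ai)) ^ 3 := by ring
  have hY : (l3 * ((s - t * aj) ^ 3 * ((ak - al) ^ 2 * (al - ai) * (ai - ak)))) *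
        (l2 * ((ai - al) ^ 2 * (aj - ak))) =
      -((l3 * l2 * (ak - al) ^ 2 * (aj - ak) * (ai - ak)) * ((ai - al) * (s - t * aj)) ^ 3) := by
    ring
  have hZ : (l3 * ((s - t * al) ^ 3 * ((ai - aj) ^ 2 * (aj - ak) * (ak - ai)))) *
        (l2 * ((ak - al) ^ 2 * (ai - aj))) =
      (l3 * l2 * (ak - al) ^ 2 * (aj - ak) * (ai - ak)) * ((aj - ai) * (s - t * al)) ^ 3 := by ring
  rw [hX, hY, hZ]
  exact C4c_cub _ _ _ _ (by ring)

theorem C4c {K : Type*} [Field K] (x : MPoint K) (σ : S4) :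
    (x.W (σ * g1) * x.P (σ * g2) - x.W (σ * g3) * x.P (σ * g4) + x.W σ * x.P (σ * kap)) ^ 3 +
      27 * (x.W (σ * g1) * x.P (σ * g2)) * (x.W (σ * g3) * x.P (σ * g4)) *
        (x.W σ * x.P (σ * kap)) = 0 := by
  have hmem : ((MvPolynomial.X (Sum.inr (Sum.inr (Sum.inr (σ * g1)))) *
      MvPolynomial.X (Sum.inr (Sum.inr (Sum.inl (σ * g2)))) -
      MvPolynomial.X (Sum.inr (Sum.inr (Sum.inr (σ * g3)))) *
      MvPolynomial.X (Sum.inr (Sum.inr (Sum.inl (σ * g4)))) +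
      MvPolynomial.X (Sum.inr (Sum.inr (Sum.inr σ))) *
      MvPolynomial.X (Sum.inr (Sum.inr (Sum.inl (σ * kap))))) ^ 3 +
      27 * (MvPolynomial.X (Sum.inr (Sum.inr (Sum.inr (σ * g1)))) *
      MvPolynomial.X (Sum.inr (Sum.inr (Sum.inl (σ * g2))))) *
      (MvPolynomial.X (Sum.inr (Sum.inr (Sum.inr (σ * g3)))) *
      MvPolynomial.X (Sum.inr (Sum.inr (Sum.inl (σ * g4))))) *
      (MvPolynomial.X (Sum.inr (Sum.inr (Sum.inr σ))) *
      MvPolynomial.X (Sum.inr (Sum.inr (Sum.inl (σ * kap))))) : MvPolynomial Idx ℤ) ∈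
        modelIdeal := by
    unfold modelIdeal
    rw [RingHom.mem_ker]
    show MvPolynomial.aeval gen _ = 0
    simp only [map_add, map_pow, map_sub, map_mul, MvPolynomial.aeval_X, map_ofNat]
    exact C4c_alg (pa (σ 1)) (pa (σ 2)) (pa (σ 3)) (pa (σ 0)) ps pt (pl 2) (pl 3)
  have h := x.mem _ hmem
  simp only [map_add, map_pow, map_sub, map_mul, MvPolynomial.aeval_X, map_ofNat,
    Sum.elim_inr, Sum.elim_inl] at h
  exact h

end NefMod
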