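import Pool.Agent.Helper729.NF.Defs
import Pool.Agent.Helper729.NF.P_C4a
import Pool.Agent.Helper729.NF.P_C4b
import Pool.Agent.Helper729.NF.P_C4c

set_option autoImplicit false

open Polynomial

namespace NefMod



set_option maxRecDepth 100000 in
theorem C4_D1 : ∀ τ : S4, τ 2 = 0 ∨ τ 3 = 0 ∨
    (τ = g4 ∨ τ = g4 * Equiv.swap 0 1 ∨ τ = g4 * Equiv.swap 2 3 ∨
      τ = g4 * Equiv.swap 0 1 * Equiv.swap 2 3) ∨
    (τ = rho * g4 ∨ τ = rho * g4 * Equiv.swap 0 1 ∨ τ = rho * g4 * Equiv.swap 2 3 ∨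
      τ = rho * g4 * Equiv.swap 0 1 * Equiv.swap 2 3) ∨
    (τ = rho * rho * g4 ∨ τ = rho * rho * g4 * Equiv.swap 0 1 ∨
      τ = rho * rho * g4 * Equiv.swap 2 3 ∨
      τ = rho * rho * g4 * Equiv.swap 0 1 * Equiv.swap 2 3) := by decide

set_option maxRecDepth 100000 in
theorem C4_D2 : ∀ τ : S4,
    (τ = 1 ∨ τ = rho ∨ τ = rho * rho ∨ τ = 1 * Equiv.swap 1 2 ∨ τ = rho * Equiv.swap 1 2 ∨
      τ = rho * rho * Equiv.swap 1 2) ∨ (τ 0 ≠ 0 ∧ τ 3 = 0) ∨
    (τ = g1 ∨ τ = g1 * Equiv.swap 1 2 ∨ τ = g1 * rho ∨ τ = g1 * rho * Equiv.swap 1 2) ∨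
    (τ = rho * g1 ∨ τ = rho * g1 * Equiv.swap 1 2 ∨ τ = rho * g1 * rho ∨
      τ = rho * g1 * rho * Equiv.swap 1 2) ∨
    (τ = rho * rho * g1 ∨ τ = rho * rho * g1 * Equiv.swap 1 2 ∨ τ = rho * rho * g1 * rho ∨
      τ = rho * rho * g1 * rho * Equiv.swap 1 2) := by decide

theorem C4_prop {K : Type*} [Field K] (v1 v2 v3 q1 q2 q3 : K)
    (hv : ¬ (v1 = 0 ∧ v2 = 0 ∧ v3 = 0)) (hq : ¬ (q1 = 0 ∧ q2 = 0 ∧ q3 = 0))
    (h12 : v1 * q2 = v2 * q1) (h23 : v2 * q3 = v3 * q2) (h31 : v3 * q1 = v1 * q3) :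
    ∃ c : K, c ≠ 0 ∧ q1 = c * v1 ∧ q2 = c * v2 ∧ q3 = c * v3 := by
  by_cases h1 : v1 = 0
  · by_cases h2 : v2 = 0
    · have h3 : v3 ≠ 0 := fun h => hv ⟨h1, h2, h⟩
      have e1 : q1 = q3 / v3 * v1 := by
        field_simp; linear_combination h31
      have e2 : q2 = q3 / v3 * v2 := by
        field_simp; linear_combination (-1 : K) * h23
      have e3 : q3 = q3 / v3 * v3 := by field_simp
      refine ⟨q3 / v3, ?_, e1, e2, e3⟩
      intro h
      rw [h, zero_mul] at e1 e2 e3
      exact hq ⟨e1, e2, e3⟩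
    · have e1 : q1 = q2 / v2 * v1 := by
        field_simp; linear_combination (-1 : K) * h12
      have e2 : q2 = q2 / v2 * v2 := by field_simp
      have e3 : q3 = q2 / v2 * v3 := by
        field_simp; linear_combination h23
      refine ⟨q2 / v2, ?_, e1, e2, e3⟩
      intro h
      rw [h, zero_mul] at e1 e2 e3
      exact hq ⟨e1, e2, e3⟩
  · have e1 : q1 = q1 / v1 * v1 := by field_simp
    have e2 : q2 = q1 / v1 * v2 := by
      field_simp; linear_combination h12
    have e3 : q3 = q1 / v1 * v3 := by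
      field_simp; linear_combination (-1 : K) * h31
    refine ⟨q1 / v1, ?_, e1, e2, e3⟩
    intro h
    rw [h, zero_mul] at e1 e2 e3
    exact hq ⟨e1, e2, e3⟩

theorem C4_core {K : Type*} [Field K] (P W : S4 → K) (b : Fin 4 → K) (b12 : b 1 = b 2)
    (b23 : b 2 = b 3) (b01 : b 0 ≠ b 1)
    (h1 : ∀ g, P (g * Equiv.swap 0 1) = P g) (h2 : ∀ g, P (g * Equiv.swap 2 3) = - P g)
    (h3 : ∀ g, W (g * Equiv.swap 1 2) = W g)
    (h4 : ∀ g, P g * al b (g * g3) = P (g * g3) * al b g)
    (h5 : ∀ g, W g * al b (g * g3) = W (g * rho) * al b (g * g7))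
    (hb : ∀ g, W g * P (g * rho * kap) * al b (g * kap) ^ 2 =
      W (g * rho) * P (g * kap) * al b (g * rho * kap) ^ 2)
    (hc : ∀ g, (W (g * g1) * P (g * g2) - W (g * g3) * P (g * g4) + W g * P (g * kap)) ^ 3 +
      27 * (W (g * g1) * P (g * g2)) * (W (g * g3) * P (g * g4)) * (W g * P (g * kap)) = 0)
    (hP : P ≠ 0) (hW : W ≠ 0) :
    ∃ c : K, c ≠ 0 ∧ ∀ τ, P τ = 0 ∨ ∃ τ', P τ = c * W τ' ∨ P τ = - (c * W τ') := by
  have hcl : ∀ m : Fin 4, m ≠ 0 → b m = b 1 := by
    intro m hm
    fin_cases m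
    · exact absurd rfl hm
    · rfl
    · exact b12.symm
    · exact (b12.trans b23).symm
  have hd : b 1 - b 0 ≠ 0 := sub_ne_zero.mpr b01.symm
  -- values of P
  have hPval : ∀ τ, P τ = 0 ∨ (P τ = P g4 ∨ P τ = - P g4) ∨
      (P τ = P (rho * g4) ∨ P τ = - P (rho * g4)) ∨
      (P τ = P (rho * rho * g4) ∨ P τ = - P (rho * rho * g4)) := by
    intro τ
    have hcase : ∀ (m m' : Fin 4) (hm : τ m = 0) (hne : m ≠ m'), τ m' ≠ 0 := by
      intro m m' hm hne h
      exact hne (τ.injective (hm.trans h.symm))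
    rcases C4_D1 τ with h | h | h | h | h
    · left
      have e1 : al b τ = 0 := by
        unfold al
        rw [hcl _ (hcase 2 0 h (by decide)), hcl _ (hcase 2 1 h (by decide)), sub_self]
      have e2 : al b (τ * g3) = b (τ 2) - b (τ 3) := rfl
      have e3 := h4 τ
      rw [e1, mul_zero, e2, h, hcl _ (hcase 2 3 h (by decide))] at e3
      exact (mul_eq_zero.mp e3).resolve_right (sub_ne_zero.mpr b01)
    · left
      have e1 : al b τ = 0 := by
        unfold al
        rw [hcl _ (hcase 3 0 h (by decide)), hcl _ (hcase 3 1 h (by decide)), sub_self]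
      have e2 : al b (τ * g3) = b (τ 2) - b (τ 3) := rfl
      have e3 := h4 τ
      rw [e1, mul_zero, e2, h, hcl _ (hcase 3 2 h (by decide))] at e3
      exact (mul_eq_zero.mp e3).resolve_right hd
    · right; left
      rcases h with h | h | h | h
      · left; rw [h]
      · left; rw [h, h1]
      · right; rw [h, h2]
      · right; rw [h, h2, h1]
    · right; right; left
      rcases h with h | h | h | h
      · left; rw [h]
      · left; rw [h, h1]
      · right; rw [h, h2]
      · right; rw [h, h2, h1]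
    · right; right; right
      rcases h with h | h | h | h
      · left; rw [h]
      · left; rw [h, h1]
      · right; rw [h, h2]
      · right; rw [h, h2, h1]
  have hq : ¬ (P g4 = 0 ∧ P (rho * g4) = 0 ∧ P (rho * rho * g4) = 0) := by
    rintro ⟨e1, e2, e3⟩
    apply hP
    funext τ
    rcases hPval τ with h | (h | h) | (h | h) | (h | h)
    · exact h
    · rw [h, e1]; rfl
    · rw [h, e1, neg_zero]; rfl
    · rw [h, e2]; rfl
    · rw [h, e2, neg_zero]; rfl
    · rw [h, e3]; rfl
    · rw [h, e3, neg_zero]; rfl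
  have hfin : (∃ c : K, c ≠ 0 ∧ ∃ t1 t2 t3 : S4, P g4 = c * W t1 ∧ P (rho * g4) = c * W t2 ∧
      P (rho * rho * g4) = c * W t3) →
      ∃ c : K, c ≠ 0 ∧ ∀ τ, P τ = 0 ∨ ∃ τ', P τ = c * W τ' ∨ P τ = - (c * W τ') := by
    rintro ⟨c, hc0, t1, t2, t3, e1, e2, e3⟩
    refine ⟨c, hc0, fun τ => ?_⟩
    rcases hPval τ with h | (h | h) | (h | h) | (h | h)
    · exact Or.inl h
    · exact Or.inr ⟨t1, Or.inl (by rw [h, e1])⟩
    · exact Or.inr ⟨t1, Or.inr (by rw [h, e1])⟩
    · exact Or.inr ⟨t2, Or.inl (by rw [h, e2])⟩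
    · exact Or.inr ⟨t2, Or.inr (by rw [h, e2])⟩
    · exact Or.inr ⟨t3, Or.inl (by rw [h, e3])⟩
    · exact Or.inr ⟨t3, Or.inr (by rw [h, e3])⟩
  apply hfin
  by_cases hw : W 1 = 0 ∧ W rho = 0 ∧ W (rho * rho) = 0
  · -- case B
    obtain ⟨w1, w2, w3⟩ := hw
    -- sign rules
    have hneg : ∀ g : S4, g 2 = 0 → W (g * rho) = - W g := by
      intro g hg
      have e1 : al b (g * g3) = b (g 2) - b (g 3) := rfl
      have e2 : al b (g * g7) = b (g 1) - b (g 2) := rfl
      have n1 : g 1 ≠ 0 := fun h => absurd (g.injective (h.trans hg.symm)) (by decide)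
      have n3 : g 3 ≠ 0 := fun h => absurd (g.injective (h.trans hg.symm)) (by decide)
      have e3 := h5 g
      rw [e1, e2, hg, hcl _ n1, hcl _ n3] at e3
      have e4 : (W (g * rho) + W g) * (b 1 - b 0) = 0 := by linear_combination (-1 : K) * e3
      have e5 := (mul_eq_zero.mp e4).resolve_right hd
      linear_combination e5
    have hWval : ∀ τ, W τ = 0 ∨ (W τ = W g1 ∨ W τ = - W g1) ∨
        (W τ = W (rho * g1) ∨ W τ = - W (rho * g1)) ∨
        (W τ = W (rho * rho * g1) ∨ W τ = - W (rho * rho * g1)) := by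
      intro τ
      rcases C4_D2 τ with h | h | h | h | h
      · left
        rcases h with h | h | h | h | h | h
        · rw [h, w1]
        · rw [h, w2]
        · rw [h, w3]
        · rw [h, h3, w1]
        · rw [h, h3, w2]
        · rw [h, h3, w3]
      · left
        have e1 : al b (τ * g3) = b (τ 2) - b (τ 3) := rfl
        have e2 : al b (τ * g7) = b (τ 1) - b (τ 2) := rfl
        have n1 : τ 1 ≠ 0 := fun h' => absurd (τ.injective (h'.trans h.2.symm)) (by decide)
        have n2 : τ 2 ≠ 0 := fun h' => absurd (τ.injective (h'.trans h.2.symm)) (by decide)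
        have e3 := h5 τ
        rw [e1, e2, h.2, hcl _ n1, hcl _ n2, sub_self, mul_zero] at e3
        exact (mul_eq_zero.mp e3).resolve_right hd
      · right; left
        rcases h with h | h | h | h
        · left; rw [h]
        · left; rw [h, h3]
        · right; rw [h, hneg _ (by decide)]
        · right; rw [h, h3, hneg _ (by decide)]
      · right; right; left
        rcases h with h | h | h | h
        · left; rw [h]
        · left; rw [h, h3]
        · right; rw [h, hneg _ (by decide)]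
        · right; rw [h, h3, hneg _ (by decide)]
      · right; right; right
        rcases h with h | h | h | h
        · left; rw [h]
        · left; rw [h, h3]
        · right; rw [h, hneg _ (by decide)]
        · right; rw [h, h3, hneg _ (by decide)]
    have hv : ¬ (W g1 = 0 ∧ W (rho * g1) = 0 ∧ W (rho * rho * g1) = 0) := by
      rintro ⟨e1, e2, e3⟩
      apply hW
      funext τ
      rcases hWval τ with h | (h | h) | (h | h) | (h | h)
      · exact h
      · rw [h, e1]; rfl
      · rw [h, e1, neg_zero]; rfl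
      · rw [h, e2]; rfl
      · rw [h, e2, neg_zero]; rfl
      · rw [h, e3]; rfl
      · rw [h, e3, neg_zero]; rfl
    have hrel : ∀ g, W g = 0 → W (g * g1) * P (g * g2) = W (g * g3) * P (g * g4) := by
      intro g hg
      have e := hc g
      rw [hg, zero_mul, mul_zero, add_zero, add_zero] at e
      exact sub_eq_zero.mp (pow_eq_zero_iff (by norm_num) |>.mp e)
    have hW3 : ∀ g : S4, (g * rho * g1) 2 = 0 → W (g * g3) = - W (g * rho * g1) := by
      intro g hg
      have e1 : g * g3 = g * rho * g1 * rho * Equiv.swap 1 2 := by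
        have : g3 = rho * g1 * rho * Equiv.swap 1 2 := by decide
        rw [this]; simp only [mul_assoc]
      rw [e1, h3, hneg _ hg]
    have hP2 : ∀ g : S4, P (g * g2) = - P (g * rho * g4) := by
      intro g
      have e1 : g * g2 = g * rho * g4 * Equiv.swap 2 3 := by
        have : g2 = rho * g4 * Equiv.swap 2 3 := by decide
        rw [this]; simp only [mul_assoc]
      rw [e1, h2]
    have r1 := hrel 1 w1
    have r2 := hrel rho w2
    have r3 := hrel (rho * rho) w3
    have hrho : rho * rho * rho = 1 := by decide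
    rw [hW3 1 (by decide), hP2 1] at r1
    rw [hW3 rho (by decide), hP2 rho] at r2
    rw [hW3 (rho * rho) (by decide), hP2 (rho * rho), hrho] at r3
    simp only [one_mul] at r1 r3
    obtain ⟨c, hc0, e1, e2, e3⟩ := C4_prop (W g1) (W (rho * g1)) (W (rho * rho * g1))
      (P g4) (P (rho * g4)) (P (rho * rho * g4)) hv hq
      (by linear_combination (-1 : K) * r1) (by linear_combination (-1 : K) * r2)
      (by linear_combination (-1 : K) * r3)
    exact ⟨c, hc0, g1, rho * g1, rho * rho * g1, e1, e2, e3⟩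
  · -- case A
    have hal : ∀ g : S4, g 0 = 0 → al b (g * kap) = b 1 - b 0 := by
      intro g hg
      have n3 : g 3 ≠ 0 := fun h => absurd (g.injective (h.trans hg.symm)) (by decide)
      have e1 : al b (g * kap) = b (g 3) - b (g 0) := rfl
      rw [e1, hg, hcl _ n3]
    have hrel : ∀ g : S4, g 0 = 0 → (g * rho) 0 = 0 →
        W g * P (g * rho * kap) = W (g * rho) * P (g * kap) := by
      intro g hg hg'
      have e := hb g
      rw [hal g hg, hal (g * rho) hg'] at e
      exact mul_right_cancel₀ (pow_ne_zero 2 hd) e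
    have r1 := hrel 1 (by decide) (by decide)
    have r2 := hrel rho (by decide) (by decide)
    have r3 := hrel (rho * rho) (by decide) (by decide)
    have hrho : rho * rho * rho = 1 := by decide
    have k1 : (1 : S4) * kap = rho * rho * g4 := by decide
    have k2 : (1 : S4) * rho * kap = g4 := by decide
    have k2' : rho * kap = g4 := by decide
    have k3 : rho * rho * kap = rho * g4 := by decide
    rw [k2, k1, one_mul] at r1
    rw [k3, k2'] at r2
    rw [hrho, k1, k3] at r3
    have hw' : ¬ (W rho = 0 ∧ W (rho * rho) = 0 ∧ W 1 = 0) := by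
      rintro ⟨a1, a2, a3⟩
      exact hw ⟨a3, a1, a2⟩
    obtain ⟨c, hc0, e1, e2, e3⟩ := C4_prop (W rho) (W (rho * rho)) (W 1)
      (P g4) (P (rho * g4)) (P (rho * rho * g4)) hw' hq
      (by linear_combination r2) (by linear_combination r3)
      (by linear_combination r1)
    exact ⟨c, hc0, rho, rho * rho, 1, e1, e2, e3⟩

theorem C4 {K : Type*} [Field K] (x : MPoint K) (a : Fin 4 → K) (ha : x.A = al a)
    (ha0 : ∃ i j, a i ≠ a j) (l : Fin 4) (hl : ∀ i j, i ≠ l → j ≠ l → a i = a j) :
    ∃ c : K, c ≠ 0 ∧ ∀ τ, x.P τ = 0 ∨ ∃ τ', x.P τ = c * x.W τ' ∨ x.P τ = - (c * x.W τ') := by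
  obtain ⟨σ, hσ⟩ : ∃ σ : S4, σ 0 = l := ⟨Equiv.swap 0 l, Equiv.swap_apply_left 0 l⟩
  have hne : ∀ m : Fin 4, m ≠ 0 → σ m ≠ l := by
    intro m hm h
    exact hm (σ.injective (h.trans hσ.symm))
  have hA : ∀ g : S4, x.A (σ * g) = al (fun m => a (σ m)) g := by
    intro g
    rw [ha]
    rfl
  have b12 : a (σ 1) = a (σ 2) := hl _ _ (hne 1 (by decide)) (hne 2 (by decide))
  have b23 : a (σ 2) = a (σ 3) := hl _ _ (hne 2 (by decide)) (hne 3 (by decide))
  have b01 : a (σ 0) ≠ a (σ 1) := by
    intro h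
    obtain ⟨i, j, hij⟩ := ha0
    apply hij
    have hall : ∀ m, a m = a (σ 0) := by
      intro m
      by_cases hm : m = l
      · rw [hm, hσ]
      · rw [h]; exact hl _ _ hm (hne 1 (by decide))
    rw [hall i, hall j]
  obtain ⟨c, hc0, hc⟩ := C4_core (fun g => x.P (σ * g)) (fun g => x.W (σ * g))
    (fun m => a (σ m)) b12 b23 b01
    (fun g => by
      have := (C4a x (σ * g)).1
      rwa [mul_assoc] at this)
    (fun g => by
      have := (C4a x (σ * g)).2.1
      rwa [mul_assoc] at this)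
    (fun g => by
      have := (C4a x (σ * g)).2.2.1
      rwa [mul_assoc] at this)
    (fun g => by
      have := (C4a x (σ * g)).2.2.2.1
      rwa [mul_assoc, hA, hA] at this)
    (fun g => by
      have := (C4a x (σ * g)).2.2.2.2
      rwa [mul_assoc, mul_assoc, mul_assoc, hA, hA] at this)
    (fun g => by
      have := C4b x (σ * g)
      rwa [mul_assoc σ g rho, mul_assoc σ (g * rho) kap, mul_assoc σ g kap, hA, hA] at this)
    (fun g => by
      have := C4c x (σ * g)
      rwa [mul_assoc σ g g1, mul_assoc σ g g2, mul_assoc σ g g3, mul_assoc σ g g4,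
        mul_assoc σ g kap] at this)
    (fun h => x.hP (by
      funext τ
      have := congrFun h (σ⁻¹ * τ)
      simpa using this))
    (fun h => x.hW (by
      funext τ
      have := congrFun h (σ⁻¹ * τ)
      simpa using this))
  refine ⟨c, hc0, fun τ => ?_⟩
  have h := hc (σ⁻¹ * τ)
  simp only [mul_inv_cancel_left] at h
  rcases h with h | ⟨τ', h⟩
  · exact Or.inl h
  · exact Or.inr ⟨σ * τ', h⟩

end NefMod
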