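import Pool.Agent.Helper729.NF.Defs

set_option autoImplicit false

open Polynomial

namespace NefMod



theorem C5 {K : Type*} [Field K] (a : Fin 4 → K) (ha : ¬ Function.Injective a)
    (h : ∃ σ, pv a σ ≠ 0) :
    ∃ c : K, c ≠ 0 ∧ ∀ τ, pv a τ = 0 ∨ ∃ τ', pv a τ = c * al a τ' ∨ pv a τ = - (c * al a τ') := by
  rw [Function.not_injective_iff] at ha
  obtain ⟨i, j, hij, hne⟩ := ha
  set c : K := ∏ m : Fin 4, if m = i ∨ m = j then 1 else a i - a m with hc
  have key : ∀ τ : S4, pv a τ = 0 ∨ pv a τ = c * al a τ ∨ pv a τ = - (c * al a τ) := by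
    intro τ
    obtain ⟨p, hp⟩ := τ.surjective i
    obtain ⟨q, hq⟩ := τ.surjective j
    have hpq : p ≠ q := fun e => hne (by rw [← hp, ← hq, e])
    have hx : a (τ p) = a (τ q) := by rw [hp, hq]; exact hij
    have hc2 : c = ∏ r : Fin 4, if r = p ∨ r = q then 1 else a (τ p) - a (τ r) := by
      rw [hc, ← Equiv.prod_comp τ]
      apply Finset.prod_congr rfl
      intro r _
      rw [← hp, ← hq]
      simp only [EmbeddingLike.apply_eq_iff_eq]
    have e0 : pv a τ = (a (τ 0) - a (τ 1)) ^ 2 * (a (τ 2) - a (τ 3)) := rfl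
    have e1 : al a τ = a (τ 0) - a (τ 1) := rfl
    rw [e0, e1, hc2, Fin.prod_univ_four]
    clear hc2 e0 e1 hc hp hq
    clear_value c
    revert hx hpq
    fin_cases p <;> fin_cases q <;>
      simp only [Fin.isValue, Fin.zero_eta, Fin.mk_one, Fin.reduceFinMk, ne_eq, not_true_eq_false,
        false_imp_iff, implies_true, Fin.reduceEq, not_false_eq_true, true_imp_iff, true_or, or_true,
        or_false, false_or, if_true, if_false, zero_ne_one, one_ne_zero] <;>
      (intro hx) <;>
      generalize a (τ 0) = x0 at * <;> generalize a (τ 1) = x1 at * <;>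
      generalize a (τ 2) = x2 at * <;> generalize a (τ 3) = x3 at * <;>
      subst hx <;>
      first
        | (left; ring; done)
        | (right; left; ring; done)
        | (right; right; ring; done)
  refine ⟨c, ?_, ?_⟩
  · intro h0
    obtain ⟨σ, hσ⟩ := h
    rcases key σ with h1 | h1 | h1
    · exact hσ h1
    · rw [h0, zero_mul] at h1; exact hσ h1
    · rw [h0, zero_mul, neg_zero] at h1; exact hσ h1
  · intro τ
    rcases key τ with h1 | h1 | h1
    · exact Or.inl h1
    · exact Or.inr ⟨τ, Or.inl h1⟩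
    · exact Or.inr ⟨τ, Or.inr h1⟩

end NefMod
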