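import Pool.Agent.Helper729.NF.Defs

set_option autoImplicit false

open Polynomial

namespace NefMod



theorem C6 {K : Type*} [Field K] (a : Fin 4 → K) (ha0 : ∃ i j, a i ≠ a j)
    (h : ∀ σ, pv a σ = 0) : ∃ l : Fin 4, ∀ i j, i ≠ l → j ≠ l → a i = a j := by
  have h1 := h 1
  have h2 := h (Equiv.swap 1 2)
  have h3 := h (Equiv.swap 1 3)
  have e20 : (Equiv.swap (1 : Fin 4) 2) 0 = 0 := by decide
  have e21 : (Equiv.swap (1 : Fin 4) 2) 1 = 2 := by decide
  have e22 : (Equiv.swap (1 : Fin 4) 2) 2 = 1 := by decide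
  have e23 : (Equiv.swap (1 : Fin 4) 2) 3 = 3 := by decide
  have e30 : (Equiv.swap (1 : Fin 4) 3) 0 = 0 := by decide
  have e31 : (Equiv.swap (1 : Fin 4) 3) 1 = 3 := by decide
  have e32 : (Equiv.swap (1 : Fin 4) 3) 2 = 2 := by decide
  have e33 : (Equiv.swap (1 : Fin 4) 3) 3 = 1 := by decide
  unfold pv at h1 h2 h3
  rw [e20, e21, e22, e23] at h2
  rw [e30, e31, e32, e33] at h3
  simp only [Equiv.Perm.coe_one, id_eq] at h1
  have key : ∀ x y z w : K, (x - y) ^ 2 * (z - w) = 0 → x = y ∨ z = w := by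
    intro x y z w hh
    rcases mul_eq_zero.1 hh with h4 | h4
    · exact Or.inl (sub_eq_zero.1 (pow_eq_zero_iff (by norm_num) |>.1 h4))
    · exact Or.inr (sub_eq_zero.1 h4)
  have fin : ∀ l : Fin 4, (∀ i j : Fin 4, i < j → i ≠ l → j ≠ l → a i = a j) →
      ∃ l : Fin 4, ∀ i j, i ≠ l → j ≠ l → a i = a j := by
    intro l hl
    refine ⟨l, fun i j hi hj => ?_⟩
    rcases lt_trichotomy i j with hij | hij | hij
    · exact hl i j hij hi hj
    · rw [hij]
    · exact (hl j i hij hj hi).symm
  rcases key _ _ _ _ h1 with q1 | q1 <;> rcases key _ _ _ _ h2 with q2 | q2 <;>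
    rcases key _ _ _ _ h3 with q3 | q3
  · apply fin 3
    intro i j hij hi hj
    fin_cases i <;> fin_cases j <;> simp_all
  · apply fin 3
    intro i j hij hi hj
    fin_cases i <;> fin_cases j <;> simp_all
  · apply fin 2
    intro i j hij hi hj
    fin_cases i <;> fin_cases j <;> simp_all
  · apply fin 3
    intro i j hij hi hj
    fin_cases i <;> fin_cases j <;> simp_all
  · apply fin 1
    intro i j hij hi hj
    fin_cases i <;> fin_cases j <;> simp_all
  · apply fin 3
    intro i j hij hi hj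
    fin_cases i <;> fin_cases j <;> simp_all
  · apply fin 3
    intro i j hij hi hj
    fin_cases i <;> fin_cases j <;> simp_all
  · apply fin 0
    intro i j hij hi hj
    fin_cases i <;> fin_cases j <;> simp_all

end NefMod
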