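import Pool.Agent.Helper729.NF.Defs
import Pool.Agent.Helper729.NF.P_H0
import Pool.Agent.Helper729.NF.P_H1

set_option autoImplicit false

open Polynomial

namespace NefMod



theorem H2 {K ι : Type*} [Field K] [Finite ι] (S : PS K) (x y : ι → K) (hx : ∃ i, x i ≠ 0)
    (hy : ∃ i, y i ≠ 0) (h : ∀ i j, x i * y j = x j * y i) : S.ht x = S.ht y := by
  obtain ⟨j, hj⟩ := hy
  have hxj : x j ≠ 0 := by
    intro h0
    obtain ⟨i, hi⟩ := hx
    have := h i j
    rw [h0, zero_mul] at this
    exact (mul_ne_zero hi hj) this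
  obtain ⟨c, hc⟩ : ∃ c, c = x j / y j := ⟨_, rfl⟩
  have hc0 : c ≠ 0 := by rw [hc]; exact div_ne_zero hxj hj
  have hxy : ∀ i, x i = c * y i := by
    intro i
    rw [hc]
    field_simp
    exact h i j
  have hne : ∀ i, y i ≠ 0 → x i ≠ 0 := fun i hi => by rw [hxy]; exact mul_ne_zero hc0 hi
  have hmo : ∀ v : Val K, moV v x = v.ord c + moV v y := by
    intro v
    obtain ⟨a1, _, a3⟩ := H0 v x hx
    obtain ⟨b1, ⟨i, b2, b2'⟩, _⟩ := H0 v y ⟨j, hj⟩
    apply le_antisymm
    · rcases a1 i with h1 | h1
      · exact absurd h1 (hne i b2)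
      · rw [hxy i, v.ord_mul hc0 b2, b2'] at h1
        exact h1
    · apply a3
      intro i
      by_cases hi : y i = 0
      · left
        rw [hxy, hi, mul_zero]
      · right
        rw [hxy i, v.ord_mul hc0 hi]
        rcases b1 i with h1 | h1
        · exact absurd h1 hi
        · linarith
  unfold PS.ht
  have h1 : ∀ i, - moV (S.v i) x = - (S.v i).ord c + - moV (S.v i) y := by
    intro i
    rw [hmo]
    ring
  simp only [h1]
  have f1 : (Function.support fun i => - (S.v i).ord c).Finite := by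
    refine (S.fin c hc0).subset ?_
    intro i hi
    exact neg_ne_zero.1 hi
  have f2 : (Function.support fun i => - moV (S.v i) y).Finite := by
    refine (H1 S y ⟨j, hj⟩).subset ?_
    intro i hi
    exact neg_ne_zero.1 hi
  rw [finsum_add_distrib f1 f2, finsum_neg_distrib, S.prod c hc0, neg_zero, zero_add]

end NefMod
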