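import Pool.Agent.Helper729.NF.Defs
import Pool.Agent.Helper729.NF.P_H0
import Pool.Agent.Helper729.NF.P_H1

set_option autoImplicit false

open Polynomial

namespace NefMod



theorem H3 {K ι : Type*} [Field K] [Finite ι] (S : PS K) (x : ι → K) (hx : ∃ i, x i ≠ 0) :
    0 ≤ S.ht x := by
  classical
  obtain ⟨i, hi⟩ := hx
  have h1 : ∀ w : S.I, -((S.v w).ord (x i)) ≤ -moV (S.v w) x := by
    intro w
    rcases (H0 (S.v w) x ⟨i, hi⟩).1 i with h | h
    · exact absurd h hi
    · exact neg_le_neg h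
  have h2 : ∑ᶠ w : S.I, -((S.v w).ord (x i)) = 0 := by
    rw [finsum_neg_distrib, S.prod (x i) hi, neg_zero]
  rw [← h2]
  unfold PS.ht
  have s1 : (Function.support fun w : S.I => -((S.v w).ord (x i))) ⊆
      (((S.fin (x i) hi).toFinset ∪ (H1 S x ⟨i, hi⟩).toFinset : Finset S.I) : Set S.I) := by
    intro w hw
    have hw' : (S.v w).ord (x i) ≠ 0 := fun h => hw (by simp [h])
    simp [hw']
  have s2 : (Function.support fun w : S.I => -moV (S.v w) x) ⊆
      (((S.fin (x i) hi).toFinset ∪ (H1 S x ⟨i, hi⟩).toFinset : Finset S.I) : Set S.I) := by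
    intro w hw
    have hw' : moV (S.v w) x ≠ 0 := fun h => hw (by simp [h])
    simp [hw']
  rw [finsum_eq_sum_of_support_subset _ s1, finsum_eq_sum_of_support_subset _ s2]
  exact Finset.sum_le_sum fun w _ => h1 w

end NefMod
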