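import Pool.Agent.Helper729.NF.Defs
import Pool.Agent.Helper729.NF.P_H0
import Pool.Agent.Helper729.NF.P_H1

set_option autoImplicit false

open Polynomial

namespace NefMod



theorem H5_ord_one {K : Type*} [Field K] (v : Val K) : v.ord 1 = 0 := by
  have h := v.ord_mul (one_ne_zero (α := K)) (one_ne_zero (α := K))
  rw [mul_one] at h
  omega

theorem H5_ord_neg {K : Type*} [Field K] (v : Val K) {f : K} (hf : f ≠ 0) :
    v.ord (-f) = v.ord f := by
  have h1 : v.ord (-1 : K) = 0 := by
    have h := v.ord_mul (neg_ne_zero.2 (one_ne_zero (α := K))) (neg_ne_zero.2 (one_ne_zero (α := K)))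
    rw [neg_mul_neg, mul_one, H5_ord_one] at h
    omega
  have h2 := v.ord_mul (neg_ne_zero.2 (one_ne_zero (α := K))) hf
  rw [neg_one_mul, h1, zero_add] at h2
  exact h2

theorem H5_place {K ι κ : Type*} [Field K] [Finite ι] [Finite κ] (v : Val K) (x : ι → K)
    (y : κ → K) (c : K) (hc : c ≠ 0) (hx : ∃ i, x i ≠ 0) (hy : ∃ i, y i ≠ 0)
    (h : ∀ i, x i = 0 ∨ ∃ j, x i = c * y j ∨ x i = - (c * y j)) :
    v.ord c + moV v y ≤ moV v x := by
  refine (H0 v x hx).2.2 _ fun i => ?_
  rcases h i with h0 | ⟨j, hj⟩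
  · exact Or.inl h0
  · by_cases hyj : y j = 0
    · left
      rcases hj with hj | hj
      · rw [hj, hyj, mul_zero]
      · rw [hj, hyj, mul_zero, neg_zero]
    · right
      have h1 : moV v y ≤ v.ord (y j) := by
        rcases (H0 v y hy).1 j with h | h
        · exact absurd h hyj
        · exact h
      have h2 : v.ord (c * y j) = v.ord c + v.ord (y j) := v.ord_mul hc hyj
      rcases hj with hj | hj
      · rw [hj, h2]
        omega
      · rw [hj, H5_ord_neg v (mul_ne_zero hc hyj), h2]
        omega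

theorem H5 {K ι κ : Type*} [Field K] [Finite ι] [Finite κ] (S : PS K) (x : ι → K) (y : κ → K)
    (c : K) (hc : c ≠ 0) (hx : ∃ i, x i ≠ 0) (hy : ∃ i, y i ≠ 0)
    (h : ∀ i, x i = 0 ∨ ∃ j, x i = c * y j ∨ x i = - (c * y j)) : S.ht x ≤ S.ht y := by
  unfold PS.ht
  have hfx : (Function.support fun i => - moV (S.v i) x).Finite := by
    have := H1 S x hx
    refine this.subset fun i hi => ?_
    simpa using hi
  have hfy : (Function.support fun i => - moV (S.v i) y).Finite := by
    have := H1 S y hy
    refine this.subset fun i hi => ?_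
    simpa using hi
  have hfc : (Function.support fun i => - (S.v i).ord c).Finite := by
    have := S.fin c hc
    refine this.subset fun i hi => ?_
    simpa using hi
  have h0 : ∑ᶠ i : S.I, - (S.v i).ord c = 0 := by
    rw [finsum_neg_distrib, S.prod c hc, neg_zero]
  have h1 : ∑ᶠ i : S.I, (- (S.v i).ord c + - moV (S.v i) y) = ∑ᶠ i : S.I, - moV (S.v i) y := by
    rw [finsum_add_distrib hfc hfy, h0, zero_add]
  rw [← h1]
  apply finsum_le_finsum' hfx
  · exact (hfc.union hfy).subset (Function.support_add _ _)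
  · intro i
    have := H5_place (S.v i) x y c hc hx hy h
    show - moV (S.v i) x ≤ - (S.v i).ord c + - moV (S.v i) y
    omega

end NefMod
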