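import Pool.Agent.Helper729.NF.Defs
import Pool.Agent.Helper729.NF.P_H2
import Pool.Agent.Helper729.NF.P_H3
import Pool.Agent.Helper729.NF.P_H5
import Pool.Agent.Helper729.NF.P_C0
import Pool.Agent.Helper729.NF.P_C1
import Pool.Agent.Helper729.NF.P_C2
import Pool.Agent.Helper729.NF.P_C3
import Pool.Agent.Helper729.NF.P_C4
import Pool.Agent.Helper729.NF.P_C5
import Pool.Agent.Helper729.NF.P_C6

set_option autoImplicit false

open Polynomial

namespace NefMod



theorem C7 {K : Type*} [Field K] (S : PS K) (x : MPoint K)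
    (hint : ∀ (a : Fin 4 → K) (s t : K), Function.Injective a → (s ≠ 0 ∨ t ≠ 0) →
      0 ≤ S.ht (al a) - S.ht (pv a) + S.ht (ov a s t)) :
    0 ≤ S.ht x.A - S.ht x.P + S.ht x.W := by
  obtain ⟨a, ha, ha0, ha3⟩ := C0 x
  obtain ⟨s, t, hst, hY⟩ := C2 x a ha
  have hxA : ∃ i, x.A i ≠ 0 := Function.ne_iff.1 x.hA
  have hxP : ∃ i, x.P i ≠ 0 := Function.ne_iff.1 x.hP
  have hxW : ∃ i, x.W i ≠ 0 := Function.ne_iff.1 x.hW
  have hA0 : 0 ≤ S.ht x.A := H3 S x.A hxA
  have hW0 : 0 ≤ S.ht x.W := H3 S x.W hxW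
  have ha0' : ∃ i j, a i ≠ a j := by
    obtain ⟨i, hi⟩ := Function.ne_iff.1 ha0
    exact ⟨i, 3, by rw [ha3]; exact hi⟩
  by_cases hpv : ∃ σ, pv a σ ≠ 0
  · have hP : S.ht x.P = S.ht (pv a) := H2 S x.P (pv a) hxP hpv (fun i j => C1 x a ha i j)
    by_cases hinj : Function.Injective a
    · have hov : ∃ σ, ov a s t σ ≠ 0 := by
        obtain ⟨i, hi⟩ := Function.ne_iff.1 x.hY
        rw [hY] at hi
        have hi' : s - t * a i ≠ 0 := hi
        refine ⟨Equiv.swap 0 i, ?_⟩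
        unfold ov
        rw [Equiv.swap_apply_left]
        have hd : ∀ p q : Fin 4, p ≠ q → a (Equiv.swap 0 i p) - a (Equiv.swap 0 i q) ≠ 0 := by
          intro p q hpq
          rw [sub_ne_zero]
          intro h
          exact hpq ((Equiv.swap 0 i).injective (hinj h))
        exact mul_ne_zero (pow_ne_zero _ hi') (mul_ne_zero (mul_ne_zero
          (pow_ne_zero _ (hd 1 2 (by decide))) (hd 2 3 (by decide))) (hd 3 1 (by decide)))
      have hW : S.ht x.W = S.ht (ov a s t) :=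
        H2 S x.W (ov a s t) hxW hov (fun i j => C3 x a ha s t hY i j)
      rw [hP, hW, ha]
      exact hint a s t hinj hst
    · obtain ⟨c, hc, h⟩ := C5 a hinj hpv
      have h1 : S.ht (pv a) ≤ S.ht (al a) := H5 S (pv a) (al a) c hc hpv (ha ▸ hxA) h
      rw [hP]
      rw [← ha] at h1
      linarith
  · have hpv' : ∀ σ, pv a σ = 0 := fun σ => by
      by_contra h
      exact hpv ⟨σ, h⟩
    obtain ⟨l, hl⟩ := C6 a ha0' hpv'
    obtain ⟨c, hc, h⟩ := C4 x a ha ha0' l hl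
    have h1 : S.ht x.P ≤ S.ht x.W := H5 S x.P x.W c hc hxP hxW h
    linarith

end NefMod
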