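import Pool.Agent.Helper729.NF.Defs

set_option autoImplicit false

open Polynomial

namespace NefMod



theorem C8 {K : Type*} [Field K] (a : Fin 4 → K) (ha : Function.Injective a) (s t : K)
    (hst : s ≠ 0 ∨ t ≠ 0) : ∃ x : MPoint K, x.A = al a ∧ x.P = pv a ∧ x.W = ov a s t := by
  have hne : ∀ i j : Fin 4, i ≠ j → a i - a j ≠ 0 := fun i j hij =>
    sub_ne_zero.mpr (fun h => hij (ha h))
  have hY : ∃ i, s - t * a i ≠ 0 := by
    by_contra hcon
    push Not at hcon
    have h0 := hcon 0
    have h1 := hcon 1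
    have h2 : t * (a 0 - a 1) = 0 := by linear_combination h1 - h0
    rcases mul_eq_zero.mp h2 with h3 | h3
    · rw [h3] at h0
      rcases hst with h | h
      · apply h
        simpa using h0
      · exact h h3
    · exact hne 0 1 (by decide) h3
  let φ : MvPolynomial Prm ℤ →ₐ[ℤ] K :=
    MvPolynomial.aeval (Sum.elim a (Sum.elim ![s, t] (fun _ => 1)))
  have hpa : ∀ i, φ (pa i) = a i := by
    intro i
    simp [φ, pa]
  have hps : φ ps = s := by
    simp [φ, ps]
  have hpt : φ pt = t := by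
    simp [φ, pt]
  have hpl : ∀ i, φ (pl i) = 1 := by
    intro i
    simp [φ, pl]
  have hcomp : (fun i => φ (gen i)) =
      (Sum.elim (al a) (Sum.elim (fun i => s - t * a i) (Sum.elim (pv a) (ov a s t))) : Idx → K) := by
    funext i
    rcases i with σ | i | σ | σ
    · simp [gen, al, hpa, hpl]
    · simp [gen, hpa, hpl, hps, hpt]
    · simp [gen, pv, hpa, hpl]
    · simp [gen, ov, hpa, hpl, hps, hpt]
  refine ⟨{ A := al a, Y := fun i => s - t * a i, P := pv a, W := ov a s t,
            hA := ?_, hY := ?_, hP := ?_, hW := ?_, mem := ?_ }, rfl, rfl, rfl⟩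
  · intro h
    have := congrFun h 1
    exact hne 0 1 (by decide) this
  · intro h
    obtain ⟨i, hi⟩ := hY
    exact hi (congrFun h i)
  · intro h
    have := congrFun h 1
    have h2 : (a 0 - a 1) ^ 2 * (a 2 - a 3) = 0 := this
    exact (mul_ne_zero (pow_ne_zero 2 (hne 0 1 (by decide))) (hne 2 3 (by decide))) h2
  · intro h
    obtain ⟨i, hi⟩ := hY
    let σ : S4 := Equiv.swap 0 i
    have hσ : σ 0 = i := Equiv.swap_apply_left 0 i
    have := congrFun h σ
    have h2 : (s - t * a (σ 0)) ^ 3 *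
      ((a (σ 1) - a (σ 2)) ^ 2 * (a (σ 2) - a (σ 3)) * (a (σ 3) - a (σ 1))) = 0 := this
    rw [hσ] at h2
    have h12 : σ 1 ≠ σ 2 := fun h => absurd (σ.injective h) (by decide)
    have h23 : σ 2 ≠ σ 3 := fun h => absurd (σ.injective h) (by decide)
    have h31 : σ 3 ≠ σ 1 := fun h => absurd (σ.injective h) (by decide)
    exact (mul_ne_zero (pow_ne_zero 3 hi) (mul_ne_zero (mul_ne_zero (pow_ne_zero 2 (hne _ _ h12))
      (hne _ _ h23)) (hne _ _ h31))) h2
  · intro F hF
    have hF0 : MvPolynomial.aeval gen F = 0 := hF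
    have h1 : φ (MvPolynomial.aeval gen F) = MvPolynomial.aeval (fun i => φ (gen i)) F := by
      rw [← MvPolynomial.comp_aeval]
      rfl
    rw [hF0, map_zero, hcomp] at h1
    exact h1.symm

end NefMod
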