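import Pool.Agent.Helper729.NF.Defs

set_option autoImplicit false

open Polynomial

namespace NefMod



theorem C9 : modelIdeal.IsPrime ∧ ∀ n : ℤ, MvPolynomial.C n ∈ modelIdeal → n = 0 := by
  refine ⟨RingHom.ker_isPrime _, fun n hn => ?_⟩
  have h1 : (MvPolynomial.aeval gen : MvPolynomial Idx ℤ →ₐ[ℤ] MvPolynomial Prm ℤ)
      (MvPolynomial.C n) = 0 := hn
  rw [MvPolynomial.aeval_C] at h1
  have h2 : (MvPolynomial.C n : MvPolynomial Prm ℤ) = MvPolynomial.C 0 := by
    rw [map_zero]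
    exact h1
  exact MvPolynomial.C_injective _ _ h2

end NefMod
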