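import Pool.Agent.Helper729.NF.Defs
import Pool.Agent.Helper729.NF.P_H4

set_option autoImplicit false

open Polynomial

namespace NefMod



theorem z_ne_zero' {K : Type*} [Field K] (c : Cub K) {i j : Fin 4} (h : i ≠ j) : c.z i j ≠ 0 := by
  intro h0
  have h1 := c.cube i j
  rw [h0] at h1
  have h2 : c.a i - c.a j = 0 := by rw [← h1]; ring
  exact h (c.inj (sub_eq_zero.mp h2))

theorem z_perm_ne_zero' {K : Type*} [Field K] (c : Cub K) (σ : S4) {i j : Fin 4} (h : i ≠ j) :
    c.z (σ i) (σ j) ≠ 0 := z_ne_zero' c (fun h1 => h (σ.injective h1))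

theorem E3 {K : Type*} [Field K] (S : PS K) (c : Cub K) (s t : K) (hst : s ≠ 0 ∨ t ≠ 0) :
    S.ht (al c.a) - S.ht (pv c.a) + S.ht (ov c.a s t) =
      3 * (S.ht (zv c) - S.ht (zt c) + S.ht (th c s t)) := by
  have h1 : al c.a = fun σ => (zv c σ) ^ 3 := by
    funext σ
    simp only [al, zv]
    rw [c.cube]
  have h2 : pv c.a = fun σ => (zt c σ) ^ 3 := by
    funext σ
    simp only [pv, zt]
    rw [← c.cube, ← c.cube]
    ring
  have h3 : ov c.a s t = fun σ => (th c s t σ) ^ 3 := by
    funext σ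
    simp only [ov, th]
    rw [← c.cube, ← c.cube, ← c.cube]
    ring
  have n1 : ∃ σ, zv c σ ≠ 0 := ⟨1, z_perm_ne_zero' c 1 (by decide)⟩
  have n2 : ∃ σ, zt c σ ≠ 0 :=
    ⟨1, mul_ne_zero (pow_ne_zero _ (z_perm_ne_zero' c 1 (by decide)))
      (z_perm_ne_zero' c 1 (by decide))⟩
  have n3 : ∃ σ, th c s t σ ≠ 0 := by
    have key : ∃ σ : S4, s - t * c.a (σ 0) ≠ 0 := by
      by_contra hcon
      push Not at hcon
      have e0 := hcon 1
      have e1 := hcon (Equiv.swap 0 1)
      rw [Equiv.swap_apply_left] at e1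
      have e0' : s - t * c.a 0 = 0 := e0
      have h01 : c.a 0 - c.a 1 ≠ 0 := by
        intro h
        have := c.inj (sub_eq_zero.mp h)
        exact absurd this (by decide)
      have ht : t * (c.a 0 - c.a 1) = 0 := by linear_combination e1 - e0'
      have ht0 : t = 0 := by
        rcases mul_eq_zero.mp ht with h | h
        · exact h
        · exact absurd h h01
      rw [ht0] at e0'
      have hs0 : s = 0 := by linear_combination e0'
      rcases hst with h | h
      · exact h hs0
      · exact h ht0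
    obtain ⟨σ, hσ⟩ := key
    refine ⟨σ, mul_ne_zero hσ (mul_ne_zero (mul_ne_zero (pow_ne_zero _ ?_) ?_) ?_)⟩
    · exact z_perm_ne_zero' c σ (by decide)
    · exact z_perm_ne_zero' c σ (by decide)
    · exact z_perm_ne_zero' c σ (by decide)
  rw [h1, h2, h3, H4 S (zv c) 3 (by norm_num) n1, H4 S (zt c) 3 (by norm_num) n2,
    H4 S (th c s t) 3 (by norm_num) n3]
  push_cast
  ring

end NefMod
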