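import Pool.Agent.Helper729.NF.Defs
import Pool.Agent.Helper729.NF.P_H0
import Pool.Agent.Helper729.NF.P_H1

set_option autoImplicit false

open Polynomial

namespace NefMod



theorem H8 {K ι : Type*} [Field K] [Finite ι] (S : PS K) (x : ι → K) (i j : ι) (hi : x i ≠ 0)
    (hj : x j ≠ 0) (w : S.I) (hw : (S.v w).ord (x i) < (S.v w).ord (x j)) : 0 < S.ht x := by
  have hle : ∀ (u : S.I) (k : ι), x k ≠ 0 → moV (S.v u) x ≤ (S.v u).ord (x k) := by
    intro u k hk
    rcases (H0 (S.v u) x ⟨k, hk⟩).1 k with h | h
    · exact absurd h hk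
    · exact h
  have hf1 : (Function.support fun u : S.I => -moV (S.v u) x).Finite := by
    apply (H1 S x ⟨i, hi⟩).subset
    intro u hu
    rw [Function.mem_support] at hu
    intro h
    apply hu
    rw [h, neg_zero]
  have hf2 : (Function.support fun u : S.I => (S.v u).ord (x j)).Finite := S.fin (x j) hj
  have hsum : S.ht x = ∑ᶠ u : S.I, (-moV (S.v u) x + (S.v u).ord (x j)) := by
    rw [finsum_add_distrib hf1 hf2, S.prod (x j) hj, add_zero]
    rfl
  rw [hsum]
  apply finsum_pos
  · intro u
    have := hle u j hj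
    linarith
  · refine ⟨w, ?_⟩
    have := hle w i hi
    linarith
  · exact (hf1.union hf2).subset (Function.support_add _ _)

end NefMod
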