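import Pool.Agent.Helper116.RR.Interior
import Pool.Agent.Helper192.NefE.Ext
import Pool.Agent.Helper693.Nef.EX
import Pool.Agent.Helper693.Nef.Adapt
import Pool.Agent.Helper729.NF.P_A1
import Pool.Agent.Helper729.NF.P_A2
import Pool.Agent.Helper729.NF.P_E3
import Pool.Agent.Helper729.NF.P_H8
import Pool.Agent.Helper729.NF.P_C7
import Pool.Agent.Helper729.NF.P_C8
import Pool.Agent.Helper729.NF.P_C9

set_option autoImplicit false

open Polynomial

namespace NefMod

theorem al_map {K L : Type*} [Field K] [Field L] (φ : K →+* L) (a : Fin 4 → K) :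
    al (fun i => φ (a i)) = fun σ => φ (al a σ) := by
  funext σ; simp [al]

theorem pv_map {K L : Type*} [Field K] [Field L] (φ : K →+* L) (a : Fin 4 → K) :
    pv (fun i => φ (a i)) = fun σ => φ (pv a σ) := by
  funext σ; simp [pv]

theorem ov_map {K L : Type*} [Field K] [Field L] (φ : K →+* L) (a : Fin 4 → K) (s t : K) :
    ov (fun i => φ (a i)) (φ s) (φ t) = fun σ => φ (ov a s t σ) := by
  funext σ; simp [ov]

theorem interior0 {K : Type} [Field K] [Algebra (AlgebraicClosure ℚ) K]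
    [FF.IsFF (AlgebraicClosure ℚ) K] (a : Fin 4 → K) (s t : K) (ha : Function.Injective a)
    (hst : s ≠ 0 ∨ t ≠ 0) :
    0 ≤ (Nef.psFF (AlgebraicClosure ℚ) K).ht (al a) - (Nef.psFF (AlgebraicClosure ℚ) K).ht (pv a) +
      (Nef.psFF (AlgebraicClosure ℚ) K).ht (ov a s t) := by
  obtain ⟨L, _, _, _, _, hFF, ⟨c, hc⟩, n, hn, hscale⟩ :=
    H192E.exists_cub_hgt (k := AlgebraicClosure ℚ) a ha
  have hst' : algebraMap K L s ≠ 0 ∨ algebraMap K L t ≠ 0 := by
    rcases hst with h | h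
    · exact Or.inl (by simpa using h)
    · exact Or.inr (by simpa using h)
  have h1 := E3 (Nef.psFF (AlgebraicClosure ℚ) L) c (algebraMap K L s) (algebraMap K L t) hst'
  have h2 := H116RR.interior_nonneg c.a c.z c.inj c.cube c.anti (algebraMap K L s)
    (algebraMap K L t) (by rintro ⟨h, h'⟩; rcases hst' with h3 | h3 <;> contradiction)
  simp only [Nef.ht_psFF] at h1 ⊢
  rw [hc] at h1
  rw [al_map, pv_map, ov_map, hscale, hscale, hscale] at h1
  have h3 : (0 : ℤ) ≤ (n : ℤ) * (H116RR.hgt (AlgebraicClosure ℚ) (al a) -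
      H116RR.hgt (AlgebraicClosure ℚ) (pv a) + H116RR.hgt (AlgebraicClosure ℚ) (ov a s t)) := by
    have h4 : (0 : ℤ) ≤ 3 * (H116RR.hgt (AlgebraicClosure ℚ) (zv c) -
      H116RR.hgt (AlgebraicClosure ℚ) (zt c) + H116RR.hgt (AlgebraicClosure ℚ)
        (th c (algebraMap K L s) (algebraMap K L t))) := by
      have : 0 ≤ (H116RR.hgt (AlgebraicClosure ℚ) (zv c) -
        H116RR.hgt (AlgebraicClosure ℚ) (zt c) + H116RR.hgt (AlgebraicClosure ℚ)
        (th c (algebraMap K L s) (algebraMap K L t))) := h2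
      linarith
    linarith
  have hn' : (0 : ℤ) < n := by exact_mod_cast hn
  exact nonneg_of_mul_nonneg_right h3 hn'

theorem nef0 {K : Type} [Field K] [Algebra (AlgebraicClosure ℚ) K]
    [FF.IsFF (AlgebraicClosure ℚ) K] (x : MPoint K) :
    0 ≤ (Nef.psFF (AlgebraicClosure ℚ) K).ht x.A - (Nef.psFF (AlgebraicClosure ℚ) K).ht x.P +
      (Nef.psFF (AlgebraicClosure ℚ) K).ht x.W :=
  C7 _ x fun a s t ha hst => interior0 a s t ha hst

theorem ht_pos {k K : Type} [Field k] [IsAlgClosed k] [Field K] [Algebra k K] [FF.IsFF k K]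
    (c : Cub K) (u w : K) (hc : c.a = ![0, 1, u, w]) (hu : u ∉ Set.range (algebraMap k K)) :
    0 < (Nef.psFF k K).ht (zv c) := by
  obtain ⟨P, hP⟩ := FF.exists_pole (k := k) u hu
  have h20 : c.z 2 0 ^ 3 = u := by rw [c.cube, hc]; simp
  have h10 : c.z 1 0 ^ 3 = 1 := by rw [c.cube, hc]; simp
  have hu0 : u ≠ 0 := by rintro rfl; exact hu ⟨0, by simp⟩
  have hz20 : c.z 2 0 ≠ 0 := by rintro h; rw [h] at h20; exact hu0 (by rw [← h20]; simp)
  have hz10 : c.z 1 0 ≠ 0 := by rintro h; rw [h] at h10; simp at h10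
  have e1 : (3 : ℤ) * P.ord (c.z 2 0) = P.ord u := by
    have := P.ord_pow (c.z 2 0) 3
    rw [h20] at this; exact_mod_cast this.symm
  have e2 : (3 : ℤ) * P.ord (c.z 1 0) = 0 := by
    have := P.ord_pow (c.z 1 0) 3
    rw [h10, P.ord_one] at this; exact_mod_cast this.symm
  refine H8 (Nef.psFF k K) (zv c) (⟨![2, 0, 1, 3], ![1, 2, 0, 3], by decide, by decide⟩ : S4)
    (⟨![1, 0, 2, 3], ![1, 0, 2, 3], by decide, by decide⟩ : S4) ?_ ?_ P ?_
  · exact hz20
  · exact hz10
  · change P.ord (c.z 2 0) < P.ord (c.z 1 0)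
    omega

theorem neg0 (p : ℕ) [Fact p.Prime] (hp : 5 ≤ p) :
    ∃ (K : Type) (_ : Field K) (_ : Algebra (AlgebraicClosure (ZMod p)) K)
      (_ : FF.IsFF (AlgebraicClosure (ZMod p)) K) (x : MPoint K),
      (Nef.psFF (AlgebraicClosure (ZMod p)) K).ht x.A -
        (Nef.psFF (AlgebraicClosure (ZMod p)) K).ht x.P +
        (Nef.psFF (AlgebraicClosure (ZMod p)) K).ht x.W < 0 := by
  have hpp : p.Prime := Fact.out
  have h3 : p % 3 = 1 ∨ p % 3 = 2 := by
    have : p % 3 ≠ 0 := by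
      intro h
      have := (Nat.prime_dvd_prime_iff_eq Nat.prime_three hpp).1 (Nat.dvd_of_mod_eq_zero h)
      omega
    omega
  rcases h3 with h3 | h3
  · obtain ⟨r, hr⟩ : ∃ r, p = 3 * r + 1 := ⟨p / 3, by omega⟩
    have hr2 : 2 ≤ r := by
      have : r ≠ 1 := by
        rintro rfl
        rw [hr] at hpp
        exact absurd hpp (by norm_num)
      omega
    obtain ⟨K, _, _, _, c, u, w, hc, hu, h⟩ := Nef.EX1 p r hr hr2
    have : CharP K p := charP_of_injective_algebraMap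
      (algebraMap (AlgebraicClosure (ZMod p)) K).injective p
    obtain ⟨c', s, t, hst, hneg⟩ := A1 p r hr hr2 (Nef.psFF (AlgebraicClosure (ZMod p)) K) c h
      (ht_pos c u w hc hu)
    obtain ⟨x, hxA, hxP, hxW⟩ := C8 c'.a c'.inj s t hst
    refine ⟨K, inferInstance, inferInstance, inferInstance, x, ?_⟩
    have := E3 (Nef.psFF (AlgebraicClosure (ZMod p)) K) c' s t hst
    rw [hxA, hxP, hxW]
    linarith
  · obtain ⟨r, hr⟩ : ∃ r, p = 3 * r + 2 := ⟨p / 3, by omega⟩
    have hr2 : 1 ≤ r := by omega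
    obtain ⟨K, _, _, _, c, u, w, hc, hu, h, hk⟩ := Nef.EX2 p r hr hr2
    have : CharP K p := charP_of_injective_algebraMap
      (algebraMap (AlgebraicClosure (ZMod p)) K).injective p
    obtain ⟨s, t, hst, hneg⟩ := A2 p r hr hr2 (Nef.psFF (AlgebraicClosure (ZMod p)) K) c h hk
      (ht_pos c u w hc hu)
    obtain ⟨x, hxA, hxP, hxW⟩ := C8 c.a c.inj s t hst
    refine ⟨K, inferInstance, inferInstance, inferInstance, x, ?_⟩
    have := E3 (Nef.psFF (AlgebraicClosure (ZMod p)) K) c s t hst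
    rw [hxA, hxP, hxW]
    linarith

end NefMod
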