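import Pool.Agent.Helper729.NF.Defs

set_option autoImplicit false

open Polynomial

namespace NefMod

--@ N0
theorem N0 {K : Type*} [Field K] (p : ℕ) [Fact p.Prime] [CharP K p] (F : K[X])
    (hF : F.natDegree < 4 * p) (c : K) :
    (F.comp (X + C c)).coeff (p - 1) =
      F.coeff (p - 1) + F.coeff (2 * p - 1) * c ^ p + F.coeff (3 * p - 1) * c ^ (2 * p)
        + F.coeff (4 * p - 1) * c ^ (3 * p) := by
  sorry

--@ N1
theorem N1 {K : Type*} [Field K] (p : ℕ) [Fact p.Prime] [CharP K p] (g : K[X])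
    (hd : g.natDegree + 1 < 2 * p) (h0 : g.coeff (p - 1) = 0) :
    derivative (antid g) = g ∧ (antid g).natDegree ≤ g.natDegree + 1 := by
  sorry

--@ N2
theorem N2 {K : Type*} [Field K] (p : ℕ) [Fact p.Prime] [CharP K p] (F : K[X])
    (hd : F.natDegree + 1 < 2 * p) (h0 : F.coeff (p - 1) = 0) (c : K) :
    ∃ α β : K, ∀ x : K, (antid F).eval x =
      (antid (F.comp (X + C c))).eval (x - c) + α + β * x ^ p := by
  sorry

--@ N3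
theorem N3 {K : Type*} [Field K] (p : ℕ) [Fact p.Prime] [CharP K p] (v : Val K) (c : Cub K)
    (r : ℕ) (u0 u1 : K) (j k : Fin 4) (hjk : j ≠ k) (μ y : ℤ)
    (hμ : ∀ i l, i ≠ l → μ ≤ v.ord (c.z i l))
    (hyj : v.Ge y (u0 + u1 * c.a j)) (hyk : v.Ge y (u0 + u1 * c.a k)) :
    v.Ge (3 * (2 * r + 1) * v.ord (c.z j k) + 6 * r * μ + y)
      ((antid ((lf c.a r u0 u1).comp (X + C (c.a k)))).eval (c.a j - c.a k)) := by
  sorry

--@ N4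
theorem N4 {K : Type*} [Field K] (p : ℕ) [Fact p.Prime] [CharP K p] (hp2 : p ≠ 2) (c : Cub K)
    (G : K[X]) (σ : S4) :
    qf p c.a G (fun j => c.a (σ 0) ^ p - c.a j ^ p) * tri c σ ^ (3 * p) =
      G.eval (c.a (σ 1)) * (c.a (σ 2) - c.a (σ 3)) ^ p +
      G.eval (c.a (σ 2)) * (c.a (σ 3) - c.a (σ 1)) ^ p +
      G.eval (c.a (σ 3)) * (c.a (σ 1) - c.a (σ 2)) ^ p := by
  sorry

--@ N4B1
theorem N4B1 {K : Type*} [Field K] (p r : ℕ) [Fact p.Prime] [CharP K p] (hp : p = 3 * r + 1)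
    (hr : 2 ≤ r) (v : Val K) (c : Cub K) (hc : (fP c.a ^ r).coeff (p - 1) = 0) (μ : ℤ)
    (hμ : ∀ i l, i ≠ l → μ ≤ v.ord (c.z i l))
    (hnc : ∀ σ : S4, v.ord (c.z (σ 1) (σ 2)) = μ ∨ v.ord (c.z (σ 2) (σ 3)) = μ ∨
      v.ord (c.z (σ 3) (σ 1)) = μ) (σ : S4) :
    v.Ge ((p - 1) * μ)
      (qf p c.a (antid (lf c.a r 1 0)) (fun j => c.a (σ 0) ^ p - c.a j ^ p) * tri c σ ^ p) := by
  sorry

--@ N4B2
theorem N4B2 {K : Type*} [Field K] (p r : ℕ) [Fact p.Prime] [CharP K p] (hp : p = 3 * r + 2)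
    (hr : 1 ≤ r) (v : Val K) (c : Cub K) (u0 u1 : K) (hc : (lf c.a r u0 u1).coeff (p - 1) = 0)
    (μ m : ℤ) (hμ : ∀ i l, i ≠ l → μ ≤ v.ord (c.z i l))
    (hnc : ∀ σ : S4, v.ord (c.z (σ 1) (σ 2)) = μ ∨ v.ord (c.z (σ 2) (σ 3)) = μ ∨
      v.ord (c.z (σ 3) (σ 1)) = μ)
    (hm : ∀ σ : S4, v.Ge m ((u0 + u1 * c.a (σ 0)) * tri c σ)) (σ : S4) :
    v.Ge (m + (p - 2) * μ - sz v c)
      (qf p c.a (antid (lf c.a r u0 u1)) (fun j => c.a (σ 0) ^ p - c.a j ^ p) * tri c σ ^ p) := by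
  sorry

--@ N5
theorem N5 {K : Type*} [Field K] (p r : ℕ) [Fact p.Prime] [CharP K p] (hd : 4 * r + 2 < 2 * p)
    (hpr : p ≤ 4 * r + 3) (hrp : r + 1 < p) (a : Fin 4 → K) (ha : Function.Injective a) (u0 u1 : K)
    (hc : (lf a r u0 u1).coeff (p - 1) = 0)
    (h1 : qf p a (antid (lf a r u0 u1)) (fun _ => 1) = 0)
    (h2 : qf p a (antid (lf a r u0 u1)) (fun j => a j ^ p) = 0) : u0 = 0 ∧ u1 = 0 := by
  sorry

--@ N6
theorem N6 {K : Type*} [Field K] (p : ℕ) [Fact p.Prime] [CharP K p] (a : Fin 4 → K)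
    (ha : Function.Injective a) (B : K[X]) (hB : B.natDegree < 4 * p) :
    ∑ j, (B.comp (X + C (a j))).coeff (p - 1) / den a j ^ p = B.coeff (4 * p - 1) := by
  sorry

--@ N7
theorem N7 {K : Type*} [Field K] (p : ℕ) [Fact p.Prime] [CharP K p] (a : Fin 4 → K)
    (ha : Function.Injective a) (e : ℕ) (he : e ≤ p) (M h : K[X])
    (hM : ∀ j, (X - C (a j)) ^ e ∣ M - C (M.eval (a j)))
    (hB : (M * h * fP a ^ (p - e)).natDegree < 4 * p) :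
    ∑ j, M.eval (a j) * ((h * fP a ^ (p - e)).comp (X + C (a j))).coeff (p - 1) / den a j ^ p =
      (M * h * fP a ^ (p - e)).coeff (4 * p - 1) := by
  sorry

--@ N8
theorem N8 {K : Type*} [Field K] (p r : ℕ) [Fact p.Prime] [CharP K p] (hp : p = 3 * r + 2)
    (hr : 1 ≤ r) (a : Fin 4 → K) (ha : Function.Injective a) (u0 u1 : K)
    (hc : (lf a r u0 u1).coeff (p - 1) = 0) :
    qf p a (antid (lf a r u0 u1)) (fun j => (fP a ^ (2 * r + 1)).coeff (p - 1) +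
      (fP a ^ (2 * r + 1)).coeff (2 * p - 1) * a j ^ p) = 0 := by
  sorry

--@ N9
theorem N9 {K : Type*} [Field K] (p r : ℕ) [Fact p.Prime] [CharP K p] (hp : p = 3 * r + 2)
    (hr : 1 ≤ r) (a : Fin 4 → K) (ha : Function.Injective a)
    (h1 : (fP a ^ (2 * r + 1)).coeff (p - 1) = 0)
    (h2 : (fP a ^ (2 * r + 1)).coeff (2 * p - 1) = 0) :
    (fP a ^ r).coeff (p - 1) = 0 ∧ (fP a ^ r).coeff (p - 2) = 0 := by
  sorry

--@ N10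
theorem N10 {K : Type*} [Field K] (p r : ℕ) [Fact p.Prime] [CharP K p] (hp : p = 3 * r + 1)
    (hr : 1 ≤ r) (v : Val K) (c : Cub K) (hc : (fP c.a ^ r).coeff (p - 1) = 0) (μ : ℤ)
    (hμ : ∀ i l, i ≠ l → μ ≤ v.ord (c.z i l)) (hμ' : ∃ i l, i ≠ l ∧ v.ord (c.z i l) = μ)
    (σ : S4) : v.ord (c.z (σ 1) (σ 2)) = μ ∨ v.ord (c.z (σ 2) (σ 3)) = μ ∨
      v.ord (c.z (σ 3) (σ 1)) = μ := by
  sorry

--@ N11
theorem N11 {K : Type*} [Field K] (p r : ℕ) [Fact p.Prime] [CharP K p] (hp : p = 3 * r + 2)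
    (hr : 1 ≤ r) (v : Val K) (c : Cub K)
    (hc : (fP c.a ^ (2 * r + 1)).coeff (p - 1) * (fP c.a ^ r).coeff (p - 1) ^ p +
      (fP c.a ^ (2 * r + 1)).coeff (2 * p - 1) * (fP c.a ^ r).coeff (p - 2) ^ p = 0) (μ : ℤ)
    (hμ : ∀ i l, i ≠ l → μ ≤ v.ord (c.z i l)) (hμ' : ∃ i l, i ≠ l ∧ v.ord (c.z i l) = μ)
    (σ : S4) : v.ord (c.z (σ 1) (σ 2)) = μ ∨ v.ord (c.z (σ 2) (σ 3)) = μ ∨
      v.ord (c.z (σ 3) (σ 1)) = μ := by
  sorry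

--@ N12
theorem N12 {K : Type*} [Field K] (v : Val K) (c : Cub K) (μ : ℤ)
    (hμ : ∀ i l, i ≠ l → μ ≤ v.ord (c.z i l))
    (hnc : ∀ σ : S4, v.ord (c.z (σ 1) (σ 2)) = μ ∨ v.ord (c.z (σ 2) (σ 3)) = μ ∨
      v.ord (c.z (σ 3) (σ 1)) = μ) : ∃ σ : S4, v.ord (zt c σ) = 3 * μ := by
  sorry

--@ N14
theorem N14 {k : Type*} [Field k] [IsAlgClosed k] (p r : ℕ) [Fact p.Prime] [CharP k p]
    (hr : 1 ≤ r) (hp : 2 * r < p) :
    ∃ τ : k, τ ≠ 0 ∧ τ ≠ 1 ∧ (((X - C 1) * (X - C τ)) ^ r : k[X]).coeff r = 0 := by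
  sorry

--@ N15
theorem N15 {k : Type*} [Field k] (p r : ℕ) [Fact p.Prime] [CharP k p]
    (hr : 1 ≤ r) (hp : 2 * r < p) (τ : k) (hτ : τ ≠ 0)
    (h : (((X - C 1) * (X - C τ)) ^ r : k[X]).coeff r = 0) :
    (((X - C 1) * (X - C τ)) ^ r : k[X]).coeff (r + 1) ≠ 0 := by
  sorry

end NefMod
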